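import Mathlib

set_option autoImplicit false

/-!
# Degenerate CM types of fields with large `[L : L₀]`: definitions
-/

namespace Pool.Agent.CMV

open Finset
open scoped BigOperators RealInnerProductSpace

section basic

variable {ι : Type} [Fintype ι] [DecidableEq ι]

/-- the basis vectors -/
noncomputable def bv (i : ι) : EuclideanSpace ℝ ι := EuclideanSpace.single i 1

/-- a sign -/
def sg (a : Bool) : ℝ := if a then 1 else -1

/-- the vector of signs -/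
noncomputable def sv (a : ι → Bool) : EuclideanSpace ℝ ι := WithLp.toLp 2 (fun i => sg (a i))

/-- finite groups of signed permutations of the coordinates, transitive on the coordinates -/
structure Signed (G : Subgroup (EuclideanSpace ℝ ι ≃ₗᵢ[ℝ] EuclideanSpace ℝ ι)) : Prop where
  fin : Finite G
  signed : ∀ g ∈ G, ∀ i, ∃ j, g (bv i) = bv j ∨ g (bv i) = - bv j
  trans : ∀ i j, ∃ g ∈ G, g (bv i) = bv j ∨ g (bv i) = - bv j

/-- stable subspaces -/
def Stable (G : Subgroup (EuclideanSpace ℝ ι ≃ₗᵢ[ℝ] EuclideanSpace ℝ ι))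
    (W : Submodule ℝ (EuclideanSpace ℝ ι)) : Prop :=
  ∀ g ∈ G, ∀ w ∈ W, g w ∈ W

/-- minimal stable subspaces -/
def Mini (G : Subgroup (EuclideanSpace ℝ ι ≃ₗᵢ[ℝ] EuclideanSpace ℝ ι))
    (W : Submodule ℝ (EuclideanSpace ℝ ι)) : Prop :=
  Stable G W ∧ W ≠ ⊥ ∧ ∀ W' : Submodule ℝ (EuclideanSpace ℝ ι),
    Stable G W' → W' ≤ W → W' ≠ ⊥ → W' = W

/-- the equivariant maps from `W` to `W'` -/
def EqI (G : Subgroup (EuclideanSpace ℝ ι ≃ₗᵢ[ℝ] EuclideanSpace ℝ ι))
    (W W' : Submodule ℝ (EuclideanSpace ℝ ι)) : Submodule ℝ (W →L[ℝ] EuclideanSpace ℝ ι) where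
  carrier := {T | (∀ g ∈ G, ∀ w w' : W, (w' : EuclideanSpace ℝ ι) = g w → T w' = g (T w)) ∧
    ∀ w, T w ∈ W'}
  add_mem' := by
    rintro S T ⟨hS, hS'⟩ ⟨hT, hT'⟩
    refine ⟨fun g hg w w' h => ?_, fun w => W'.add_mem (hS' w) (hT' w)⟩
    simp only [add_apply, map_add, hS g hg w w' h, hT g hg w w' h]
  zero_mem' := by
    refine ⟨fun g _ w w' _ => ?_, fun w => ?_⟩
    · simp
    · simp
  smul_mem' := by
    rintro c T ⟨hT, hT'⟩
    refine ⟨fun g hg w w' h => ?_, fun w => W'.smul_mem c (hT' w)⟩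
    simp only [smul_apply, map_smul, hT g hg w w' h]

/-- the families of sign vectors that do not generate -/
def Bad (G : Subgroup (EuclideanSpace ℝ ι ≃ₗᵢ[ℝ] EuclideanSpace ℝ ι)) (k : ℕ) :
    Set (Fin k → ι → Bool) :=
  {a | ∃ f : EuclideanSpace ℝ ι, f ≠ 0 ∧ ∀ g ∈ G, ∀ i, ⟪g f, sv (a i)⟫ = 0}

end basic

/-- `binom(2q, q) / 4^q` -/
noncomputable def cq (q : ℕ) : ℝ := (Nat.centralBinom q : ℝ) / 4 ^ q

/-- the weight of a minimal subspace of dimension `s` with `f`-dimensional space of maps -/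
noncomputable def wt (b s f k : ℕ) : ℝ :=
  if 2 * s ≤ b then
    2 * f * (1 + 2000 * b / s) ^ (f - 1) * ((21 / 20 * cq (b / (2 * s))) ^ s) ^ k
  else ((1 / 2 : ℝ) ^ s) ^ k

end Pool.Agent.CMV
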