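import Mathlib
import Pool.Agent.CMV.Defs

set_option autoImplicit false

/-!
# AM-GM over a transitive group of signed permutations
-/

namespace Pool.Agent.CMV

open Finset
open scoped BigOperators RealInnerProductSpace

namespace AmGm_

variable {ι : Type} [Fintype ι] [DecidableEq ι]

omit [Fintype ι] in
lemma bv_inj {i j : ι} (h : bv i = bv j ∨ bv i = -bv j) : i = j := by
  by_contra hne
  have h1 : (bv i : EuclideanSpace ℝ ι) i = 1 := by simp [bv]
  have h2 : (bv j : EuclideanSpace ℝ ι) i = 0 := by simp [bv, hne]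
  rcases h with h | h
  · rw [h, h2] at h1
    exact zero_ne_one h1
  · rw [h] at h1
    simp [h2] at h1

omit [Fintype ι] in
lemma pm_inj {v : EuclideanSpace ℝ ι} {i j : ι} (h : v = bv i ∨ v = -bv i)
    (h' : v = bv j ∨ v = -bv j) : i = j := by
  apply bv_inj
  rcases h with h | h <;> rcases h' with h' | h'
  · left; rw [← h, ← h']
  · right; rw [← h, ← h']
  · right; rw [h'] at h; rw [h, neg_neg]
  · left; rw [h] at h'; exact neg_injective h'

lemma coord (w : EuclideanSpace ℝ ι) (a : ι) : w a = ⟪bv a, w⟫ := by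
  simp [bv, EuclideanSpace.inner_single_left]

lemma cos_eq (g : EuclideanSpace ℝ ι ≃ₗᵢ[ℝ] EuclideanSpace ℝ ι) (w : EuclideanSpace ℝ ι) (a i : ι)
    (h : g⁻¹ (bv a) = bv i ∨ g⁻¹ (bv a) = -bv i) (t : ℝ) :
    |Real.cos (t * (g w) a)| = |Real.cos (t * w i)| := by
  have h1 : (g w) a = ⟪g⁻¹ (bv a), w⟫ := by
    rw [coord, ← LinearIsometryEquiv.inner_map_map g (g⁻¹ (bv a)) w]
    congr 1
    show bv a = (g * g⁻¹) (bv a)
    rw [mul_inv_cancel]
    rfl
  rcases h with h | h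
  · rw [h1, h, ← coord]
  · rw [h1, h, inner_neg_left, ← coord, mul_neg, Real.cos_neg]

end AmGm_

open AmGm_ in
theorem amgm {ι : Type} [Fintype ι] [DecidableEq ι]
    (G : Subgroup (EuclideanSpace ℝ ι ≃ₗᵢ[ℝ] EuclideanSpace ℝ ι)) [Fintype G] (hG : Signed G)
    (w : EuclideanSpace ℝ ι) (s q : ℕ) (x : Fin s → ι) (hq : 2 * q * s ≤ Fintype.card ι) (t : ℝ) :
    |∏ i, Real.cos (t * w i)| ≤ (1 / (Fintype.card G : ℝ)) *
      ∑ γ : G, ∏ j, Real.cos (t * ((γ : EuclideanSpace ℝ ι ≃ₗᵢ[ℝ] EuclideanSpace ℝ ι) w) (x j)) ^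
        (2 * q) := by
  classical
  set c : ι → ℝ := fun i => |Real.cos (t * w i)| with hc
  have hc0 : ∀ i, 0 ≤ c i := fun i => abs_nonneg _
  have hc1 : ∀ i, c i ≤ 1 := fun i => Real.abs_cos_le_one _
  set P : ℝ := ∏ i, c i with hP
  have hP0 : 0 ≤ P := prod_nonneg fun i _ => hc0 i
  have hP1 : P ≤ 1 := prod_le_one (fun i _ => hc0 i) fun i _ => hc1 i
  have hPabs : |∏ i, Real.cos (t * w i)| = P := by rw [hP, abs_prod]
  -- the permutations
  have hex : ∀ (γ : G) (a : ι), ∃ i, ((γ : EuclideanSpace ℝ ι ≃ₗᵢ[ℝ] EuclideanSpace ℝ ι)⁻¹ (bv a) =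
      bv i ∨ (γ : EuclideanSpace ℝ ι ≃ₗᵢ[ℝ] EuclideanSpace ℝ ι)⁻¹ (bv a) = -bv i) := by
    intro γ a
    exact hG.signed _ (G.inv_mem γ.2) a
  choose σ hσ using hex
  have hfib : ∀ (a i i' : ι), #{γ : G | σ γ a = i} ≤ #{γ : G | σ γ a = i'} := by
    intro a i i'
    obtain ⟨g, hg, hgi⟩ := hG.trans i i'
    refine card_le_card_of_injOn (fun γ => γ * ⟨g, hg⟩⁻¹) ?_ ?_
    · intro γ hγ
      simp only [coe_filter, mem_univ, true_and, Set.mem_ofPred_eq] at hγ ⊢
      have h1 := hσ (γ * ⟨g, hg⟩⁻¹) a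
      have h2 := hσ γ a
      rw [hγ] at h2
      have h3 : ((γ * ⟨g, hg⟩⁻¹ : G) : EuclideanSpace ℝ ι ≃ₗᵢ[ℝ] EuclideanSpace ℝ ι)⁻¹ (bv a) =
          g ((γ : EuclideanSpace ℝ ι ≃ₗᵢ[ℝ] EuclideanSpace ℝ ι)⁻¹ (bv a)) := by
        rw [Subgroup.coe_mul, Subgroup.coe_inv, mul_inv_rev, inv_inv]
        rfl
      apply pm_inj h1
      rw [h3]
      rcases h2 with h2 | h2
      · rw [h2]; exact hgi
      · rw [h2, map_neg]
        rcases hgi with h4 | h4
        · right; rw [h4]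
        · left; rw [h4, neg_neg]
    · intro γ _ γ' _ h
      exact mul_right_cancel h
  have hfib' : ∀ (a i i' : ι), #{γ : G | σ γ a = i} = #{γ : G | σ γ a = i'} :=
    fun a i i' => le_antisymm (hfib a i i') (hfib a i' i)
  have hcard : ∀ a i : ι, Fintype.card ι * #{γ : G | σ γ a = i} = Fintype.card G := by
    intro a i
    have h1 : Fintype.card G = ∑ i' : ι, #{γ : G | σ γ a = i'} := by
      rw [← card_univ]
      exact card_eq_sum_card_fiberwise (fun γ _ => mem_univ _)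
    rw [h1, sum_congr rfl (fun i' _ => hfib' a i' i), sum_const, card_univ, smul_eq_mul]
  have hprod : ∀ a : ι, (∏ γ : G, c (σ γ a)) ^ Fintype.card ι = P ^ Fintype.card G := by
    intro a
    have h1 : ∏ γ : G, c (σ γ a) = ∏ i : ι, c i ^ #{γ : G | σ γ a = i} := by
      rw [← prod_fiberwise (univ : Finset G) (fun γ => σ γ a)]
      refine prod_congr rfl fun i _ => ?_
      rw [← prod_const]
      refine prod_congr rfl fun γ hγ => ?_
      rw [(mem_filter.mp hγ).2]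
    rw [h1, hP, ← prod_pow, ← prod_pow]
    refine prod_congr rfl fun i _ => ?_
    rw [← pow_mul, mul_comm, hcard]
  -- the values
  set z : G → ℝ := fun γ => ∏ j, c (σ γ (x j)) ^ (2 * q) with hz
  have hz0 : ∀ γ, 0 ≤ z γ := fun γ => prod_nonneg fun j _ => pow_nonneg (hc0 _) _
  have hzeq : ∀ γ : G, ∏ j, Real.cos (t * ((γ : EuclideanSpace ℝ ι ≃ₗᵢ[ℝ] EuclideanSpace ℝ ι) w)
      (x j)) ^ (2 * q) = z γ := by
    intro γ
    refine prod_congr rfl fun j _ => ?_
    rw [hc]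
    simp only
    rw [← cos_eq _ w (x j) _ (hσ γ (x j)) t, pow_mul, pow_mul, sq_abs]
  have hGpos : 0 < Fintype.card G := Fintype.card_pos
  have hkey : P ^ Fintype.card G ≤ ∏ γ : G, z γ := by
    have h1 : ∏ γ : G, z γ = ∏ j, (∏ γ : G, c (σ γ (x j))) ^ (2 * q) := by
      rw [hz, prod_comm]
      exact prod_congr rfl fun j _ => prod_pow _ _ _
    rcases Nat.eq_zero_or_pos s with h0 | h0
    · subst h0
      rw [h1]
      simp only [univ_eq_empty, prod_empty]
      exact pow_le_one₀ hP0 hP1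
    · have hn : 0 < Fintype.card ι := Fintype.card_pos_iff.mpr ⟨x ⟨0, h0⟩⟩
      have hR0 : 0 ≤ ∏ γ : G, z γ := prod_nonneg fun γ _ => hz0 γ
      rw [← pow_le_pow_iff_left₀ (pow_nonneg hP0 _) hR0 hn.ne', h1]
      have h3 : (∏ j, (∏ γ : G, c (σ γ (x j))) ^ (2 * q)) ^ Fintype.card ι =
          ∏ j, ((∏ γ : G, c (σ γ (x j))) ^ (2 * q)) ^ Fintype.card ι := (prod_pow _ _ _).symm
      rw [h3]
      have h2 : ∀ j : Fin s, ((∏ γ : G, c (σ γ (x j))) ^ (2 * q)) ^ Fintype.card ι =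
          (P ^ Fintype.card G) ^ (2 * q) := by
        intro j
        rw [← pow_mul, mul_comm, pow_mul, hprod]
      rw [prod_congr rfl fun j _ => h2 j, prod_const, card_univ, Fintype.card_fin,
        ← pow_mul (P ^ Fintype.card G)]
      exact pow_le_pow_of_le_one (pow_nonneg hP0 _) (pow_le_one₀ hP0 hP1) hq
  rw [hPabs, sum_congr rfl fun γ _ => hzeq γ]
  have hcR : (0 : ℝ) < Fintype.card G := by exact_mod_cast hGpos
  have ham := Real.geom_mean_le_arith_mean_weighted (univ : Finset G)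
    (fun _ => 1 / (Fintype.card G : ℝ)) z (fun _ _ => by positivity)
    (by rw [sum_const, card_univ, nsmul_eq_mul]; field_simp) (fun γ _ => hz0 γ)
  rw [← mul_sum] at ham
  refine le_trans ?_ ham
  rw [Real.finsetProd_rpow _ _ (fun γ _ => hz0 γ)]
  calc P = (P ^ Fintype.card G) ^ (1 / (Fintype.card G : ℝ)) := by
        rw [← Real.rpow_natCast, ← Real.rpow_mul hP0, mul_one_div_cancel hcR.ne', Real.rpow_one]
    _ ≤ _ := Real.rpow_le_rpow (pow_nonneg hP0 _) hkey (by positivity)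

end Pool.Agent.CMV
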