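import Mathlib
import Pool.Agent.CMV.Defs

set_option autoImplicit false

/-! A maximal orthogonal family of minimal stable subspaces. -/

namespace Pool.Agent.CMV

open Finset Module
open scoped BigOperators RealInnerProductSpace

theorem nrm {F : Type} [NormedAddCommGroup F] [NormedSpace ℝ F] (p : F) (hp : p ≠ 0) :
    ‖‖p‖⁻¹ • p‖ = 1 := by
  rw [norm_smul, norm_inv, norm_norm, inv_mul_cancel₀ (norm_ne_zero_iff.mpr hp)]

section fam

variable {ι : Type} [Fintype ι] [DecidableEq ι]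
variable {G : Subgroup (EuclideanSpace ℝ ι ≃ₗᵢ[ℝ] EuclideanSpace ℝ ι)}

theorem mem_EqI {W W' : Submodule ℝ (EuclideanSpace ℝ ι)} {T : W →L[ℝ] EuclideanSpace ℝ ι} :
    T ∈ EqI G W W' ↔ (∀ g ∈ G, ∀ w w' : W, (w' : EuclideanSpace ℝ ι) = g w → T w' = g (T w)) ∧
      ∀ w, T w ∈ W' := Iff.rfl

theorem proj_comm {V : Submodule ℝ (EuclideanSpace ℝ ι)} (hV : Stable G V)
    {g : EuclideanSpace ℝ ι ≃ₗᵢ[ℝ] EuclideanSpace ℝ ι} (hg : g ∈ G) (x : EuclideanSpace ℝ ι) :
    V.starProjection (g x) = g (V.starProjection x) := by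
  apply Submodule.eq_starProjection_of_mem_of_inner_eq_zero
  · exact hV g hg _ (Submodule.starProjection_apply_mem V x)
  · intro w hw
    have h1 : (g⁻¹ : EuclideanSpace ℝ ι ≃ₗᵢ[ℝ] EuclideanSpace ℝ ι) w ∈ V :=
      hV g⁻¹ (G.inv_mem hg) w hw
    have h2 : g ((g⁻¹ : EuclideanSpace ℝ ι ≃ₗᵢ[ℝ] EuclideanSpace ℝ ι) w) = w := by
      change (g * g⁻¹) w = w
      rw [mul_inv_cancel]
      rfl
    rw [← map_sub, ← h2, LinearIsometryEquiv.inner_map_map]
    exact Submodule.starProjection_inner_eq_zero x _ h1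

/-- the projection of an equivariant map is equivariant -/
theorem comp_mem {W W' V : Submodule ℝ (EuclideanSpace ℝ ι)} (hV : Stable G V)
    {T : W →L[ℝ] EuclideanSpace ℝ ι} (hT : T ∈ EqI G W W') :
    V.starProjection.comp T ∈ EqI G W V := by
  refine ⟨fun g hg w w' h => ?_, fun w => ?_⟩
  · simp only [ContinuousLinearMap.comp_apply]
    rw [hT.1 g hg w w' h, proj_comm hV hg]
  · simp only [ContinuousLinearMap.comp_apply]
    exact Submodule.starProjection_apply_mem V _

theorem subtype_mem (W : Submodule ℝ (EuclideanSpace ℝ ι)) : W.subtypeL ∈ EqI G W W := by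
  refine ⟨fun g hg w w' h => ?_, fun w => ?_⟩
  · simpa using h
  · simp

theorem EqI_mono {W W' : Submodule ℝ (EuclideanSpace ℝ ι)} {T : W →L[ℝ] EuclideanSpace ℝ ι}
    (hT : T ∈ EqI G W W') : T ∈ EqI G W ⊤ := ⟨hT.1, fun _ => Submodule.mem_top⟩

/-- the range of a nonzero equivariant map of a minimal space is minimal -/
theorem range_stable {W : Submodule ℝ (EuclideanSpace ℝ ι)} (hW : Mini G W)
    {T : W →L[ℝ] EuclideanSpace ℝ ι} (hT : T ∈ EqI G W ⊤) :
    Stable G (LinearMap.range (T : W →ₗ[ℝ] EuclideanSpace ℝ ι)) := by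
  rintro g hg _ ⟨w, rfl⟩
  exact ⟨⟨g w, hW.1 g hg w w.2⟩, hT.1 g hg w ⟨g w, hW.1 g hg w w.2⟩ rfl⟩

theorem range_ne_bot {W : Submodule ℝ (EuclideanSpace ℝ ι)}
    {T : W →L[ℝ] EuclideanSpace ℝ ι} (hT0 : T ≠ 0) :
    LinearMap.range (T : W →ₗ[ℝ] EuclideanSpace ℝ ι) ≠ ⊥ := by
  intro h
  apply hT0
  rw [LinearMap.range_eq_bot] at h
  ext1 w
  have := LinearMap.congr_fun h w
  simpa using this

theorem range_mini {W : Submodule ℝ (EuclideanSpace ℝ ι)} (hW : Mini G W)
    {T : W →L[ℝ] EuclideanSpace ℝ ι} (hT : T ∈ EqI G W ⊤) (hT0 : T ≠ 0) :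
    Mini G (LinearMap.range (T : W →ₗ[ℝ] EuclideanSpace ℝ ι)) := by
  refine ⟨range_stable hW hT, range_ne_bot hT0, ?_⟩
  intro R hR hRT hR0
  set U : Submodule ℝ (EuclideanSpace ℝ ι) :=
    (R.comap (T : W →ₗ[ℝ] EuclideanSpace ℝ ι)).map W.subtype with hU
  have hmem : ∀ x, x ∈ U ↔ ∃ w : W, T w ∈ R ∧ (w : EuclideanSpace ℝ ι) = x := by
    intro x
    rw [hU, Submodule.mem_map]
    constructor
    · rintro ⟨w, hw, rfl⟩
      exact ⟨w, hw, rfl⟩
    · rintro ⟨w, hw, rfl⟩
      exact ⟨w, hw, rfl⟩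
  have hUW : U ≤ W := by
    intro x hx
    obtain ⟨w, -, rfl⟩ := (hmem x).mp hx
    exact w.2
  have hUs : Stable G U := by
    intro g hg x hx
    obtain ⟨w, hw, rfl⟩ := (hmem x).mp hx
    refine (hmem _).mpr ⟨⟨g w, hW.1 g hg w w.2⟩, ?_, rfl⟩
    rw [hT.1 g hg w ⟨g w, hW.1 g hg w w.2⟩ rfl]
    exact hR g hg _ hw
  have hU0 : U ≠ ⊥ := by
    obtain ⟨r, hr, hr0⟩ := Submodule.exists_mem_ne_zero_of_ne_bot hR0
    obtain ⟨w, hw⟩ := hRT hr
    have hw' : T w = r := hw
    intro h
    have : (w : EuclideanSpace ℝ ι) ∈ U := (hmem _).mpr ⟨w, by rw [hw']; exact hr, rfl⟩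
    rw [h, Submodule.mem_bot] at this
    have hw0 : w = 0 := Subtype.ext this
    apply hr0
    rw [← hw', hw0, map_zero]
  have hUe : U = W := hW.2.2 U hUs hUW hU0
  apply le_antisymm hRT
  rintro _ ⟨w, rfl⟩
  have : (w : EuclideanSpace ℝ ι) ∈ U := by rw [hUe]; exact w.2
  obtain ⟨w', h1, h2⟩ := (hmem _).mp this
  have : w' = w := Subtype.ext h2
  rw [← this]
  exact h1

/-- dimensions of an orthogonal family -/
theorem sum_finrank_ortho (S : Finset (Submodule ℝ (EuclideanSpace ℝ ι)))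
    (hS : ∀ V ∈ S, ∀ W ∈ S, V ≠ W → V ⟂ W) :
    ∑ W ∈ S, finrank ℝ W = finrank ℝ (S.sup id : Submodule ℝ (EuclideanSpace ℝ ι)) := by
  classical
  induction S using Finset.induction_on with
  | empty => rw [Finset.sum_empty, Finset.sup_empty, finrank_bot]
  | insert V S hV ih =>
    rw [Finset.sum_insert hV, ih (fun A hA B hB => hS A (mem_insert_of_mem hA) B
      (mem_insert_of_mem hB)), Finset.sup_insert, id]
    have hort : V ⟂ (S.sup id : Submodule ℝ (EuclideanSpace ℝ ι)) := by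
      rw [Finset.sup_eq_iSup]
      rw [Submodule.isOrtho_iSup_right]
      intro W
      rw [Submodule.isOrtho_iSup_right]
      intro hW
      exact hS V (mem_insert_self _ _) W (mem_insert_of_mem hW) (by
        rintro rfl
        exact hV hW)
    have hinf : V ⊓ (S.sup id : Submodule ℝ (EuclideanSpace ℝ ι)) = ⊥ := hort.disjoint.eq_bot
    have := Submodule.finrank_sup_add_finrank_inf_eq V
      (S.sup id : Submodule ℝ (EuclideanSpace ℝ ι))
    rw [hinf, finrank_bot, add_zero] at this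
    exact this.symm

theorem sum_finrank_le (S : Finset (Submodule ℝ (EuclideanSpace ℝ ι)))
    (hS : ∀ V ∈ S, ∀ W ∈ S, V ≠ W → V ⟂ W) :
    ∑ W ∈ S, finrank ℝ W ≤ Fintype.card ι := by
  rw [sum_finrank_ortho S hS]
  have := Submodule.finrank_le (S.sup id : Submodule ℝ (EuclideanSpace ℝ ι))
  rwa [finrank_euclideanSpace] at this

theorem card_le_of_mini (S : Finset (Submodule ℝ (EuclideanSpace ℝ ι)))
    (hM : ∀ W ∈ S, Mini G W) (hS : ∀ V ∈ S, ∀ W ∈ S, V ≠ W → V ⟂ W) :
    S.card ≤ Fintype.card ι := by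
  refine le_trans ?_ (sum_finrank_le S hS)
  rw [Finset.card_eq_sum_ones]
  apply Finset.sum_le_sum
  intro W hW
  have h := (hM W hW).2.1
  have : 0 < finrank ℝ W := by
    rw [Module.finrank_pos_iff]
    exact Submodule.nontrivial_iff_ne_bot.mpr h
  omega

/-- a maximal orthogonal family -/
theorem exists_max (G : Subgroup (EuclideanSpace ℝ ι ≃ₗᵢ[ℝ] EuclideanSpace ℝ ι)) :
    ∃ S : Finset (Submodule ℝ (EuclideanSpace ℝ ι)), (∀ W ∈ S, Mini G W) ∧
      (∀ V ∈ S, ∀ W ∈ S, V ≠ W → V ⟂ W) ∧ ∀ V, Mini G V → ∃ W ∈ S, ¬ V ⟂ W := by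
  classical
  let P : ℕ → Prop := fun m => ∃ S : Finset (Submodule ℝ (EuclideanSpace ℝ ι)),
    (∀ W ∈ S, Mini G W) ∧ (∀ V ∈ S, ∀ W ∈ S, V ≠ W → V ⟂ W) ∧ S.card = m
  have hP0 : P 0 := ⟨∅, by simp, by simp, rfl⟩
  have hP := Nat.findGreatest_spec (P := P) (Nat.zero_le (Fintype.card ι)) hP0
  obtain ⟨S, h1, h2, h3⟩ := hP
  refine ⟨S, h1, h2, ?_⟩
  intro V hV
  by_contra hcon
  push Not at hcon
  have hVS : V ∉ S := by
    intro hVS
    have := hcon V hVS
    rw [Submodule.isOrtho_self] at this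
    exact hV.2.1 this
  have hnew : P (S.card + 1) := by
    refine ⟨insert V S, ?_, ?_, Finset.card_insert_of_notMem hVS⟩
    · intro W hW
      rcases mem_insert.mp hW with rfl | hW
      · exact hV
      · exact h1 W hW
    · intro A hA B hB hAB
      rcases mem_insert.mp hA with hA | hA
      · rcases mem_insert.mp hB with hB | hB
        · exact absurd (hA.trans hB.symm) hAB
        · rw [hA]
          exact hcon B hB
      · rcases mem_insert.mp hB with hB | hB
        · rw [hB]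
          exact (hcon A hA).symm
        · exact h2 A hA B hB hAB
  have hle : S.card + 1 ≤ Fintype.card ι := by
    obtain ⟨S', g1, g2, g3⟩ := hnew
    rw [← g3]
    exact card_le_of_mini S' g1 g2
  have := Nat.le_findGreatest hle hnew
  rw [← h3] at this
  omega

end fam

theorem family {ι : Type} [Fintype ι] [DecidableEq ι]
    (G : Subgroup (EuclideanSpace ℝ ι ≃ₗᵢ[ℝ] EuclideanSpace ℝ ι))
    (hschur : ∀ (W : Submodule ℝ (EuclideanSpace ℝ ι)), Mini G W →
      ∀ T : W →L[ℝ] EuclideanSpace ℝ ι, T ∈ EqI G W ⊤ → ∀ w : W, ‖T w‖ = ‖T‖ * ‖w‖)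
    (hfour : ∀ (W W' : Submodule ℝ (EuclideanSpace ℝ ι)), Mini G W → Mini G W' →
      finrank ℝ (EqI G W W') ≤ 4) :
    ∃ S : Finset (Submodule ℝ (EuclideanSpace ℝ ι)), (∀ W ∈ S, Mini G W) ∧
      (∑ W ∈ S, finrank ℝ W ≤ Fintype.card ι) ∧
      (∀ V, Mini G V → ∃ W ∈ S, ∃ T ∈ EqI G W ⊤, ‖T‖ = 1 ∧
        ∀ v, v ∈ V ↔ ∃ w : W, T w = v) ∧
      ∀ W ∈ S, finrank ℝ (EqI G W ⊤) * finrank ℝ W ≤ 4 * Fintype.card ι := by
  classical
  obtain ⟨S, hS1, hS2, hS3⟩ := exists_max G
  refine ⟨S, hS1, sum_finrank_le S hS2, ?_, ?_⟩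
  · intro V hV
    obtain ⟨W, hW, hVW⟩ := hS3 V hV
    refine ⟨W, hW, ?_⟩
    set p : W →L[ℝ] EuclideanSpace ℝ ι := V.starProjection.comp W.subtypeL with hp
    have hpm : p ∈ EqI G W V := comp_mem hV.1 (subtype_mem W)
    have hp0 : p ≠ 0 := by
      intro h
      apply hVW
      rw [Submodule.isOrtho_comm]
      intro w hw
      rw [← Submodule.starProjection_apply_eq_zero_iff]
      have := DFunLike.congr_fun h (⟨w, hw⟩ : W)
      simpa [hp] using this
    have hpn : ‖p‖ ≠ 0 := (norm_ne_zero_iff (a := p)).mpr hp0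
    have hTm : ‖p‖⁻¹ • p ∈ EqI G W V := (EqI G W V).smul_mem _ hpm
    refine ⟨‖p‖⁻¹ • p, EqI_mono hTm, ?_, ?_⟩
    · exact nrm p hp0
    · have hT0 : ‖p‖⁻¹ • p ≠ 0 := smul_ne_zero (inv_ne_zero hpn) hp0
      have hr := hV.2.2 _ (range_stable (hS1 W hW) (EqI_mono hTm)) (by
        rintro _ ⟨w, rfl⟩
        exact hTm.2 w) (range_ne_bot hT0)
      intro v
      rw [← hr]
      exact Iff.rfl
  · intro W hW
    have hWm := hS1 W hW
    set S' := S.filter (fun W' => ∃ T ∈ EqI G W W', T ≠ 0) with hS'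
    -- equal dimensions
    have hdim : ∀ W' ∈ S', finrank ℝ W' = finrank ℝ W := by
      intro W' hW'
      obtain ⟨hW'S, T, hT, hT0⟩ := mem_filter.mp hW'
      have hr := (hS1 W' hW'S).2.2 _ (range_stable hWm (EqI_mono hT)) (by
        rintro _ ⟨w, rfl⟩
        exact hT.2 w) (range_ne_bot hT0)
      rw [← hr]
      apply LinearMap.finrank_range_of_inj
      intro w w' hww
      have h1 : T (w - w') = 0 := by
        rw [map_sub, sub_eq_zero]
        exact hww
      have h2 := hschur W hWm T (EqI_mono hT) (w - w')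
      rw [h1, norm_zero] at h2
      have h3 : ‖T‖ ≠ 0 := (norm_ne_zero_iff (a := T)).mpr hT0
      have h4 : ‖w - w'‖ = 0 := by
        rcases mul_eq_zero.mp h2.symm with h | h
        · exact absurd h h3
        · exact h
      exact sub_eq_zero.mp (norm_eq_zero.mp h4)
    have hcard : S'.card * finrank ℝ W ≤ Fintype.card ι := by
      calc S'.card * finrank ℝ W = ∑ W' ∈ S', finrank ℝ W' := by
            rw [Finset.sum_congr rfl hdim, Finset.sum_const, smul_eq_mul]
        _ ≤ ∑ W' ∈ S, finrank ℝ W' := Finset.sum_le_sum_of_subset (filter_subset _ _)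
        _ ≤ Fintype.card ι := sum_finrank_le S hS2
    have hf : finrank ℝ (EqI G W ⊤) ≤ 4 * S'.card := by
      let φ : EqI G W ⊤ →ₗ[ℝ] (∀ W' : S', EqI G W (W' : Submodule ℝ (EuclideanSpace ℝ ι))) :=
        { toFun := fun T W' => ⟨(W' : Submodule ℝ (EuclideanSpace ℝ ι)).starProjection.comp
              (T : W →L[ℝ] EuclideanSpace ℝ ι),
            comp_mem (hS1 _ (mem_filter.mp W'.2).1).1 T.2⟩
          map_add' := by
            intro A B
            funext W'
            apply Subtype.ext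
            ext1 w
            simp
          map_smul' := by
            intro c A
            funext W'
            apply Subtype.ext
            ext1 w
            simp }
      have hkey : ∀ T ∈ EqI G W ⊤, (∀ W' : S',
          (W' : Submodule ℝ (EuclideanSpace ℝ ι)).starProjection.comp T = 0) → T = 0 := by
        intro T hT hk
        by_contra hT0
        obtain ⟨W', hW', hno⟩ := hS3 _ (range_mini hWm hT hT0)
        have hW'm := hS1 W' hW'
        have hne : W'.starProjection.comp T ≠ 0 := by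
          intro h
          apply hno
          rintro _ ⟨w, rfl⟩
          rw [← Submodule.starProjection_apply_eq_zero_iff]
          have := DFunLike.congr_fun h w
          simpa using this
        have hmem : W' ∈ S' := mem_filter.mpr ⟨hW', _, comp_mem hW'm.1 hT, hne⟩
        exact hne (hk ⟨W', hmem⟩)
      have hinj : Function.Injective φ := by
        intro A B hAB
        apply Subtype.ext
        have h7 : (A : W →L[ℝ] EuclideanSpace ℝ ι) - B = 0 := by
          apply hkey _ ((EqI G W ⊤).sub_mem A.2 B.2)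
          intro W'
          have h8 : (W' : Submodule ℝ (EuclideanSpace ℝ ι)).starProjection.comp
              (A : W →L[ℝ] EuclideanSpace ℝ ι) =
              (W' : Submodule ℝ (EuclideanSpace ℝ ι)).starProjection.comp
              (B : W →L[ℝ] EuclideanSpace ℝ ι) := congrArg Subtype.val (congrFun hAB W')
          ext1 w
          have h9 := DFunLike.congr_fun h8 w
          simp only [ContinuousLinearMap.comp_apply] at h9
          simp [h9]
        exact sub_eq_zero.mp h7
      have hfree : ∀ W' : S', Module.Free ℝ (EqI G W (W' : Submodule ℝ (EuclideanSpace ℝ ι))) := by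
        intro W'
        have := Module.Free.of_divisionRing ℝ (EqI G W (W' : Submodule ℝ (EuclideanSpace ℝ ι)))
        exact this
      have h6 := LinearMap.finrank_le_finrank_of_injective hinj
      rw [Module.finrank_pi_fintype] at h6
      refine le_trans h6 ?_
      calc ∑ W' : S', finrank ℝ (EqI G W (W' : Submodule ℝ (EuclideanSpace ℝ ι)))
          ≤ ∑ _W' : S', 4 := Finset.sum_le_sum fun W' _ =>
            hfour W W' hWm (hS1 _ (mem_filter.mp W'.2).1)
        _ = 4 * S'.card := by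
            rw [Finset.sum_const, smul_eq_mul, Finset.card_univ, Fintype.card_coe, mul_comm]
    calc finrank ℝ (EqI G W ⊤) * finrank ℝ W ≤ (4 * S'.card) * finrank ℝ W :=
          Nat.mul_le_mul_right _ hf
      _ = 4 * (S'.card * finrank ℝ W) := by ring
      _ ≤ 4 * Fintype.card ι := Nat.mul_le_mul_left _ hcard

end Pool.Agent.CMV
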