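import Mathlib
import Pool.Agent.CMV.Defs

set_option autoImplicit false

/-!
# Equivariant maps between minimal stable subspaces: dimension at most four
-/

namespace Pool.Agent.CMV

open Finset Module
open scoped BigOperators RealInnerProductSpace

section frob

variable {V : Type} [NormedAddCommGroup V] [InnerProductSpace ℝ V] [FiniteDimensional ℝ V]

/-- the anticommutator functional -/
noncomputable def acf (v0 : V) (a : V →L[ℝ] V) : (V →L[ℝ] V) →ₗ[ℝ] ℝ where
  toFun b := ⟪(a * b + b * a) v0, v0⟫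
  map_add' b b' := by
    have : a * (b + b') + (b + b') * a = (a * b + b * a) + (a * b' + b' * a) := by
      rw [mul_add, add_mul]; abel
    rw [this, add_apply, inner_add_left]
  map_smul' c b := by
    have : a * (c • b) + (c • b) * a = c • (a * b + b * a) := by
      rw [smul_add, mul_smul_comm, smul_mul_assoc]
    rw [this, smul_apply, inner_smul_left]
    simp

omit [FiniteDimensional ℝ V] in
theorem acf_apply (v0 : V) (a b : V →L[ℝ] V) :
    acf v0 a b = ⟪(a * b + b * a) v0, v0⟫ := rfl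

theorem frob_four [Nontrivial V] (D : Submodule ℝ (V →L[ℝ] V))
    (hmul : ∀ a ∈ D, ∀ b ∈ D, a * b ∈ D)
    (hadj : ∀ a ∈ D, ContinuousLinearMap.adjoint a ∈ D)
    (hsc : ∀ a ∈ D, ContinuousLinearMap.adjoint a = a → ∃ c : ℝ, a = c • (1 : V →L[ℝ] V)) :
    finrank ℝ D ≤ 4 := by
  classical
  by_contra hlt
  push Not at hlt
  obtain ⟨v0, hv0⟩ := exists_ne (0 : V)
  have hv0' : ⟪v0, v0⟫ ≠ 0 := by
    intro h
    exact hv0 (inner_self_eq_zero.mp h)
  -- the skew part
  let A : Submodule ℝ (V →L[ℝ] V) :=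
    { carrier := {a | a ∈ D ∧ ContinuousLinearMap.adjoint a = -a}
      add_mem' := by
        rintro a b ⟨ha, ha'⟩ ⟨hb, hb'⟩
        refine ⟨D.add_mem ha hb, ?_⟩
        rw [map_add, ha', hb', neg_add]
      zero_mem' := by
        refine ⟨D.zero_mem, ?_⟩
        simp
      smul_mem' := by
        rintro c a ⟨ha, ha'⟩
        refine ⟨D.smul_mem c ha, ?_⟩
        rw [map_smulₛₗ, ha', smul_neg]
        simp }
  have hA : ∀ a, a ∈ A ↔ a ∈ D ∧ ContinuousLinearMap.adjoint a = -a := fun a => Iff.rfl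
  have hDA : D ≤ A ⊔ Submodule.span ℝ {(1 : V →L[ℝ] V)} := by
    intro a ha
    have h1 : (1 / 2 : ℝ) • (a + ContinuousLinearMap.adjoint a) ∈ D :=
      D.smul_mem _ (D.add_mem ha (hadj a ha))
    have h2 : (1 / 2 : ℝ) • (a - ContinuousLinearMap.adjoint a) ∈ A := by
      rw [hA]
      refine ⟨D.smul_mem _ (D.sub_mem ha (hadj a ha)), ?_⟩
      rw [map_smulₛₗ, map_sub, ContinuousLinearMap.adjoint_adjoint, ← smul_neg, neg_sub]
      simp
    obtain ⟨c, hc⟩ := hsc _ h1 (by
      rw [map_smulₛₗ, map_add, ContinuousLinearMap.adjoint_adjoint, add_comm]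
      simp)
    have h3 : a = (1 / 2 : ℝ) • (a - ContinuousLinearMap.adjoint a) + c • (1 : V →L[ℝ] V) := by
      rw [← hc, ← smul_add]
      have : a - ContinuousLinearMap.adjoint a + (a + ContinuousLinearMap.adjoint a)
          = (2 : ℝ) • a := by
        rw [two_smul]; abel
      rw [this, smul_smul]
      norm_num
    rw [h3]
    exact Submodule.add_mem_sup h2 (Submodule.smul_mem _ _ (Submodule.mem_span_singleton_self _))
  have hA4 : 4 ≤ finrank ℝ A := by
    have h1 := Submodule.finrank_mono hDA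
    have h2 := Submodule.finrank_add_le_finrank_add_finrank A
      (Submodule.span ℝ {(1 : V →L[ℝ] V)})
    have h3 : finrank ℝ (Submodule.span ℝ {(1 : V →L[ℝ] V)}) ≤ 1 := by
      have := finrank_span_le_card (R := ℝ) ({(1 : V →L[ℝ] V)} : Set (V →L[ℝ] V))
      simpa using this
    omega
  -- anticommutators are scalars
  have hac : ∀ a ∈ A, ∀ b ∈ A, acf v0 a b = 0 → a * b + b * a = 0 := by
    intro a ha b hb h
    rw [hA] at ha hb
    have hmem : a * b + b * a ∈ D :=
      D.add_mem (hmul a ha.1 b hb.1) (hmul b hb.1 a ha.1)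
    obtain ⟨c, hc⟩ := hsc _ hmem (by
      rw [map_add]
      have e1 : ContinuousLinearMap.adjoint (a * b)
          = ContinuousLinearMap.adjoint b * ContinuousLinearMap.adjoint a :=
        ContinuousLinearMap.adjoint_comp a b
      have e2 : ContinuousLinearMap.adjoint (b * a)
          = ContinuousLinearMap.adjoint a * ContinuousLinearMap.adjoint b :=
        ContinuousLinearMap.adjoint_comp b a
      rw [e1, e2, ha.2, hb.2, neg_mul_neg, neg_mul_neg, add_comm])
    rw [acf_apply, hc] at h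
    have h' : c * ⟪v0, v0⟫ = 0 := by
      have : ((c • (1 : V →L[ℝ] V)) v0 : V) = c • v0 := by simp
      rw [this, inner_smul_left] at h
      simpa using h
    rcases mul_eq_zero.mp h' with h0 | h0
    · rw [hc, h0, zero_smul]
    · exact absurd h0 hv0'
  -- squares
  have hsq : ∀ a ∈ A, a ≠ 0 → ∃ c : ℝ, c ≠ 0 ∧ a * a = c • (1 : V →L[ℝ] V) := by
    intro a ha ha0
    have ha' := (hA a).1 ha
    obtain ⟨c, hc⟩ := hsc _ (hmul a ha'.1 a ha'.1) (by
      have e1 : ContinuousLinearMap.adjoint (a * a)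
          = ContinuousLinearMap.adjoint a * ContinuousLinearMap.adjoint a :=
        ContinuousLinearMap.adjoint_comp a a
      rw [e1, ha'.2, neg_mul_neg])
    refine ⟨c, ?_, hc⟩
    intro hc0
    apply ha0
    ext v
    have h1 : ⟪a v, a v⟫ = 0 := by
      have h2 : ⟪ContinuousLinearMap.adjoint a (a v), v⟫ = ⟪a v, a v⟫ :=
        ContinuousLinearMap.adjoint_inner_left a v (a v)
      rw [← h2, ha'.2]
      have h3 : (-a) (a v) = -((a * a) v) := by simp
      rw [h3, hc, hc0, zero_smul]
      simp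
    simpa using inner_self_eq_zero.mp h1
  have hnz : ∀ a ∈ A, ∀ b : V →L[ℝ] V, a ≠ 0 → a * b = 0 → b = 0 := by
    intro a ha b ha0 hab
    obtain ⟨c, hc, hcc⟩ := hsq a ha ha0
    have h1 : a * (a * b) = 0 := by rw [hab, mul_zero]
    rw [← mul_assoc, hcc, smul_mul_assoc, one_mul] at h1
    exact (smul_eq_zero.mp h1).resolve_left hc
  -- choose i
  have hApos : 0 < finrank ℝ A := by omega
  obtain ⟨i', hi'⟩ : ∃ x : A, x ≠ 0 := by
    have : Nontrivial A := Module.nontrivial_of_finrank_pos hApos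
    exact exists_ne 0
  obtain ⟨i, hi⟩ := i'
  have hi0 : i ≠ 0 := fun h => hi' (Subtype.ext h)
  -- choose j
  have hex : ∀ a b c : V →L[ℝ] V, ∃ l ∈ A, l ≠ 0 ∧ acf v0 a l = 0 ∧ acf v0 b l = 0 ∧
      acf v0 c l = 0 := by
    intro a b c
    let L : A →ₗ[ℝ] (ℝ × ℝ × ℝ) :=
      ((acf v0 a).prod ((acf v0 b).prod (acf v0 c))).comp A.subtype
    have hL : LinearMap.ker L ≠ ⊥ := by
      apply LinearMap.ker_ne_bot_of_finrank_lt
      have : finrank ℝ (ℝ × ℝ × ℝ) = 3 := by simp
      omega
    obtain ⟨x, hx, hx0⟩ := (Submodule.ne_bot_iff _).1 hL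
    have hx1 : L x = 0 := hx
    have hx2 : acf v0 a x = 0 ∧ acf v0 b x = 0 ∧ acf v0 c x = 0 := by
      have : ((acf v0 a x : ℝ), (acf v0 b x : ℝ), (acf v0 c x : ℝ)) = (0, 0, 0) := hx1
      simpa using this
    exact ⟨x, x.2, fun h => hx0 (Subtype.ext h), hx2.1, hx2.2.1, hx2.2.2⟩
  obtain ⟨j, hj, hj0, hij, -, -⟩ := hex i i i
  have hij' : i * j + j * i = 0 := hac i hi j hj hij
  have hk : i * j ∈ A := by
    have hi1 := (hA i).1 hi
    have hj1 := (hA j).1 hj
    rw [hA]
    refine ⟨hmul i hi1.1 j hj1.1, ?_⟩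
    have e1 : ContinuousLinearMap.adjoint (i * j)
        = ContinuousLinearMap.adjoint j * ContinuousLinearMap.adjoint i :=
      ContinuousLinearMap.adjoint_comp i j
    rw [e1, hi1.2, hj1.2, neg_mul_neg]
    exact eq_neg_of_add_eq_zero_right hij'
  obtain ⟨l, hl, hl0, hil, hjl, hkl⟩ := hex i j (i * j)
  have h1 := hac i hi l hl hil
  have h2 := hac j hj l hl hjl
  have h3 := hac _ hk l hl hkl
  have h4 : l * i = - (i * l) := eq_neg_of_add_eq_zero_right h1
  have h5 : l * j = - (j * l) := eq_neg_of_add_eq_zero_right h2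
  have h6 : l * (i * j) = i * j * l := by
    calc l * (i * j) = (l * i) * j := by rw [mul_assoc]
      _ = - (i * l) * j := by rw [h4]
      _ = - (i * (l * j)) := by rw [neg_mul, mul_assoc]
      _ = i * j * l := by rw [h5, mul_neg, neg_neg, mul_assoc]
  rw [h6] at h3
  have h7 : i * j * l = 0 := by
    have : (2 : ℝ) • (i * j * l) = 0 := by rw [two_smul]; exact h3
    exact (smul_eq_zero.mp this).resolve_left (by norm_num)
  have h8 : i * (j * l) = 0 := by rw [← mul_assoc]; exact h7
  have h9 := hnz i hi _ hi0 h8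
  exact hl0 (hnz j hj _ hj0 h9)

end frob

section equi

variable {ι : Type} [Fintype ι] [DecidableEq ι]

/-- equivariant endomorphisms of a subspace -/
def EqD (G : Subgroup (EuclideanSpace ℝ ι ≃ₗᵢ[ℝ] EuclideanSpace ℝ ι))
    (W : Submodule ℝ (EuclideanSpace ℝ ι)) : Submodule ℝ (W →L[ℝ] W) where
  carrier := {T | ∀ g ∈ G, ∀ w w' : W, (w' : EuclideanSpace ℝ ι) = g w →
    (T w' : EuclideanSpace ℝ ι) = g (T w)}
  add_mem' := by
    intro S T hS hT g hg w w' h
    rw [add_apply, add_apply, Submodule.coe_add, Submodule.coe_add, map_add,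
      hS g hg w w' h, hT g hg w w' h]
  zero_mem' := by
    intro g _ w w' _
    simp
  smul_mem' := by
    intro c T hT g hg w w' h
    rw [smul_apply, smul_apply, Submodule.coe_smul, Submodule.coe_smul, map_smul,
      hT g hg w w' h]

omit [DecidableEq ι] in
theorem adj_equiv (G : Subgroup (EuclideanSpace ℝ ι ≃ₗᵢ[ℝ] EuclideanSpace ℝ ι))
    (W : Submodule ℝ (EuclideanSpace ℝ ι)) (hW : Stable G W)
    (T : W →L[ℝ] EuclideanSpace ℝ ι)
    (hT : ∀ g ∈ G, ∀ w w' : W, (w' : EuclideanSpace ℝ ι) = g w → T w' = g (T w))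
    (g : EuclideanSpace ℝ ι ≃ₗᵢ[ℝ] EuclideanSpace ℝ ι) (hg : g ∈ G) (x : EuclideanSpace ℝ ι) :
    (ContinuousLinearMap.adjoint T (g x) : EuclideanSpace ℝ ι)
      = g (ContinuousLinearMap.adjoint T x) := by
  have hmem : g (ContinuousLinearMap.adjoint T x : W) ∈ W :=
    hW g hg _ (ContinuousLinearMap.adjoint T x).2
  have key : ContinuousLinearMap.adjoint T (g x)
      = (⟨g (ContinuousLinearMap.adjoint T x : W), hmem⟩ : W) := by
    apply ext_inner_right ℝ
    intro v
    have hv : g⁻¹ (v : EuclideanSpace ℝ ι) ∈ W := hW g⁻¹ (G.inv_mem hg) _ v.2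
    have hgv : (v : EuclideanSpace ℝ ι) = g ((⟨g⁻¹ (v : EuclideanSpace ℝ ι), hv⟩ : W) :
        EuclideanSpace ℝ ι) := by
      have : g (g⁻¹ (v : EuclideanSpace ℝ ι)) = (g * g⁻¹) (v : EuclideanSpace ℝ ι) := rfl
      simp only [this, mul_inv_cancel]
      rfl
    rw [ContinuousLinearMap.adjoint_inner_left]
    rw [hT g hg _ v hgv, LinearIsometryEquiv.inner_map_map,
      ← ContinuousLinearMap.adjoint_inner_left T, Submodule.coe_inner, Submodule.coe_inner]
    conv_rhs => rw [hgv]
    exact (LinearIsometryEquiv.inner_map_map g _ _).symm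
  rw [key]

theorem finrank_EqI_four (G : Subgroup (EuclideanSpace ℝ ι ≃ₗᵢ[ℝ] EuclideanSpace ℝ ι))
    (W W' : Submodule ℝ (EuclideanSpace ℝ ι)) (hW : Mini G W) (hW' : Mini G W') :
    finrank ℝ (EqI G W W') ≤ 4 := by
  by_cases hbot : EqI G W W' = ⊥
  · rw [hbot]; simp
  obtain ⟨T0, hT0, hT0n⟩ := (Submodule.ne_bot_iff _).1 hbot
  obtain ⟨hWs, hWn, hWm⟩ := hW
  have hnt : Nontrivial W := (Submodule.nontrivial_iff_ne_bot).2 hWn
  have hD4 : finrank ℝ (EqD G W) ≤ 4 := by
    apply frob_four
    · intro S hS T hT g hg w w' h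
      exact hS g hg (T w) (T w') (hT g hg w w' h)
    · intro T hT g hg w w' h
      have h1 : ∀ g ∈ G, ∀ w w' : W, (w' : EuclideanSpace ℝ ι) = g w →
          (W.subtypeL.comp T) w' = g ((W.subtypeL.comp T) w) := by
        intro g hg w w' h
        exact hT g hg w w' h
      have h2 := adj_equiv G W hWs (W.subtypeL.comp T) h1 g hg w
      have h3 : ∀ y : W, ContinuousLinearMap.adjoint (W.subtypeL.comp T)
          (y : EuclideanSpace ℝ ι) = ContinuousLinearMap.adjoint T y := by
        intro y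
        apply ext_inner_right ℝ
        intro v
        rw [ContinuousLinearMap.adjoint_inner_left, ContinuousLinearMap.adjoint_inner_left]
        rfl
      rw [← h, h3, h3] at h2
      exact h2
    · intro T hT hself
      have hsym : (T : W →ₗ[ℝ] W).IsSymmetric := by
        intro x y
        have := ContinuousLinearMap.adjoint_inner_left T y x
        rw [hself] at this
        exact this
      have hev := hsym.hasEigenvalue_iSup_of_finiteDimensional
      set c : ℝ := _ with hc
      change Module.End.HasEigenvalue (T : W →ₗ[ℝ] W) c at hev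
      obtain ⟨u, hu⟩ := hev.exists_hasEigenvector
      have hst : Stable G ((Module.End.eigenspace (T : W →ₗ[ℝ] W) c).map W.subtype) := by
        intro g hg x hx
        obtain ⟨y, hy, rfl⟩ := Submodule.mem_map.1 hx
        refine Submodule.mem_map.2 ⟨⟨g y, hWs g hg _ y.2⟩, ?_, rfl⟩
        rw [Module.End.mem_eigenspace_iff] at hy ⊢
        apply Subtype.ext
        have h1 := hT g hg y ⟨g y, hWs g hg _ y.2⟩ rfl
        have hy' : T y = c • y := hy
        rw [hy'] at h1
        rw [Submodule.coe_smul]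
        refine h1.trans ?_
        rw [Submodule.coe_smul, map_smul]
      have hall := hWm _ hst (Submodule.map_subtype_le _ _) (by
        intro hb
        have : (u : EuclideanSpace ℝ ι) ∈ (⊥ : Submodule ℝ (EuclideanSpace ℝ ι)) := by
          rw [← hb]
          exact Submodule.mem_map.2 ⟨u, hu.1, rfl⟩
        exact hu.2 (Subtype.ext ((Submodule.mem_bot ℝ).1 this)))
      refine ⟨c, ?_⟩
      ext1 w
      have hw : (w : EuclideanSpace ℝ ι) ∈
          (Module.End.eigenspace (T : W →ₗ[ℝ] W) c).map W.subtype := by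
        rw [hall]; exact w.2
      obtain ⟨y, hy, hyw⟩ := Submodule.mem_map.1 hw
      have hyw' : y = w := Subtype.ext hyw
      rw [hyw'] at hy
      have := Module.End.mem_eigenspace_iff.1 hy
      simpa using this
  refine le_trans ?_ hD4
  let L : EqI G W W' →ₗ[ℝ] EqD G W :=
    { toFun := fun T => ⟨(ContinuousLinearMap.adjoint T0).comp T.1, by
        intro g hg w w' h
        have h1 : T.1 w' = g (T.1 w) := T.2.1 g hg w w' h
        change (ContinuousLinearMap.adjoint T0 (T.1 w') : EuclideanSpace ℝ ι)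
          = g (ContinuousLinearMap.adjoint T0 (T.1 w))
        rw [h1]
        exact adj_equiv G W hWs T0 hT0.1 g hg _⟩
      map_add' := by
        intro S T
        apply Subtype.ext
        ext1 w
        simp
      map_smul' := by
        intro c T
        apply Subtype.ext
        ext1 w
        simp }
  apply LinearMap.finrank_le_finrank_of_injective (f := L)
  suffices hker : ∀ T, L T = 0 → T = 0 by
    intro x y hxy
    have h1 : L (x - y) = 0 := by
      have h2 : L (x - y) = L x - L y := by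
        apply Subtype.ext
        ext1 w
        simp [L]
      rw [h2, hxy]
      apply Subtype.ext
      exact sub_self (L y).1
    exact sub_eq_zero.1 (hker _ h1)
  intro T hT
  by_contra hTn
  have hTn' : T.1 ≠ 0 := fun h => hTn (Subtype.ext h)
  have hz : ∀ w, ContinuousLinearMap.adjoint T0 (T.1 w) = 0 := by
    intro w
    have := congrArg (fun S : EqD G W => S.1 w) hT
    simpa [L] using this
  have hrs : Stable G (LinearMap.range (T.1 : W →ₗ[ℝ] EuclideanSpace ℝ ι)) := by
    intro g hg x hx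
    obtain ⟨y, rfl⟩ := LinearMap.mem_range.1 hx
    refine LinearMap.mem_range.2 ⟨⟨g y, hWs g hg _ y.2⟩, ?_⟩
    exact T.2.1 g hg y ⟨g y, hWs g hg _ y.2⟩ rfl
  have hall := hW'.2.2 _ hrs (by
    intro x hx
    obtain ⟨y, rfl⟩ := LinearMap.mem_range.1 hx
    exact T.2.2 y) (by
    intro hb
    apply hTn'
    ext1 w
    have : (T.1 : W →ₗ[ℝ] EuclideanSpace ℝ ι) w ∈
        LinearMap.range (T.1 : W →ₗ[ℝ] EuclideanSpace ℝ ι) := LinearMap.mem_range_self _ w
    rw [hb] at this
    simpa using this)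
  apply hT0n
  ext1 w
  have h1 : T0 w ∈ LinearMap.range (T.1 : W →ₗ[ℝ] EuclideanSpace ℝ ι) := by
    rw [hall]; exact hT0.2 w
  obtain ⟨u, hu⟩ := LinearMap.mem_range.1 h1
  have hu' : T.1 u = T0 w := hu
  have h2 : ⟪T0 w, T0 w⟫ = 0 := by
    rw [← ContinuousLinearMap.adjoint_inner_left T0 w (T0 w), ← hu', hz u, inner_zero_left]
  simpa using inner_self_eq_zero.mp h2

end equi

end Pool.Agent.CMV
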