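import Mathlib
import Pool.Agent.CMV.Defs

set_option autoImplicit false

/-!
# CMV-NET: nets of the unit sphere
-/

namespace Pool.Agent.CMV

open Finset Module MeasureTheory Metric
open scoped BigOperators ENNReal

namespace NET_

theorem pow_sub_le {a b : ℝ} (hb : 0 ≤ b) (ha : 0 < a) (f : ℕ) (hf : 1 ≤ f) :
    a ^ f - b ^ f ≤ f * (a - b) * a ^ (f - 1) := by
  obtain ⟨g, rfl⟩ : ∃ g, f = g + 1 := ⟨f - 1, by omega⟩
  have h1 : -2 ≤ -((a - b) / a) := by
    have : (a - b) / a ≤ 1 := by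
      rw [div_le_one ha]
      linarith
    linarith
  have h2 := one_add_mul_le_pow h1 (g + 1)
  have h3 : 1 + -((a - b) / a) = b / a := by
    field_simp
    ring
  rw [h3, div_pow] at h2
  have h4 : 0 < a ^ (g + 1) := by positivity
  rw [le_div_iff₀ h4] at h2
  have h5 : (1 + ((g + 1 : ℕ) : ℝ) * -((a - b) / a)) * a ^ (g + 1) =
      a ^ (g + 1) - ((g + 1 : ℕ) : ℝ) * (a - b) * a ^ g := by
    field_simp
    ring
  rw [h5] at h2
  simp only [Nat.add_sub_cancel]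
  linarith

theorem card_le (E : Type) [NormedAddCommGroup E] [NormedSpace ℝ E] [FiniteDimensional ℝ E]
    (f : ℕ) (hf : finrank ℝ E = f) (hf1 : 1 ≤ f) (η : ℝ) (hη : 0 < η) (hη1 : η ≤ 1)
    (s : Finset E) (hs : ∀ c ∈ s, ‖c‖ = 1) (h : ∀ c ∈ s, ∀ d ∈ s, c ≠ d → η ≤ ‖c - d‖) :
    (s.card : ℝ) ≤ 2 * f * (1 + 2 / η) ^ (f - 1) := by
  borelize E
  let μ : Measure E := Measure.addHaar
  set δ : ℝ := η / 2 with hδ
  have δpos : 0 < δ := by positivity
  set A := ⋃ c ∈ s, ball (c : E) δ with hA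
  have D : Set.Pairwise (s : Set E) (Function.onFun Disjoint fun c => ball (c : E) δ) := by
    rintro c hc d hd hcd
    apply ball_disjoint_ball
    rw [dist_eq_norm]
    have := h c hc d hd hcd
    linarith
  have A_meas : MeasurableSet A :=
    s.measurableSet_biUnion (fun c _ => measurableSet_ball)
  have hdis : Disjoint A (ball (0 : E) (1 - δ)) := by
    rw [Set.disjoint_left]
    intro y hy hy0
    rw [hA, Set.mem_iUnion₂] at hy
    obtain ⟨c, hc, hyc⟩ := hy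
    rw [mem_ball, dist_zero_right] at hy0
    rw [mem_ball, dist_eq_norm] at hyc
    have h1 : ‖c‖ ≤ ‖y‖ + ‖y - c‖ := by
      calc ‖c‖ = ‖y - (y - c)‖ := by rw [sub_sub_cancel]
        _ ≤ _ := norm_sub_le _ _
    rw [hs c hc] at h1
    linarith
  have hsub : A ∪ ball (0 : E) (1 - δ) ⊆ ball (0 : E) (1 + δ) := by
    intro y hy
    rw [mem_ball, dist_zero_right]
    rcases hy with hy | hy
    · rw [hA, Set.mem_iUnion₂] at hy
      obtain ⟨c, hc, hyc⟩ := hy
      rw [mem_ball, dist_eq_norm] at hyc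
      have h1 : ‖y‖ ≤ ‖c‖ + ‖y - c‖ := by
        calc ‖y‖ = ‖c + (y - c)‖ := by rw [add_sub_cancel]
          _ ≤ _ := norm_add_le _ _
      rw [hs c hc] at h1
      linarith
    · rw [mem_ball, dist_zero_right] at hy
      linarith
  have hpos1 : (0 : ℝ) < 1 - δ := by linarith
  have hpos2 : (0 : ℝ) < 1 + δ := by linarith
  have I : ((s.card : ℝ≥0∞) * ENNReal.ofReal (δ ^ finrank ℝ E) +
      ENNReal.ofReal ((1 - δ) ^ finrank ℝ E)) * μ (ball 0 1) ≤
      ENNReal.ofReal ((1 + δ) ^ finrank ℝ E) * μ (ball 0 1) :=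
    calc
      ((s.card : ℝ≥0∞) * ENNReal.ofReal (δ ^ finrank ℝ E) +
        ENNReal.ofReal ((1 - δ) ^ finrank ℝ E)) * μ (ball 0 1) =
        μ A + μ (ball (0 : E) (1 - δ)) := by
        rw [hA, measure_biUnion_finset D fun c _ => measurableSet_ball]
        simp only [μ.addHaar_ball_of_pos _ δpos, μ.addHaar_ball_of_pos _ hpos1]
        simp only [Finset.sum_const, nsmul_eq_mul, add_mul, mul_assoc]
      _ = μ (A ∪ ball (0 : E) (1 - δ)) :=
        (measure_union hdis measurableSet_ball).symm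
      _ ≤ μ (ball (0 : E) (1 + δ)) := measure_mono hsub
      _ = ENNReal.ofReal ((1 + δ) ^ finrank ℝ E) * μ (ball 0 1) := by
        simp only [μ.addHaar_ball_of_pos _ hpos2]
  have J : (s.card : ℝ≥0∞) * ENNReal.ofReal (δ ^ finrank ℝ E) +
      ENNReal.ofReal ((1 - δ) ^ finrank ℝ E) ≤ ENNReal.ofReal ((1 + δ) ^ finrank ℝ E) :=
    (ENNReal.mul_le_mul_iff_left (measure_ball_pos _ _ zero_lt_one).ne' measure_ball_lt_top.ne).1 I
  have K : (s.card : ℝ) * δ ^ f + (1 - δ) ^ f ≤ (1 + δ) ^ f := by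
    have h1 := ENNReal.toReal_le_of_le_ofReal (pow_nonneg hpos2.le _) J
    rw [hf] at h1
    rw [ENNReal.toReal_add (ENNReal.mul_ne_top (ENNReal.natCast_ne_top _) ENNReal.ofReal_ne_top)
      ENNReal.ofReal_ne_top, ENNReal.toReal_mul, ENNReal.toReal_natCast,
      ENNReal.toReal_ofReal (by positivity), ENNReal.toReal_ofReal (by positivity)] at h1
    exact h1
  have K2 := pow_sub_le hpos1.le hpos2 f hf1
  have K3 : (s.card : ℝ) * δ ^ f ≤ f * (2 * δ) * (1 + δ) ^ (f - 1) := by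
    have e : 1 + δ - (1 - δ) = 2 * δ := by ring
    rw [e] at K2
    linarith
  obtain ⟨g, rfl⟩ : ∃ g, f = g + 1 := ⟨f - 1, by omega⟩
  simp only [Nat.add_sub_cancel] at K3 ⊢
  have K4 : (s.card : ℝ) * δ ^ g ≤ ((g + 1 : ℕ) : ℝ) * 2 * (1 + δ) ^ g := by
    have h1 : ((s.card : ℝ) * δ ^ g) * δ ≤ (((g + 1 : ℕ) : ℝ) * 2 * (1 + δ) ^ g) * δ := by
      rw [pow_succ] at K3
      linarith
    exact le_of_mul_le_mul_right h1 δpos
  have K5 : (1 + 2 / η) ^ g = (1 + δ) ^ g / δ ^ g := by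
    rw [← div_pow]
    congr 1
    rw [hδ]
    field_simp
    ring
  rw [K5, mul_div_assoc', le_div_iff₀ (by positivity)]
  linarith

end NET_

theorem net (E : Type) [NormedAddCommGroup E] [NormedSpace ℝ E] [FiniteDimensional ℝ E]
    (f : ℕ) (hf : finrank ℝ E = f) (hf1 : 1 ≤ f) (η : ℝ) (hη : 0 < η) (hη1 : η ≤ 1) :
    ∃ N : Finset E, (∀ T ∈ N, ‖T‖ = 1) ∧ (∀ T, ‖T‖ = 1 → ∃ T' ∈ N, ‖T - T'‖ ≤ η) ∧
      (N.card : ℝ) ≤ 2 * f * (1 + 2 / η) ^ (f - 1) := by
  classical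
  have hb := NET_.card_le E f hf hf1 η hη hη1
  set P : ℕ → Prop := fun n => ∃ s : Finset E, (∀ c ∈ s, ‖c‖ = 1) ∧
    (∀ c ∈ s, ∀ d ∈ s, c ≠ d → η ≤ ‖c - d‖) ∧ s.card = n with hP
  set K : ℕ := ⌊2 * f * (1 + 2 / η) ^ (f - 1)⌋₊ with hK
  have hPK : ∀ n, P n → n ≤ K := by
    rintro n ⟨s, h1, h2, rfl⟩
    exact Nat.le_floor (hb s h1 h2)
  have h0 : P 0 := ⟨∅, by simp, by simp, rfl⟩
  have hspec : P (Nat.findGreatest P K) := Nat.findGreatest_spec (Nat.zero_le K) h0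
  obtain ⟨N, h1, h2, h3⟩ := hspec
  refine ⟨N, h1, fun T hT => ?_, hb N h1 h2⟩
  by_contra hc
  push Not at hc
  have hTN : T ∉ N := by
    intro hTN
    have := hc T hTN
    rw [sub_self, norm_zero] at this
    linarith
  have hP1 : P (N.card + 1) := by
    refine ⟨insert T N, ?_, ?_, Finset.card_insert_of_notMem hTN⟩
    · intro c hc'
      rcases Finset.mem_insert.mp hc' with rfl | hc'
      · exact hT
      · exact h1 c hc'
    · intro c hcm d hdm hcd
      rcases Finset.mem_insert.mp hcm with hc1 | hc1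
      · rcases Finset.mem_insert.mp hdm with hd1 | hd1
        · exact absurd (hc1.trans hd1.symm) hcd
        · rw [hc1]
          exact (hc d hd1).le
      · rcases Finset.mem_insert.mp hdm with hd1 | hd1
        · rw [hd1, norm_sub_rev]
          exact (hc c hc1).le
        · exact h2 c hc1 d hd1 hcd
  have h4 := Nat.le_findGreatest (hPK _ hP1) hP1
  omega

end Pool.Agent.CMV
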