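import Pool.Agent.CMV.Defs

set_option autoImplicit false

/-!
# Real inequalities for the weights
-/

namespace Pool.Agent.CMV

open Finset
open scoped BigOperators

theorem div_pos_aux {b s : ℕ} (hs : 1 ≤ s) (h : 2 * s ≤ b) : 1 ≤ b / (2 * s) := by
  rw [Nat.le_div_iff_mul_le (by omega)]
  omega

theorem wt_step (h1 : ∀ q : ℕ, 1 ≤ q → cq q ≤ 1 / 2) (h3 : ∀ q : ℕ, 0 < cq q) (b s f k : ℕ)
    (hs : 1 ≤ s) (hk : 3 ≤ k) : wt b s f k ≤ wt b s f 3 * (11 / 20) ^ (k - 3) := by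
  obtain ⟨j, rfl⟩ : ∃ j, k = 3 + j := ⟨k - 3, by omega⟩
  rw [Nat.add_sub_cancel_left]
  unfold wt
  split_ifs with h
  · have hq := div_pos_aux hs h
    have h0 := h3 (b / (2 * s))
    have h4 := h1 _ hq
    rw [pow_add, ← mul_assoc]
    apply mul_le_mul_of_nonneg_left _ (by positivity)
    apply pow_le_pow_left₀ (by positivity)
    calc (21 / 20 * cq (b / (2 * s))) ^ s ≤ (21 / 20 * cq (b / (2 * s))) ^ 1 :=
          pow_le_pow_of_le_one (by positivity) (by linarith) hs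
      _ ≤ 11 / 20 := by rw [pow_one]; linarith
  · rw [pow_add]
    apply mul_le_mul_of_nonneg_left _ (by positivity)
    apply pow_le_pow_left₀ (by positivity)
    calc (1 / 2 : ℝ) ^ s ≤ (1 / 2) ^ 1 := pow_le_pow_of_le_one (by norm_num) (by norm_num) hs
      _ ≤ 11 / 20 := by norm_num

theorem nat_aux1 (s : ℕ) : ((s : ℝ)) ^ 2 * (1 / 2) ^ s ≤ 2 := by
  have h : s ^ 2 ≤ 2 * 2 ^ s := by
    induction s with
    | zero => norm_num
    | succ n ih =>
      rcases Nat.lt_or_ge n 3 with h | h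
      · interval_cases n <;> norm_num
      · have h1 : (n + 1) ^ 2 ≤ 2 * n ^ 2 := by nlinarith
        calc (n + 1) ^ 2 ≤ 2 * n ^ 2 := h1
          _ ≤ 2 * (2 * 2 ^ n) := Nat.mul_le_mul_left _ ih
          _ = 2 * 2 ^ (n + 1) := by ring
  have h2 : ((s : ℝ)) ^ 2 ≤ 2 * 2 ^ s := by exact_mod_cast h
  rw [one_div, inv_pow, ← div_eq_mul_inv, div_le_iff₀ (by positivity)]
  exact h2

theorem nat_aux2 (s : ℕ) : (s : ℝ) * (1 / 2) ^ s ≤ 1 := by
  have h : s ≤ 2 ^ s := Nat.lt_two_pow_self.le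
  have h2 : (s : ℝ) ≤ 2 ^ s := by exact_mod_cast h
  rw [one_div, inv_pow, ← div_eq_mul_inv, div_le_iff₀ (by positivity), one_mul]
  exact h2

theorem numeric (h1 : ∀ q : ℕ, 1 ≤ q → cq q ≤ 1 / 2) (h2 : ∀ q : ℕ, cq q ^ 2 * (2 * q + 1) ≤ 1)
    (h3 : ∀ q : ℕ, 0 < cq q) :
    ∃ C : ℝ, 0 < C ∧ ∀ b s f : ℕ, 1 ≤ s → s ≤ b → f ≤ s → f * s ≤ 4 * b →
      wt b s f 3 ≤ C * s / (b * √b) := by
  obtain ⟨J, hJ⟩ : ∃ J : ℕ, J = 2 * 9268 ^ 2 := ⟨_, rfl⟩
  have hJ0 : 0 < (J : ℝ) := by rw [hJ]; norm_num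
  obtain ⟨K, hK⟩ : ∃ K : ℝ, K = 2 * (4 * J) * (1 + 2000 * J) ^ (4 * J) := ⟨_, rfl⟩
  have hK0 : 0 < K := by rw [hK]; positivity
  refine ⟨40 + K * J ^ 2, by positivity, ?_⟩
  intro b s f hs hsb hfs hfb
  have hs' : (1 : ℝ) ≤ s := by exact_mod_cast hs
  have hb' : (1 : ℝ) ≤ b := by exact_mod_cast hs.trans hsb
  have hfs' : (f : ℝ) ≤ s := by exact_mod_cast hfs
  have hbr : √(b : ℝ) ≤ b := by
    rw [Real.sqrt_le_left (by linarith)]
    nlinarith
  have hb0 : 0 < √(b : ℝ) := Real.sqrt_pos.mpr (by linarith)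
  rw [le_div_iff₀ (by positivity)]
  have hbb : (b : ℝ) * √b ≤ b ^ 2 := by
    rw [sq]
    exact mul_le_mul_of_nonneg_left hbr (by linarith)
  unfold wt
  split_ifs with h
  · have hq := div_pos_aux hs h
    obtain ⟨c, hc⟩ : ∃ c, c = cq (b / (2 * s)) := ⟨_, rfl⟩
    rw [← hc]
    have c0 : 0 < c := hc ▸ h3 _
    have c1 : c ≤ 1 / 2 := hc ▸ h1 _ hq
    have hq1 : (b : ℝ) ≤ 2 * s * (2 * ((b / (2 * s) : ℕ) : ℝ) + 1) := by
      have h5 : b < 2 * s * (b / (2 * s)) + 2 * s := by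
        have h6 := Nat.div_add_mod b (2 * s)
        have h7 := Nat.mod_lt b (show 0 < 2 * s by omega)
        omega
      have h8 : (b : ℝ) ≤ 2 * s * ((b / (2 * s) : ℕ) : ℝ) + 2 * s := by exact_mod_cast h5.le
      have h9 : (0 : ℝ) ≤ 2 * s * ((b / (2 * s) : ℕ) : ℝ) := by positivity
      linarith
    have c2 : c ^ 2 * b ≤ 2 * s := by
      have h5 := h2 (b / (2 * s))
      rw [← hc] at h5
      calc c ^ 2 * b ≤ c ^ 2 * (2 * s * (2 * ((b / (2 * s) : ℕ) : ℝ) + 1)) :=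
            mul_le_mul_of_nonneg_left hq1 (by positivity)
        _ = 2 * s * (c ^ 2 * (2 * ((b / (2 * s) : ℕ) : ℝ) + 1)) := by ring
        _ ≤ 2 * s * 1 := mul_le_mul_of_nonneg_left h5 (by positivity)
        _ = 2 * s := by ring
    have hbs : (1 : ℝ) ≤ b / s := by
      rw [le_div_iff₀ (by linarith), one_mul]
      exact_mod_cast hsb
    rcases le_or_gt c (1 / 9268) with hcs | hcs
    · -- small `c`
      obtain ⟨t, rfl⟩ : ∃ t, s = t + 1 := ⟨s - 1, by omega⟩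
      have e1 : (1 + 2000 * (b : ℝ) / ((t + 1 : ℕ) : ℝ)) ^ (f - 1) ≤
          (2001 * (b / ((t + 1 : ℕ) : ℝ))) ^ t := by
        have h5 : 1 + 2000 * (b : ℝ) / ((t + 1 : ℕ) : ℝ) ≤ 2001 * (b / ((t + 1 : ℕ) : ℝ)) := by
          have : 2000 * (b : ℝ) / ((t + 1 : ℕ) : ℝ) = 2000 * (b / ((t + 1 : ℕ) : ℝ)) := by ring
          rw [this]
          linarith
        have h6 : (0 : ℝ) ≤ 2000 * (b : ℝ) / ((t + 1 : ℕ) : ℝ) := by positivity
        calc _ ≤ (1 + 2000 * (b : ℝ) / ((t + 1 : ℕ) : ℝ)) ^ t :=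
              pow_le_pow_right₀ (by linarith) (by omega)
          _ ≤ _ := pow_le_pow_left₀ (by linarith) h5 _
      have e2 : (2001 * (b / ((t + 1 : ℕ) : ℝ))) * (21 / 20 * c) ^ 3 ≤ 1 / 2 := by
        have h5 : (b : ℝ) / ((t + 1 : ℕ) : ℝ) * c ^ 2 ≤ 2 := by
          rw [div_mul_eq_mul_div, div_le_iff₀ (by positivity)]
          linarith
        calc (2001 * (b / ((t + 1 : ℕ) : ℝ))) * (21 / 20 * c) ^ 3 =
              2001 * (21 / 20) ^ 3 * ((b : ℝ) / ((t + 1 : ℕ) : ℝ) * c ^ 2) * c := by ring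
          _ ≤ 2001 * (21 / 20) ^ 3 * 2 * (1 / 9268) := by
              apply mul_le_mul _ hcs c0.le (by positivity)
              exact mul_le_mul_of_nonneg_left h5 (by positivity)
          _ ≤ 1 / 2 := by norm_num
      have e3 : (21 / 20 * c) ^ 3 * ((b : ℝ) * √b) ≤ 5 * ((t + 1 : ℕ) : ℝ) ^ 2 := by
        obtain ⟨r, hr⟩ : ∃ r, r = c * √b := ⟨_, rfl⟩
        have hr2 : r ^ 2 ≤ 2 * ((t + 1 : ℕ) : ℝ) := by
          rw [hr, mul_pow, Real.sq_sqrt (by linarith)]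
          exact c2
        have hr0 : 0 ≤ r := by rw [hr]; positivity
        have hr1 : r ≤ 2 * ((t + 1 : ℕ) : ℝ) := by nlinarith
        have h5 : (21 / 20 * c) ^ 3 * ((b : ℝ) * √b) = (21 / 20) ^ 3 * (r ^ 2 * r) := by
          rw [hr, mul_pow c (√b) 2, Real.sq_sqrt (by linarith)]
          ring
        rw [h5]
        calc (21 / 20 : ℝ) ^ 3 * (r ^ 2 * r) ≤
              (21 / 20) ^ 3 * ((2 * ((t + 1 : ℕ) : ℝ)) * (2 * ((t + 1 : ℕ) : ℝ))) := by
              apply mul_le_mul_of_nonneg_left _ (by positivity)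
              exact mul_le_mul hr2 hr1 hr0 (by positivity)
          _ ≤ 5 * ((t + 1 : ℕ) : ℝ) ^ 2 := by nlinarith
      have e4 : ((21 / 20 * c) ^ (t + 1)) ^ 3 = ((21 / 20 * c) ^ 3) ^ t * (21 / 20 * c) ^ 3 := by
        rw [← pow_mul, ← pow_mul, ← pow_add]
        congr 1
        ring
      rw [e4]
      calc 2 * (f : ℝ) * (1 + 2000 * (b : ℝ) / ((t + 1 : ℕ) : ℝ)) ^ (f - 1) *
            (((21 / 20 * c) ^ 3) ^ t * (21 / 20 * c) ^ 3) * (b * √b) ≤
            2 * ((t + 1 : ℕ) : ℝ) * (2001 * (b / ((t + 1 : ℕ) : ℝ))) ^ t *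
            (((21 / 20 * c) ^ 3) ^ t * (21 / 20 * c) ^ 3) * (b * √b) := by
            apply mul_le_mul_of_nonneg_right _ (by positivity)
            apply mul_le_mul_of_nonneg_right _ (by positivity)
            apply mul_le_mul _ e1 (by positivity) (by positivity)
            linarith
        _ = 2 * ((t + 1 : ℕ) : ℝ) * ((2001 * (b / ((t + 1 : ℕ) : ℝ))) * (21 / 20 * c) ^ 3) ^ t *
            ((21 / 20 * c) ^ 3 * (b * √b)) := by
            rw [mul_pow (2001 * (b / ((t + 1 : ℕ) : ℝ)))]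
            ring
        _ ≤ 2 * ((t + 1 : ℕ) : ℝ) * (1 / 2) ^ t * (5 * ((t + 1 : ℕ) : ℝ) ^ 2) := by
            apply mul_le_mul _ e3 (by positivity) (by positivity)
            apply mul_le_mul_of_nonneg_left _ (by positivity)
            exact pow_le_pow_left₀ (by positivity) e2 _
        _ = 20 * ((t + 1 : ℕ) : ℝ) * (((t + 1 : ℕ) : ℝ) ^ 2 * (1 / 2) ^ (t + 1)) := by
            rw [pow_succ (1 / 2 : ℝ) t]
            ring
        _ ≤ 20 * ((t + 1 : ℕ) : ℝ) * 2 :=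
            mul_le_mul_of_nonneg_left (nat_aux1 (t + 1)) (by positivity)
        _ ≤ (40 + K * J ^ 2) * ((t + 1 : ℕ) : ℝ) := by
            have : (0 : ℝ) ≤ K * J ^ 2 * ((t + 1 : ℕ) : ℝ) := by positivity
            linarith
    · -- large `c`
      have hbJ : (b : ℝ) ≤ J * s := by
        have h5 : (1 / 9268 : ℝ) ^ 2 * b ≤ 2 * s := by
          refine le_trans (mul_le_mul_of_nonneg_right ?_ (by linarith)) c2
          exact pow_le_pow_left₀ (by norm_num) hcs.le 2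
        rw [hJ]
        push_cast
        linarith
      have hbJn : b ≤ J * s := by exact_mod_cast hbJ
      have hf : f ≤ 4 * J := by
        have h5 : f * s ≤ (4 * J) * s := hfb.trans (by nlinarith)
        exact Nat.le_of_mul_le_mul_right h5 (by omega)
      have hf' : (f : ℝ) ≤ 4 * J := by exact_mod_cast hf
      have e1 : (1 + 2000 * (b : ℝ) / s) ^ (f - 1) ≤ (1 + 2000 * (J : ℝ)) ^ (4 * J) := by
        have h5 : 2000 * (b : ℝ) / s ≤ 2000 * J := by
          rw [div_le_iff₀ (by linarith)]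
          linarith
        have h6 : (0 : ℝ) ≤ 2000 * (b : ℝ) / s := by positivity
        calc _ ≤ (1 + 2000 * (J : ℝ)) ^ (f - 1) := pow_le_pow_left₀ (by linarith) (by linarith) _
          _ ≤ _ := pow_le_pow_right₀ (by linarith) (by omega)
      have e2 : ((21 / 20 * c) ^ s) ^ 3 ≤ (1 / 2) ^ s := by
        rw [← pow_mul, mul_comm s 3, pow_mul]
        apply pow_le_pow_left₀ (by positivity)
        calc (21 / 20 * c) ^ 3 ≤ (21 / 40) ^ 3 :=
              pow_le_pow_left₀ (by positivity) (by linarith) _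
          _ ≤ 1 / 2 := by norm_num
      calc 2 * (f : ℝ) * (1 + 2000 * (b : ℝ) / s) ^ (f - 1) * ((21 / 20 * c) ^ s) ^ 3 *
            (b * √b) ≤ K * (1 / 2) ^ s * b ^ 2 := by
            apply mul_le_mul _ hbb (by positivity) (by positivity)
            apply mul_le_mul _ e2 (by positivity) hK0.le
            rw [hK]
            apply mul_le_mul _ e1 (by positivity) (by positivity)
            linarith
        _ ≤ K * (1 / 2) ^ s * (J * s) ^ 2 := by
            apply mul_le_mul_of_nonneg_left _ (by positivity)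
            exact pow_le_pow_left₀ (by linarith) hbJ 2
        _ = K * J ^ 2 * s * (s * (1 / 2) ^ s) := by ring
        _ ≤ K * J ^ 2 * s * 1 := mul_le_mul_of_nonneg_left (nat_aux2 s) (by positivity)
        _ ≤ (40 + K * J ^ 2) * s := by linarith
  · have hb2 : (b : ℝ) ≤ 2 * s := by
      have : b ≤ 2 * s := by omega
      exact_mod_cast this
    calc ((1 / 2 : ℝ) ^ s) ^ 3 * ((b : ℝ) * √b) ≤ (1 / 2 : ℝ) ^ s * (2 * (s : ℝ)) ^ 2 := by
          apply mul_le_mul _ (hbb.trans (pow_le_pow_left₀ (by linarith) hb2 2)) (by positivity)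
            (by positivity)
          exact pow_le_of_le_one (by positivity) (pow_le_one₀ (by norm_num) (by norm_num))
            (by norm_num)
      _ = 4 * (s : ℝ) * (s * (1 / 2) ^ s) := by ring
      _ ≤ 4 * (s : ℝ) * 1 := mul_le_mul_of_nonneg_left (nat_aux2 s) (by positivity)
      _ ≤ (40 + K * J ^ 2) * s := by
          have : (0 : ℝ) ≤ K * J ^ 2 * s := by positivity
          linarith

end Pool.Agent.CMV
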