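import Mathlib
import Pool.Agent.CMV.Defs

set_option autoImplicit false
set_option maxHeartbeats 4000000

/-!
# Few sign vectors are orthogonal to a subspace
-/

namespace Pool.Agent.CMV

open Finset Module
open scoped BigOperators RealInnerProductSpace

namespace OD_

variable {ι : Type} [Fintype ι] [DecidableEq ι]

/-- the coordinate functionals on a subspace -/
noncomputable def co (K : Submodule ℝ (EuclideanSpace ℝ ι)) (i : ι) : Dual ℝ K :=
  ((EuclideanSpace.proj i : EuclideanSpace ℝ ι →L[ℝ] ℝ) : EuclideanSpace ℝ ι →ₗ[ℝ] ℝ) ∘ₗ K.subtype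

omit [Fintype ι] [DecidableEq ι] in
theorem co_apply (K : Submodule ℝ (EuclideanSpace ℝ ι)) (i : ι) (v : K) :
    co K i v = (v : EuclideanSpace ℝ ι) i := by
  unfold co
  simp

/-- a small set of coordinates that determines the vectors of a subspace -/
theorem exists_coords (K : Submodule ℝ (EuclideanSpace ℝ ι)) :
    ∃ I : Finset ι, I.card ≤ finrank ℝ K ∧ ∀ v : K, (∀ i ∈ I, (v : EuclideanSpace ℝ ι) i = 0) →
      v = 0 := by
  classical
  obtain ⟨b, hb, hspan, hli⟩ := exists_linearIndependent ℝ (Set.range (co K))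
  have hbf : b.Finite := (Set.finite_range (co K)).subset hb
  have hch : ∀ φ : b, ∃ i, co K i = φ := fun φ => hb φ.2
  choose c hc using hch
  have : Fintype b := hbf.fintype
  refine ⟨Finset.univ.image c, ?_, ?_⟩
  · calc (Finset.univ.image c).card ≤ Fintype.card b := by
          simpa using Finset.card_image_le (s := (Finset.univ : Finset b)) (f := c)
      _ ≤ finrank ℝ (Dual ℝ K) := hli.fintype_card_le_finrank
      _ = finrank ℝ K := Subspace.dual_finrank_eq
  · intro v hv
    have h0 : ∀ φ ∈ Submodule.span ℝ b, φ v = 0 := by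
      intro φ hφ
      induction hφ using Submodule.span_induction with
      | mem φ hφ =>
        have h := hc ⟨φ, hφ⟩
        have h2 := hv (c ⟨φ, hφ⟩) (Finset.mem_image_of_mem c (Finset.mem_univ _))
        rw [← co_apply K, h] at h2
        exact h2
      | zero => rfl
      | add φ ψ _ _ h1 h2 => rw [LinearMap.add_apply, h1, h2, add_zero]
      | smul r φ _ h1 => rw [LinearMap.smul_apply, h1, smul_zero]
    ext i
    have h1 : co K i ∈ Submodule.span ℝ b := by
      rw [hspan]; exact Submodule.subset_span ⟨i, rfl⟩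
    have := h0 _ h1
    rw [co_apply] at this
    simpa using this

end OD_

open OD_

theorem odlyzko {ι : Type} [Fintype ι] [DecidableEq ι] (W : Submodule ℝ (EuclideanSpace ℝ ι))
    (s : ℕ) (hs : finrank ℝ W = s) :
    (Nat.card {a : ι → Bool // ∀ w ∈ W, ⟪w, sv a⟫ = 0} : ℝ) ≤
      2 ^ Fintype.card ι * (1 / 2) ^ s := by
  classical
  obtain ⟨I, hI, hI2⟩ := exists_coords Wᗮ
  have hfin : finrank ℝ W + finrank ℝ Wᗮ = Fintype.card ι := by
    rw [Submodule.finrank_add_finrank_orthogonal, finrank_euclideanSpace]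
  let res : {a : ι → Bool // ∀ w ∈ W, ⟪w, sv a⟫ = 0} → (I → Bool) := fun a i => a.1 i
  have hinj : Function.Injective res := by
    intro a a' h
    have hmem : ∀ a : {a : ι → Bool // ∀ w ∈ W, ⟪w, sv a⟫ = 0}, sv a.1 ∈ Wᗮ := fun a => by
      rw [Submodule.mem_orthogonal]
      exact a.2
    have hd := hI2 (⟨sv a.1, hmem a⟩ - ⟨sv a'.1, hmem a'⟩) (by
      intro i hi
      have := congrFun h ⟨i, hi⟩
      have h1 : a.1 i = a'.1 i := this
      simp [sv, h1])
    have h2 : sv a.1 = sv a'.1 := by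
      have := sub_eq_zero.mp hd
      exact congrArg Subtype.val this
    ext i
    have h3 := congrArg (fun v : EuclideanSpace ℝ ι => v i) h2
    simp only [sv] at h3
    have h4 : sg (a.1 i) = sg (a'.1 i) := h3
    unfold sg at h4
    cases ha : a.1 i <;> cases ha' : a'.1 i <;> simp [ha, ha'] at h4 ⊢ <;> norm_num at h4
  have hcard : Nat.card {a : ι → Bool // ∀ w ∈ W, ⟪w, sv a⟫ = 0} ≤ 2 ^ I.card := by
    have h1 := Nat.card_le_card_of_injective res hinj
    have h2 : Nat.card (I → Bool) = 2 ^ I.card := by simp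
    rwa [h2] at h1
  have hle : I.card ≤ Fintype.card ι - s := by omega
  have h1 : (Nat.card {a : ι → Bool // ∀ w ∈ W, ⟪w, sv a⟫ = 0} : ℝ) ≤
      (2 : ℝ) ^ (Fintype.card ι - s) := by
    calc (Nat.card {a : ι → Bool // ∀ w ∈ W, ⟪w, sv a⟫ = 0} : ℝ) ≤ ((2 ^ I.card : ℕ) : ℝ) := by
          exact_mod_cast hcard
      _ ≤ ((2 ^ (Fintype.card ι - s) : ℕ) : ℝ) := by
          exact_mod_cast Nat.pow_le_pow_right (by norm_num) hle
      _ = _ := by push_cast; rfl
  refine h1.trans (le_of_eq ?_)
  have hs2 : s ≤ Fintype.card ι := by omega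
  have h3 : (2 : ℝ) ^ Fintype.card ι = 2 ^ (Fintype.card ι - s) * 2 ^ s := by
    rw [← pow_add]; congr 1; omega
  rw [h3, mul_assoc, ← mul_pow]
  norm_num

end Pool.Agent.CMV
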