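import Mathlib
import Pool.Agent.CMV.Defs

set_option autoImplicit false
set_option maxHeartbeats 4000000

/-!
# The Schur lemma for minimal stable subspaces
-/

namespace Pool.Agent.CMV

open Finset Module
open scoped BigOperators RealInnerProductSpace

namespace SCH_

variable {ι : Type} [Fintype ι] [DecidableEq ι]

omit [DecidableEq ι] in
theorem smul_in (W : Submodule ℝ (EuclideanSpace ℝ ι)) (c : ℝ) (x y : W) :
    ⟪c • x, y⟫ = c * ⟪x, y⟫ := real_inner_smul_left x y c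

omit [DecidableEq ι] in
theorem mul_inv_app (g : EuclideanSpace ℝ ι ≃ₗᵢ[ℝ] EuclideanSpace ℝ ι) (x : EuclideanSpace ℝ ι) :
    g (g⁻¹ x) = x := by
  have : (g * g⁻¹) x = x := by rw [mul_inv_cancel]; rfl
  exact this

/-- an invariant symmetric form is a multiple of the scalar product -/
theorem scalar (G : Subgroup (EuclideanSpace ℝ ι ≃ₗᵢ[ℝ] EuclideanSpace ℝ ι))
    (W : Submodule ℝ (EuclideanSpace ℝ ι)) (hW : Mini G W)
    (T : W →L[ℝ] EuclideanSpace ℝ ι) (hT : T ∈ EqI G W ⊤) :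
    ∃ c : ℝ, ∀ w : W, ‖T w‖ ^ 2 = c * ‖w‖ ^ 2 := by
  classical
  obtain ⟨hst, hne, hmin⟩ := hW
  obtain ⟨hT1, -⟩ := hT
  set A : W →L[ℝ] W := (ContinuousLinearMap.adjoint T).comp T with hA
  have hAin : ∀ w w' : W, ⟪A w, w'⟫ = ⟪T w, T w'⟫ := fun w w' => by
    rw [hA, ContinuousLinearMap.comp_apply, ContinuousLinearMap.adjoint_inner_left]
  have hsym : (A : W →ₗ[ℝ] W).IsSymmetric := fun w w' => by
    change ⟪A w, w'⟫ = ⟪w, A w'⟫
    rw [hAin, real_inner_comm, ← hAin, real_inner_comm]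
  have hnt : Nontrivial W := Submodule.nontrivial_iff_ne_bot.mpr hne
  have hev := hsym.hasEigenvalue_iSup_of_finiteDimensional
  set c : ℝ := ⨆ x : { x : W // x ≠ 0 }, ⟪(A : W →ₗ[ℝ] W) ↑x, ↑x⟫ / ‖(x : W)‖ ^ 2 with hc
  have hev' : End.HasEigenvalue (A : W →ₗ[ℝ] W) c := hev
  obtain ⟨v₀, hv₀⟩ := hev'.exists_hasEigenvector
  -- action of the group on `W`
  have hact : ∀ g ∈ G, ∀ w : W, ∀ w' : W, (w' : EuclideanSpace ℝ ι) = g w → A w = c • w →
      A w' = c • w' := by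
    intro g hg w w' hw' hAw
    refine ext_inner_right ℝ fun u => ?_
    -- u = g u'
    have hgi : g⁻¹ ∈ G := G.inv_mem hg
    let u' : W := ⟨g⁻¹ (u : EuclideanSpace ℝ ι), hst _ hgi _ u.2⟩
    have hgu : g (g⁻¹ (u : EuclideanSpace ℝ ι)) = u := mul_inv_app g _
    have hTu : T u = g (T u') := hT1 g hg u' u hgu.symm
    have hTw : T w' = g (T w) := hT1 g hg w w' hw'
    rw [hAin, hTw, hTu, LinearIsometryEquiv.inner_map_map, ← hAin, hAw]
    rw [smul_in, smul_in]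
    congr 1
    have e1 : ⟪w', u⟫ = ⟪(w' : EuclideanSpace ℝ ι), (u : EuclideanSpace ℝ ι)⟫ := rfl
    have e2 : ⟪w, u'⟫ = ⟪(w : EuclideanSpace ℝ ι), g⁻¹ (u : EuclideanSpace ℝ ι)⟫ := rfl
    rw [e1, e2, hw', ← LinearIsometryEquiv.inner_map_map g (w : EuclideanSpace ℝ ι), hgu]
  set V : Submodule ℝ (EuclideanSpace ℝ ι) :=
    Submodule.map W.subtype (End.eigenspace (A : W →ₗ[ℝ] W) c) with hV
  have hmemV : ∀ w : W, (w : EuclideanSpace ℝ ι) ∈ V ↔ A w = c • w := by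
    intro w
    rw [hV, Submodule.mem_map]
    constructor
    · rintro ⟨x, hx, hxw⟩
      have : x = w := Subtype.ext hxw
      rw [← this]
      exact End.mem_eigenspace_iff.mp hx
    · intro h
      exact ⟨w, End.mem_eigenspace_iff.mpr h, rfl⟩
  have hVW : V ≤ W := by
    rw [hV]; exact Submodule.map_subtype_le _ _
  have hVst : Stable G V := by
    intro g hg x hx
    have hxW : x ∈ W := hVW hx
    have h1 : A ⟨x, hxW⟩ = c • (⟨x, hxW⟩ : W) := (hmemV ⟨x, hxW⟩).mp hx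
    exact (hmemV ⟨g x, hst g hg x hxW⟩).mpr (hact g hg ⟨x, hxW⟩ ⟨g x, hst g hg x hxW⟩ rfl h1)
  have hVne : V ≠ ⊥ := by
    intro h
    have h1 : (v₀ : EuclideanSpace ℝ ι) ∈ V := (hmemV v₀).mpr hv₀.apply_eq_smul
    rw [h, Submodule.mem_bot] at h1
    exact hv₀.2 (Subtype.ext h1)
  have hVeq : V = W := hmin V hVst hVW hVne
  refine ⟨c, fun w => ?_⟩
  have h1 : A w = c • w := (hmemV w).mp (by rw [hVeq]; exact w.2)
  rw [← real_inner_self_eq_norm_sq, ← hAin, h1, smul_in, real_inner_self_eq_norm_sq]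

end SCH_

open SCH_

theorem schur_norm {ι : Type} [Fintype ι] [DecidableEq ι]
    (G : Subgroup (EuclideanSpace ℝ ι ≃ₗᵢ[ℝ] EuclideanSpace ℝ ι))
    (W : Submodule ℝ (EuclideanSpace ℝ ι)) (hW : Mini G W)
    (T : W →L[ℝ] EuclideanSpace ℝ ι) (hT : T ∈ EqI G W ⊤) (w : W) : ‖T w‖ = ‖T‖ * ‖w‖ := by
  obtain ⟨c, hc⟩ := scalar G W hW T hT
  have hnt : Nontrivial W := Submodule.nontrivial_iff_ne_bot.mpr hW.2.1
  obtain ⟨w₀, hw₀⟩ := exists_ne (0 : W)
  have hw₀n : 0 < ‖w₀‖ := norm_pos_iff.mpr hw₀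
  have hc0 : 0 ≤ c := by
    have h := hc w₀
    by_contra hcon
    push Not at hcon
    have h1 : c * ‖w₀‖ ^ 2 < 0 := mul_neg_of_neg_of_pos hcon (by positivity)
    have h2 : 0 ≤ ‖T w₀‖ ^ 2 := sq_nonneg _
    linarith
  have hn : ∀ w : W, ‖T w‖ = √c * ‖w‖ := fun w => by
    rw [← Real.sqrt_sq (norm_nonneg (T w)), hc w, Real.sqrt_mul hc0, Real.sqrt_sq (norm_nonneg w)]
  have hT1 : ‖T‖ = √c := by
    refine le_antisymm (T.opNorm_le_bound (Real.sqrt_nonneg c) fun w => (hn w).le) ?_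
    have h1 := T.le_opNorm w₀
    rw [hn w₀] at h1
    exact le_of_mul_le_mul_right h1 hw₀n
  rw [hn w, hT1]

theorem finrank_EqI_le {ι : Type} [Fintype ι] [DecidableEq ι]
    (G : Subgroup (EuclideanSpace ℝ ι ≃ₗᵢ[ℝ] EuclideanSpace ℝ ι)) (hG : Signed G) [Nonempty ι]
    (W : Submodule ℝ (EuclideanSpace ℝ ι)) (hW : Mini G W) :
    finrank ℝ (EqI G W ⊤) ≤ finrank ℝ W := by
  obtain ⟨i₀⟩ := (inferInstance : Nonempty ι)
  let L : EqI G W ⊤ →ₗ[ℝ] Dual ℝ W :=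
    { toFun := fun T => ((innerSL ℝ (bv i₀ : EuclideanSpace ℝ ι)).comp
        (T : W →L[ℝ] EuclideanSpace ℝ ι) : W →L[ℝ] ℝ).toLinearMap
      map_add' := fun S T => by
        ext w
        simp
      map_smul' := fun c T => by
        ext w
        simp }
  have hL : ∀ (T : EqI G W ⊤) (w : W), L T w = ⟪bv i₀, (T : W →L[ℝ] EuclideanSpace ℝ ι) w⟫ :=
    fun T w => rfl
  have hinj : Function.Injective L := by
    intro S T hST
    obtain ⟨hS1, -⟩ := S.2
    obtain ⟨hT1, -⟩ := T.2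
    have key : ∀ (w : W) (j : ι), ⟪bv j, (S : W →L[ℝ] EuclideanSpace ℝ ι) w⟫ =
        ⟪bv j, (T : W →L[ℝ] EuclideanSpace ℝ ι) w⟫ := by
      intro w j
      obtain ⟨g, hg, hgj⟩ := hG.trans i₀ j
      have hgi : g⁻¹ ∈ G := G.inv_mem hg
      let w' : W := ⟨g⁻¹ (w : EuclideanSpace ℝ ι), hW.1 _ hgi _ w.2⟩
      have hgw : g (g⁻¹ (w : EuclideanSpace ℝ ι)) = w := mul_inv_app g _
      have h1 : (S : W →L[ℝ] EuclideanSpace ℝ ι) w = g ((S : W →L[ℝ] EuclideanSpace ℝ ι) w') :=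
        hS1 g hg w' w hgw.symm
      have h1' : (T : W →L[ℝ] EuclideanSpace ℝ ι) w = g ((T : W →L[ℝ] EuclideanSpace ℝ ι) w') :=
        hT1 g hg w' w hgw.symm
      have h2 : ⟪g (bv i₀), (S : W →L[ℝ] EuclideanSpace ℝ ι) w⟫ =
          ⟪g (bv i₀), (T : W →L[ℝ] EuclideanSpace ℝ ι) w⟫ := by
        rw [h1, h1', LinearIsometryEquiv.inner_map_map, LinearIsometryEquiv.inner_map_map,
          ← hL, ← hL, hST]
      rcases hgj with hgj | hgj
      · rw [← hgj]; exact h2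
      · have h3 : bv j = - g (bv i₀) := by rw [hgj, neg_neg]
        rw [h3, inner_neg_left, inner_neg_left, h2]
    refine Subtype.ext (ContinuousLinearMap.ext fun w => ?_)
    ext j
    have := key w j
    unfold bv at this
    rw [EuclideanSpace.inner_single_left, EuclideanSpace.inner_single_left] at this
    simpa using this
  have := LinearMap.finrank_le_finrank_of_injective hinj
  rwa [Subspace.dual_finrank_eq] at this

end Pool.Agent.CMV
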