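import Mathlib
import Pool.Agent.CMV.Defs

set_option autoImplicit false
set_option maxHeartbeats 4000000

/-!
# Central binomial coefficients and a product bound
-/

namespace Pool.Agent.CMV

open Finset
open scoped BigOperators

namespace CB_

theorem cq_succ (q : ℕ) : cq (q + 1) = cq q * ((2 * q + 1) / (2 * q + 2)) := by
  unfold cq
  have h := Nat.succ_mul_centralBinom_succ q
  have h' : ((q : ℝ) + 1) * (Nat.centralBinom (q + 1) : ℝ) =
      2 * (2 * q + 1) * (Nat.centralBinom q : ℝ) := by exact_mod_cast h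
  have hq : (q : ℝ) + 1 ≠ 0 := by positivity
  have h4 : (4 : ℝ) ^ q ≠ 0 := by positivity
  have h2 : (2 * (q : ℝ) + 2) ≠ 0 := by positivity
  rw [pow_succ]
  field_simp
  linear_combination 2 * h'

theorem sum_inv_sqrt (s : ℕ) : ∑ i ∈ Finset.range s, 1 / √((i : ℝ) + 1) ≤ 2 * √(s : ℝ) := by
  induction s with
  | zero => simp
  | succ s ih =>
    rw [Finset.sum_range_succ]
    push_cast
    have hs : (0 : ℝ) ≤ s := Nat.cast_nonneg s
    have h1 : 0 < √((s : ℝ) + 1) := Real.sqrt_pos.mpr (by positivity)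
    have h2 : √(s : ℝ) ≤ √((s : ℝ) + 1) := Real.sqrt_le_sqrt (by linarith)
    have h3 : √((s : ℝ) + 1) ^ 2 = s + 1 := Real.sq_sqrt (by positivity)
    have h4 : √(s : ℝ) ^ 2 = s := Real.sq_sqrt hs
    have h5 : 1 / √((s : ℝ) + 1) ≤ 2 * √((s : ℝ) + 1) - 2 * √(s : ℝ) := by
      rw [div_le_iff₀ h1]
      nlinarith [Real.sqrt_nonneg (s : ℝ)]
    linarith

end CB_

open CB_

theorem cq_pos (q : ℕ) : 0 < cq q := by
  unfold cq
  have := Nat.centralBinom_pos q
  positivity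

theorem cq_le_half (q : ℕ) (hq : 1 ≤ q) : cq q ≤ 1 / 2 := by
  induction q, hq using Nat.le_induction with
  | base => unfold cq; norm_num [Nat.centralBinom]
  | succ q hq ih =>
    rw [cq_succ]
    have h1 : (2 * (q : ℝ) + 1) / (2 * q + 2) ≤ 1 := by
      rw [div_le_one (by positivity)]; linarith
    have h0 := cq_pos q
    calc cq q * ((2 * q + 1) / (2 * q + 2)) ≤ cq q * 1 := by gcongr
      _ ≤ 1 / 2 := by linarith

theorem cq_sq_le (q : ℕ) : cq q ^ 2 * (2 * q + 1) ≤ 1 := by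
  induction q with
  | zero => unfold cq; norm_num [Nat.centralBinom]
  | succ q ih =>
    rw [cq_succ, mul_pow, div_pow]
    have h0 : 0 ≤ cq q ^ 2 := sq_nonneg _
    push_cast
    have h1 : cq q ^ 2 * ((2 * (q : ℝ) + 1) ^ 2 / (2 * q + 2) ^ 2) * (2 * (q + 1) + 1) =
        (cq q ^ 2 * (2 * q + 1)) * ((2 * q + 1) * (2 * q + 3) / (2 * q + 2) ^ 2) := by
      ring
    rw [h1]
    have h2 : ((2 * (q : ℝ) + 1) * (2 * q + 3) / (2 * q + 2) ^ 2) ≤ 1 := by
      rw [div_le_one (by positivity)]; nlinarith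
    have h3 : 0 ≤ ((2 * (q : ℝ) + 1) * (2 * q + 3) / (2 * q + 2) ^ 2) := by positivity
    calc _ ≤ 1 * 1 := mul_le_mul ih h2 h3 zero_le_one
      _ = 1 := one_mul 1

theorem prod_bound (s : ℕ) :
    ∏ j : Fin s, (1 + √(Real.pi / 20000) * √((s : ℝ) / ((s : ℝ) - j))) ≤
      Real.exp (26 / 1000 * s) := by
  have h1 : ∀ j : Fin s, 1 + √(Real.pi / 20000) * √((s : ℝ) / ((s : ℝ) - j)) ≤
      Real.exp (√(Real.pi / 20000) * √((s : ℝ) / ((s : ℝ) - j))) := fun j => by
    have := Real.add_one_le_exp (√(Real.pi / 20000) * √((s : ℝ) / ((s : ℝ) - j)))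
    linarith
  refine (Finset.prod_le_prod (fun j _ => by positivity) fun j _ => h1 j).trans ?_
  rw [← Real.exp_sum]
  refine Real.exp_le_exp.mpr ?_
  rw [← Finset.mul_sum]
  have h2 : ∑ j : Fin s, √((s : ℝ) / ((s : ℝ) - j)) ≤ 2 * s := by
    have e1 : ∑ j : Fin s, √((s : ℝ) / ((s : ℝ) - j)) =
        √(s : ℝ) * ∑ i ∈ Finset.range s, 1 / √((i : ℝ) + 1) := by
      rw [Finset.mul_sum, ← Finset.sum_range_reflect, ← Fin.sum_univ_eq_sum_range
        (fun j => √(s : ℝ) * (1 / √(((s - 1 - j : ℕ) : ℝ) + 1)))]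
      refine Finset.sum_congr rfl fun j _ => ?_
      have hj := j.2
      have : (((s - 1 - (j : ℕ) : ℕ) : ℝ) + 1) = (s : ℝ) - j := by
        have : s - 1 - (j : ℕ) + 1 = s - j := by omega
        rw [← Nat.cast_sub hj.le, ← this]; push_cast; ring
      rw [this, Real.sqrt_div (Nat.cast_nonneg s)]
      ring
    rw [e1]
    have h3 := sum_inv_sqrt s
    have h4 : √(s : ℝ) * √(s : ℝ) = s := Real.mul_self_sqrt (Nat.cast_nonneg s)
    nlinarith [Real.sqrt_nonneg (s : ℝ)]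
  have h5 : √(Real.pi / 20000) ≤ 13 / 1000 := by
    rw [Real.sqrt_le_left (by norm_num)]
    have := Real.pi_lt_d2
    norm_num at this ⊢
    linarith
  have h6 : 0 ≤ √(Real.pi / 20000) := Real.sqrt_nonneg _
  have h7 : (0 : ℝ) ≤ s := Nat.cast_nonneg s
  calc √(Real.pi / 20000) * ∑ j : Fin s, √((s : ℝ) / ((s : ℝ) - j))
      ≤ √(Real.pi / 20000) * (2 * s) := by gcongr
    _ ≤ 13 / 1000 * (2 * s) := by gcongr
    _ = 26 / 1000 * s := by ring

end Pool.Agent.CMV
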