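import Mathlib

set_option autoImplicit false

/-!
# The Gaussian integral of a cosine
-/

namespace Pool.Agent.CMV

open Finset Module MeasureTheory
open scoped BigOperators RealInnerProductSpace

theorem gauss_cos (W : Type) [NormedAddCommGroup W] [InnerProductSpace ℝ W]
    [FiniteDimensional ℝ W] [MeasurableSpace W] [BorelSpace W] (w : W) :
    (2 * Real.pi) ^ (-(finrank ℝ W : ℝ) / 2) *
      ∫ g : W, Real.exp (-‖g‖ ^ 2 / 2) * Real.cos ⟪g, w⟫ = Real.exp (-‖w‖ ^ 2 / 2) := by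
  have hb : (0 : ℝ) < ((1 / 2 : ℝ) : ℂ).re := by norm_num
  have h1 := GaussianFourier.integral_cexp_neg_mul_sq_norm_add (V := W) hb Complex.I w
  have h2 := GaussianFourier.integrable_cexp_neg_mul_sq_norm_add (V := W) hb Complex.I w
  have h3 : ∀ g : W, Real.exp (-‖g‖ ^ 2 / 2) * Real.cos ⟪g, w⟫ =
      (RCLike.re (Complex.exp (-((1 / 2 : ℝ) : ℂ) * (‖g‖ : ℂ) ^ 2 +
        Complex.I * ((⟪w, g⟫ : ℝ) : ℂ))) : ℝ) := by
    intro g
    have e : -((1 / 2 : ℝ) : ℂ) * (‖g‖ : ℂ) ^ 2 + Complex.I * ((⟪w, g⟫ : ℝ) : ℂ) =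
        ((-‖g‖ ^ 2 / 2 : ℝ) : ℂ) + ((⟪g, w⟫ : ℝ) : ℂ) * Complex.I := by
      rw [real_inner_comm]
      push_cast
      ring
    rw [e, Complex.exp_add, ← Complex.ofReal_exp, Complex.exp_mul_I, ← Complex.ofReal_cos,
      ← Complex.ofReal_sin]
    change _ = (((Real.exp (-‖g‖ ^ 2 / 2) : ℝ) : ℂ) * (((Real.cos ⟪g, w⟫ : ℝ) : ℂ) +
      ((Real.sin ⟪g, w⟫ : ℝ) : ℂ) * Complex.I)).re
    rw [Complex.re_ofReal_mul, Complex.add_re, Complex.ofReal_re, Complex.re_ofReal_mul,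
      Complex.I_re, mul_zero, add_zero]
  have hpi : (0 : ℝ) < 2 * Real.pi := by positivity
  have h4 : ∫ g : W, Real.exp (-‖g‖ ^ 2 / 2) * Real.cos ⟪g, w⟫ =
      (2 * Real.pi) ^ ((finrank ℝ W : ℝ) / 2) * Real.exp (-‖w‖ ^ 2 / 2) := by
    simp only [h3]
    rw [integral_re h2, h1]
    have e1 : ((Real.pi : ℂ) / ((1 / 2 : ℝ) : ℂ)) ^ ((finrank ℝ W : ℂ) / 2) =
        (((2 * Real.pi) ^ ((finrank ℝ W : ℝ) / 2) : ℝ) : ℂ) := by
      rw [Complex.ofReal_cpow hpi.le]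
      congr 1
      · push_cast
        ring
      · push_cast
        ring
    have e2 : Complex.exp (Complex.I ^ 2 * (‖w‖ : ℂ) ^ 2 / (4 * ((1 / 2 : ℝ) : ℂ))) =
        ((Real.exp (-‖w‖ ^ 2 / 2) : ℝ) : ℂ) := by
      rw [Complex.ofReal_exp]
      congr 1
      rw [Complex.I_sq]
      push_cast
      ring
    rw [e1, e2, ← Complex.ofReal_mul]
    exact Complex.ofReal_re _
  rw [h4, ← mul_assoc, ← Real.rpow_add hpi]
  rw [show -(finrank ℝ W : ℝ) / 2 + (finrank ℝ W : ℝ) / 2 = 0 by ring, Real.rpow_zero, one_mul]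

end Pool.Agent.CMV
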