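import Mathlib
import Pool.Agent.CMV.Defs

set_option autoImplicit false

/-!
# The Gaussian average of a product of powers of cosines
-/

namespace Pool.Agent.CMV

open Finset Module MeasureTheory
open scoped BigOperators RealInnerProductSpace

/-- the coefficients of `cos ^ (2 q)` -/
noncomputable def gpa (q : ℕ) (m : ℤ) : ℝ := (Nat.choose (2 * q) (q + m).toNat : ℝ) / 4 ^ q

theorem gpa_nonneg (q : ℕ) (m : ℤ) : 0 ≤ gpa q m := by
  unfold gpa; positivity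

theorem gpa_le (q : ℕ) (m : ℤ) : gpa q m ≤ cq q := by
  unfold gpa cq
  have h : Nat.choose (2 * q) (q + m).toNat ≤ Nat.centralBinom q := Nat.choose_le_centralBinom _ _
  have h' : (Nat.choose (2 * q) (q + m).toNat : ℝ) ≤ (Nat.centralBinom q : ℝ) := by exact_mod_cast h
  gcongr

theorem cos_pow_expand (q : ℕ) (y : ℝ) :
    ((Real.cos y ^ (2 * q) : ℝ) : ℂ) =
      ∑ m ∈ Finset.Icc (-(q : ℤ)) q, (gpa q m : ℂ) * Complex.exp (2 * (m : ℂ) * y * Complex.I) := by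
  have h1 : ((Real.cos y ^ (2 * q) : ℝ) : ℂ) =
      (Complex.exp (y * Complex.I) + Complex.exp (-(y * Complex.I))) ^ (2 * q) / 4 ^ q := by
    push_cast
    rw [Complex.cos, div_pow, pow_mul 2 2 q]
    norm_num
  rw [h1, add_pow, Finset.sum_div]
  refine Finset.sum_nbij' (fun l => (l : ℤ) - q) (fun m => (q + m).toNat) ?_ ?_ ?_ ?_ ?_
  · intro l hl
    simp only [Finset.mem_range, Finset.mem_Icc] at hl ⊢
    omega
  · intro m hm
    simp only [Finset.mem_range, Finset.mem_Icc] at hm ⊢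
    omega
  · intro l hl
    simp
  · intro m hm
    simp only [Finset.mem_Icc] at hm
    simp only [Int.toNat_of_nonneg (by omega : (0 : ℤ) ≤ q + m)]
    ring
  · intro l hl
    simp only [Finset.mem_range] at hl
    have hl' : l ≤ 2 * q := by omega
    have h2 : ((q : ℤ) + ((l : ℤ) - q)).toNat = l := by
      have : (q : ℤ) + ((l : ℤ) - q) = l := by ring
      rw [this, Int.toNat_natCast]
    unfold gpa
    rw [h2, ← Complex.exp_nat_mul, ← Complex.exp_nat_mul]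
    push_cast [Nat.cast_sub hl']
    have h3 : Complex.exp ((l : ℂ) * ((y : ℂ) * Complex.I)) *
        Complex.exp ((2 * (q : ℂ) - l) * -((y : ℂ) * Complex.I)) =
        Complex.exp (2 * ((l : ℂ) - q) * y * Complex.I) := by
      rw [← Complex.exp_add]
      congr 1
      ring
    rw [h3]
    ring

theorem gauss_int (W : Type) [NormedAddCommGroup W] [InnerProductSpace ℝ W]
    [FiniteDimensional ℝ W] [MeasurableSpace W] [BorelSpace W] (v : W) :
    ∫ g : W, Complex.exp (-(1 / 2 : ℂ) * (‖g‖ : ℂ) ^ 2 + Complex.I * (⟪v, g⟫ : ℝ)) =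
      (((2 * Real.pi) ^ ((finrank ℝ W : ℝ) / 2) * Real.exp (-‖v‖ ^ 2 / 2) : ℝ) : ℂ) := by
  have h := GaussianFourier.integral_cexp_neg_mul_sq_norm_add (V := W) (b := (1 / 2 : ℂ))
    (by norm_num) Complex.I v
  rw [h]
  push_cast
  rw [Complex.ofReal_cpow (by positivity)]
  push_cast
  congr 1
  · congr 1
    ring
  · congr 1
    rw [Complex.I_sq]
    ring

theorem gauss_prod_cos (W : Type) [NormedAddCommGroup W] [InnerProductSpace ℝ W]
    [FiniteDimensional ℝ W] [MeasurableSpace W] [BorelSpace W] (s q : ℕ) (u : Fin s → W) (t : ℝ) :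
    (2 * Real.pi) ^ (-(finrank ℝ W : ℝ) / 2) *
      ∫ g : W, Real.exp (-‖g‖ ^ 2 / 2) * ∏ j, Real.cos (t * ⟪g, u j⟫) ^ (2 * q) ≤
    cq q ^ s * ∑ m ∈ Fintype.piFinset (fun _ : Fin s => Finset.Icc (-(q : ℤ)) q),
      Real.exp (-2 * t ^ 2 * ‖∑ j, (m j : ℝ) • u j‖ ^ 2) := by
  set P := Fintype.piFinset (fun _ : Fin s => Finset.Icc (-(q : ℤ)) q) with hP
  set V : (Fin s → ℤ) → W := fun m => (2 * t) • ∑ j, (m j : ℝ) • u j with hV
  have hpt : ∀ g : W, ((Real.exp (-‖g‖ ^ 2 / 2) * ∏ j, Real.cos (t * ⟪g, u j⟫) ^ (2 * q) : ℝ) : ℂ) =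
      ∑ m ∈ P, (∏ j, (gpa q (m j) : ℂ)) *
        Complex.exp (-(1 / 2 : ℂ) * (‖g‖ : ℂ) ^ 2 + Complex.I * (⟪V m, g⟫ : ℝ)) := by
    intro g
    rw [Complex.ofReal_mul, Complex.ofReal_prod]
    rw [Finset.prod_congr rfl (fun j _ => cos_pow_expand q (t * ⟪g, u j⟫))]
    rw [Finset.prod_univ_sum, Finset.mul_sum]
    refine Finset.sum_congr rfl (fun m _ => ?_)
    rw [Finset.prod_mul_distrib, ← Complex.exp_sum, Complex.ofReal_exp]
    rw [mul_left_comm, ← Complex.exp_add]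
    congr 2
    have hin : (⟪V m, g⟫ : ℝ) = ∑ j, 2 * (m j : ℝ) * (t * ⟪g, u j⟫) := by
      simp only [hV, real_inner_smul_left, sum_inner, Finset.mul_sum]
      refine Finset.sum_congr rfl (fun j _ => ?_)
      rw [real_inner_comm]
      ring
    rw [hin]
    push_cast
    rw [Finset.mul_sum]
    congr 1
    · ring
    · refine Finset.sum_congr rfl (fun j _ => ?_)
      ring
  have hint : ∀ m ∈ P, Integrable (fun g : W => (∏ j, (gpa q (m j) : ℂ)) *
        Complex.exp (-(1 / 2 : ℂ) * (‖g‖ : ℂ) ^ 2 + Complex.I * (⟪V m, g⟫ : ℝ))) := by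
    intro m _
    exact (GaussianFourier.integrable_cexp_neg_mul_sq_norm_add (V := W) (b := (1 / 2 : ℂ))
      (by norm_num) Complex.I (V m)).const_mul _
  have hI : ((∫ g : W, Real.exp (-‖g‖ ^ 2 / 2) * ∏ j, Real.cos (t * ⟪g, u j⟫) ^ (2 * q) : ℝ) : ℂ) =
      ((∑ m ∈ P, (∏ j, gpa q (m j)) *
        ((2 * Real.pi) ^ ((finrank ℝ W : ℝ) / 2) * Real.exp (-‖V m‖ ^ 2 / 2)) : ℝ) : ℂ) := by
    rw [← integral_complex_ofReal]
    rw [integral_congr_ae (Filter.Eventually.of_forall hpt)]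
    rw [integral_finsetSum P hint]
    rw [Complex.ofReal_sum]
    refine Finset.sum_congr rfl (fun m _ => ?_)
    rw [integral_const_mul, gauss_int]
    push_cast
    ring
  have hI' := Complex.ofReal_injective hI
  rw [hI', Finset.mul_sum, Finset.mul_sum]
  refine Finset.sum_le_sum (fun m _ => ?_)
  have h1 : (2 * Real.pi) ^ (-(finrank ℝ W : ℝ) / 2) * (2 * Real.pi) ^ ((finrank ℝ W : ℝ) / 2) = 1 := by
    rw [← Real.rpow_add (by positivity)]
    rw [show -(finrank ℝ W : ℝ) / 2 + (finrank ℝ W : ℝ) / 2 = 0 by ring, Real.rpow_zero]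
  have h2 : Real.exp (-‖V m‖ ^ 2 / 2) = Real.exp (-2 * t ^ 2 * ‖∑ j, (m j : ℝ) • u j‖ ^ 2) := by
    congr 1
    simp only [hV, norm_smul, Real.norm_eq_abs, mul_pow, sq_abs]
    ring
  have h3 : ∏ j, gpa q (m j) ≤ cq q ^ s := by
    calc ∏ j, gpa q (m j) ≤ ∏ _j : Fin s, cq q :=
          Finset.prod_le_prod (fun j _ => gpa_nonneg q _) (fun j _ => gpa_le q _)
      _ = cq q ^ s := by simp
  calc (2 * Real.pi) ^ (-(finrank ℝ W : ℝ) / 2) * ((∏ j, gpa q (m j)) *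
        ((2 * Real.pi) ^ ((finrank ℝ W : ℝ) / 2) * Real.exp (-‖V m‖ ^ 2 / 2)))
      = ((2 * Real.pi) ^ (-(finrank ℝ W : ℝ) / 2) * (2 * Real.pi) ^ ((finrank ℝ W : ℝ) / 2)) *
        ((∏ j, gpa q (m j)) * Real.exp (-‖V m‖ ^ 2 / 2)) := by ring
    _ = (∏ j, gpa q (m j)) * Real.exp (-2 * t ^ 2 * ‖∑ j, (m j : ℝ) • u j‖ ^ 2) := by
        rw [h1, one_mul, h2]
    _ ≤ cq q ^ s * Real.exp (-2 * t ^ 2 * ‖∑ j, (m j : ℝ) • u j‖ ^ 2) :=
        mul_le_mul_of_nonneg_right h3 (Real.exp_nonneg _)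

end Pool.Agent.CMV
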