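import Pool.Agent.CMV.Defs

set_option autoImplicit false

/-!
# Greedy choice of coordinates
-/

namespace Pool.Agent.CMV

open Finset Module
open scoped BigOperators RealInnerProductSpace

namespace Greedy_

variable {ι : Type} [Fintype ι] [DecidableEq ι]

omit [DecidableEq ι] in
theorem inner_proj (V : Submodule ℝ (EuclideanSpace ℝ ι)) (x : EuclideanSpace ℝ ι) :
    ⟪x, V.starProjection x⟫ = ‖V.starProjection x‖ ^ 2 := by
  have h1 : ⟪x - V.starProjection x, V.starProjection x⟫ = 0 :=
    V.starProjection_inner_eq_zero x _ (V.starProjection_apply_mem x)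
  rw [inner_sub_left, sub_eq_zero] at h1
  rw [h1, real_inner_self_eq_norm_sq]

theorem sum_norm_sq (V : Submodule ℝ (EuclideanSpace ℝ ι)) :
    ∑ x : ι, ‖V.starProjection (bv x)‖ ^ 2 = finrank ℝ V := by
  have h1 : LinearMap.IsProj V (V.starProjection : EuclideanSpace ℝ ι →ₗ[ℝ] EuclideanSpace ℝ ι) :=
    ⟨fun x => V.starProjection_apply_mem x, fun x hx => by
      simpa using (Submodule.starProjection_eq_self_iff.mpr hx)⟩
  have h2 := h1.trace
  have h3 := LinearMap.trace_eq_sum_inner
    (V.starProjection : EuclideanSpace ℝ ι →ₗ[ℝ] EuclideanSpace ℝ ι) (EuclideanSpace.basisFun ι ℝ)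
  rw [← h2, h3]
  apply Finset.sum_congr rfl
  intro x _
  rw [← inner_proj]
  simp [bv]

omit [DecidableEq ι] in
/-- the distance of the projection to a smaller subspace -/
theorem dist_ge (W W1 : Submodule ℝ (EuclideanSpace ℝ ι)) (h : W1 ≤ W) (b w : EuclideanSpace ℝ ι)
    (hw : w ∈ W1) : ‖W.starProjection b‖ ^ 2 - ‖W1.starProjection b‖ ^ 2 ≤
      ‖W.starProjection b - w‖ ^ 2 := by
  set v := W.starProjection b with hv
  have h1 : W1.starProjection b = W1.starProjection v := by
    rw [hv]
    have h0 := Submodule.starProjection_comp_starProjection_of_le h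
    exact (congrArg (fun T => T b) h0).symm
  have h2 : ⟪v - W1.starProjection v, W1.starProjection v - w⟫ = 0 :=
    W1.starProjection_inner_eq_zero v _ (W1.sub_mem (W1.starProjection_apply_mem v) hw)
  have h3 : ‖v - w‖ ^ 2 = ‖v - W1.starProjection v‖ ^ 2 + ‖W1.starProjection v - w‖ ^ 2 := by
    have h4 : v - w = (v - W1.starProjection v) + (W1.starProjection v - w) := by abel
    rw [h4, norm_add_sq_real, h2]
    ring
  have h5 : ⟪v - W1.starProjection v, W1.starProjection v⟫ = 0 :=
    W1.starProjection_inner_eq_zero v _ (W1.starProjection_apply_mem v)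
  have h6 : ‖v‖ ^ 2 = ‖v - W1.starProjection v‖ ^ 2 + ‖W1.starProjection v‖ ^ 2 := by
    have h4 : v = (v - W1.starProjection v) + W1.starProjection v := by abel
    conv_lhs => rw [h4, norm_add_sq_real, h5]
    ring
  rw [h1, h3, h6]
  have h7 : 0 ≤ ‖W1.starProjection v - w‖ ^ 2 := by positivity
  linarith

/-- one step -/
theorem step (W : Submodule ℝ (EuclideanSpace ℝ ι)) (s j : ℕ) (hs : finrank ℝ W = s) (hj : j < s)
    (y : Fin j → ι) : ∃ x : ι, ∀ w ∈ Submodule.span ℝ (Set.range fun i => W.starProjection (bv (y i))),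
      ((s : ℝ) - j) / Fintype.card ι ≤ ‖W.starProjection (bv x) - w‖ ^ 2 := by
  set W1 := Submodule.span ℝ (Set.range fun i => W.starProjection (bv (y i))) with hW1
  have hle : W1 ≤ W := by
    rw [hW1, Submodule.span_le]
    rintro _ ⟨i, rfl⟩
    exact W.starProjection_apply_mem _
  have hdim : finrank ℝ W1 ≤ j := by
    have := finrank_range_le_card (R := ℝ) (fun i : Fin j => W.starProjection (bv (y i)))
    rw [Fintype.card_fin] at this
    exact this
  have hne : Nonempty ι := by
    by_contra hem
    rw [not_nonempty_iff] at hem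
    have h1 := Submodule.finrank_le W
    rw [finrank_euclideanSpace, Fintype.card_eq_zero] at h1
    omega
  have hcard : (0 : ℝ) < Fintype.card ι := by exact_mod_cast Fintype.card_pos
  have hsum : ∑ x : ι, (‖W.starProjection (bv x)‖ ^ 2 - ‖W1.starProjection (bv x)‖ ^ 2) =
      (s : ℝ) - finrank ℝ W1 := by
    rw [Finset.sum_sub_distrib, sum_norm_sq, sum_norm_sq, hs]
  obtain ⟨x, hx⟩ : ∃ x : ι, ((s : ℝ) - j) / Fintype.card ι ≤
      ‖W.starProjection (bv x)‖ ^ 2 - ‖W1.starProjection (bv x)‖ ^ 2 := by
    by_contra hcon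
    push Not at hcon
    have h1 : ∑ x : ι, (‖W.starProjection (bv x)‖ ^ 2 - ‖W1.starProjection (bv x)‖ ^ 2) <
        ∑ _x : ι, ((s : ℝ) - j) / Fintype.card ι :=
      Finset.sum_lt_sum_of_nonempty Finset.univ_nonempty fun x _ => hcon x
    rw [hsum, Finset.sum_const, Finset.card_univ, nsmul_eq_mul, mul_div_cancel₀ _ hcard.ne'] at h1
    have h2 : (finrank ℝ W1 : ℝ) ≤ j := by exact_mod_cast hdim
    linarith
  exact ⟨x, fun w hw => hx.trans (dist_ge W W1 hle _ w hw)⟩

end Greedy_

open Greedy_ in
theorem greedy {ι : Type} [Fintype ι] [DecidableEq ι] (W : Submodule ℝ (EuclideanSpace ℝ ι))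
    (s : ℕ) (hs : finrank ℝ W = s) :
    ∃ x : Fin s → ι, ∀ j : Fin s,
      ∀ w ∈ Submodule.span ℝ ((fun i => W.starProjection (bv (x i))) '' {i | i < j}),
        ((s : ℝ) - j) / Fintype.card ι ≤ ‖W.starProjection (bv (x j)) - w‖ ^ 2 := by
  have key : ∀ k : ℕ, k ≤ s → ∃ x : Fin k → ι, ∀ j : Fin k,
      ∀ w ∈ Submodule.span ℝ ((fun i => W.starProjection (bv (x i))) '' {i | i < j}),
        ((s : ℝ) - j) / Fintype.card ι ≤ ‖W.starProjection (bv (x j)) - w‖ ^ 2 := by
    intro k
    induction k with
    | zero => exact fun _ => ⟨Fin.elim0, fun j => j.elim0⟩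
    | succ k ih =>
      intro hk
      obtain ⟨x, hx⟩ := ih (by omega)
      obtain ⟨z, hz⟩ := step W s k hs (by omega) x
      refine ⟨Fin.snoc x z, fun j => ?_⟩
      refine Fin.lastCases ?_ (fun j => ?_) j
      · intro w hw
        have h1 : (fun i => W.starProjection (bv ((Fin.snoc x z : Fin (k + 1) → ι) i))) ''
            {i | i < Fin.last k} = Set.range fun i => W.starProjection (bv (x i)) := by
          ext v
          constructor
          · rintro ⟨i, hi, rfl⟩
            refine ⟨⟨i, hi⟩, ?_⟩
            have h2 : i = Fin.castSucc ⟨i, hi⟩ := by ext; rfl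
            simp only
            conv_rhs => rw [h2, Fin.snoc_castSucc]
          · rintro ⟨i, rfl⟩
            refine ⟨Fin.castSucc i, Fin.castSucc_lt_last i, ?_⟩
            simp only
            rw [Fin.snoc_castSucc]
        rw [h1] at hw
        have h3 := hz w hw
        rw [Fin.snoc_last, Fin.val_last]
        exact h3
      · intro w hw
        have h1 : (fun i => W.starProjection (bv ((Fin.snoc x z : Fin (k + 1) → ι) i))) ''
            {i | i < Fin.castSucc j} = (fun i => W.starProjection (bv (x i))) '' {i | i < j} := by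
          ext v
          constructor
          · rintro ⟨i, hi, rfl⟩
            have hik : (i : ℕ) < k := lt_trans hi j.isLt
            refine ⟨⟨i, hik⟩, hi, ?_⟩
            have h2 : i = Fin.castSucc ⟨i, hik⟩ := by ext; rfl
            simp only
            conv_rhs => rw [h2, Fin.snoc_castSucc]
          · rintro ⟨i, hi, rfl⟩
            refine ⟨Fin.castSucc i, hi, ?_⟩
            simp only
            rw [Fin.snoc_castSucc]
        rw [h1] at hw
        have h3 := hx j w hw
        rw [Fin.snoc_castSucc, Fin.val_castSucc]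
        exact h3
  obtain ⟨x, hx⟩ := key s le_rfl
  exact ⟨x, hx⟩

end Pool.Agent.CMV
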