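import Pool.Agent.CMV.Defs

/-!
# CMV-SC: the sum of `cos` over all sign vectors
-/

set_option autoImplicit false

namespace Pool.Agent.CMV

theorem sum_cos {ι : Type} [Fintype ι] [DecidableEq ι] (y : ι → ℝ) :
    ∑ a : ι → Bool, Real.cos (∑ i, sg (a i) * y i) =
      2 ^ Fintype.card ι * ∏ i, Real.cos (y i) := by
  have h1 : ∏ i : ι, ∑ b : Bool, Complex.exp (((sg b * y i : ℝ) : ℂ) * Complex.I) =
      ∑ a : ι → Bool, ∏ i, Complex.exp (((sg (a i) * y i : ℝ) : ℂ) * Complex.I) :=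
    Fintype.prod_sum _
  have h2 : ∀ a : ι → Bool, ∏ i, Complex.exp (((sg (a i) * y i : ℝ) : ℂ) * Complex.I) =
      Complex.exp (((∑ i, sg (a i) * y i : ℝ) : ℂ) * Complex.I) := by
    intro a
    rw [← Complex.exp_sum]
    congr 1
    push_cast
    rw [Finset.sum_mul]
  have h3 : ∀ i : ι, ∑ b : Bool, Complex.exp (((sg b * y i : ℝ) : ℂ) * Complex.I) =
      ((2 * Real.cos (y i) : ℝ) : ℂ) := by
    intro i
    rw [Fintype.sum_bool]
    simp only [sg]
    push_cast
    rw [Complex.cos]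
    simp
    ring
  have h4 : (∑ a : ι → Bool, Complex.exp (((∑ i, sg (a i) * y i : ℝ) : ℂ) * Complex.I)).re =
      ∑ a : ι → Bool, Real.cos (∑ i, sg (a i) * y i) := by
    rw [Complex.re_sum]
    exact Finset.sum_congr rfl fun a _ => Complex.exp_ofReal_mul_I_re _
  rw [← h4, ← Finset.sum_congr rfl fun a _ => h2 a, ← h1, Finset.prod_congr rfl fun i _ => h3 i,
    ← Complex.ofReal_prod, Complex.ofReal_re, Finset.prod_mul_distrib, Finset.prod_const,
    Finset.card_univ]

end Pool.Agent.CMV
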