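import Mathlib
import Pool.Agent.CMV.Defs

set_option autoImplicit false
set_option maxHeartbeats 1000000

/-!
# Theta series of a triangular system
-/

namespace Pool.Agent.CMV

open Finset Module
open scoped BigOperators RealInnerProductSpace

namespace Theta_

/-- Pythagoras and Cauchy-Schwarz -/
theorem step {W : Type} [NormedAddCommGroup W] [InnerProductSpace ℝ W]
    (U : Submodule ℝ W) [U.HasOrthogonalProjection] (p y us : W) (hy : y ∈ U) (a : ℝ)
    (hv : 0 < ‖us - U.starProjection us‖) :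
    ‖U.starProjection p + a • U.starProjection us + y‖ ^ 2 +
      ‖us - U.starProjection us‖ ^ 2 *
        (a + ⟪p - U.starProjection p, us - U.starProjection us⟫ /
          ‖us - U.starProjection us‖ ^ 2) ^ 2 ≤ ‖p + (y + a • us)‖ ^ 2 := by
  obtain ⟨v, hvd⟩ : ∃ v, v = us - U.starProjection us := ⟨_, rfl⟩
  obtain ⟨r, hrd⟩ : ∃ r, r = p - U.starProjection p := ⟨_, rfl⟩
  obtain ⟨x, hxd⟩ : ∃ x, x = U.starProjection p + a • U.starProjection us + y := ⟨_, rfl⟩
  rw [← hvd, ← hrd, ← hxd]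
  rw [← hvd] at hv
  have hx : x ∈ U := by
    rw [hxd]
    exact U.add_mem (U.add_mem (Submodule.starProjection_apply_mem U p)
      (U.smul_mem _ (Submodule.starProjection_apply_mem U us))) hy
  have hv0 : v ∈ Uᗮ := by
    rw [hvd]
    exact Submodule.sub_starProjection_mem_orthogonal us
  have hr0 : r ∈ Uᗮ := by
    rw [hrd]
    exact Submodule.sub_starProjection_mem_orthogonal p
  have hz : r + a • v ∈ Uᗮ := Uᗮ.add_mem hr0 (Uᗮ.smul_mem _ hv0)
  have hsum : p + (y + a • us) = x + (r + a • v) := by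
    rw [hxd, hrd, hvd]
    module
  have horth : ⟪x, r + a • v⟫ = 0 := Submodule.inner_right_of_mem_orthogonal hx hz
  have hpyth : ‖x + (r + a • v)‖ ^ 2 = ‖x‖ ^ 2 + ‖r + a • v‖ ^ 2 := by
    rw [norm_add_sq_real, horth]
    ring
  rw [hsum, hpyth]
  have hcs : ⟪r + a • v, v⟫ ^ 2 ≤ ‖r + a • v‖ ^ 2 * ‖v‖ ^ 2 := by
    have h1 := abs_real_inner_le_norm (r + a • v) v
    have h2 : ⟪r + a • v, v⟫ ^ 2 = |⟪r + a • v, v⟫| ^ 2 := (sq_abs _).symm
    rw [h2, ← mul_pow]
    exact pow_le_pow_left₀ (abs_nonneg _) h1 2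
  have hin : ⟪r + a • v, v⟫ = ⟪r, v⟫ + a * ‖v‖ ^ 2 := by
    rw [inner_add_left, inner_smul_left, real_inner_self_eq_norm_sq]
    simp
  rw [hin] at hcs
  have hv2 : 0 < ‖v‖ ^ 2 := pow_pos hv 2
  have hfin : ‖v‖ ^ 2 * (a + ⟪r, v⟫ / ‖v‖ ^ 2) ^ 2 ≤ ‖r + a • v‖ ^ 2 := by
    have h3 : ‖v‖ ^ 2 * (a + ⟪r, v⟫ / ‖v‖ ^ 2) ^ 2 = (⟪r, v⟫ + a * ‖v‖ ^ 2) ^ 2 / ‖v‖ ^ 2 := by
      field_simp
      ring
    rw [h3, div_le_iff₀ hv2]
    exact hcs
  linarith

theorem sum_snoc {s : ℕ} (M : Finset ℤ) (f : (Fin (s + 1) → ℤ) → ℝ) :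
    ∑ m ∈ Fintype.piFinset (fun _ : Fin (s + 1) => M), f m =
      ∑ a ∈ M, ∑ m ∈ Fintype.piFinset (fun _ : Fin s => M),
        f (Fin.snoc (α := fun _ => ℤ) m a) := by
  rw [← Finset.sum_product']
  symm
  refine Finset.sum_nbij' (fun q : ℤ × (Fin s → ℤ) => Fin.snoc (α := fun _ => ℤ) q.2 q.1)
    (fun m => (m (Fin.last s), fun j => m (Fin.castSucc j))) ?_ ?_ ?_ ?_ ?_
  · intro q hq
    rw [Finset.mem_product, Fintype.mem_piFinset] at hq
    rw [Fintype.mem_piFinset]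
    intro j
    refine Fin.lastCases ?_ (fun j => ?_) j
    · simpa using hq.1
    · simpa using hq.2 j
  · intro m hm
    rw [Fintype.mem_piFinset] at hm
    rw [Finset.mem_product, Fintype.mem_piFinset]
    exact ⟨hm _, fun j => hm _⟩
  · intro q hq
    simp
  · intro m hm
    funext j
    refine Fin.lastCases ?_ (fun j => ?_) j
    · simp
    · simp
  · intro q hq
    rfl

end Theta_

open Theta_ in
theorem theta {W : Type} [NormedAddCommGroup W] [InnerProductSpace ℝ W] [FiniteDimensional ℝ W]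
    (h1 : ∀ (β θ : ℝ), 0 < β → ∀ M : Finset ℤ,
      ∑ m ∈ M, Real.exp (-β * ((m : ℝ) + θ) ^ 2) ≤ 1 + √(Real.pi / β))
    (s : ℕ) (u : Fin s → W) (σ : Fin s → ℝ) (hσ : ∀ j, 0 < σ j)
    (hu : ∀ j, ∀ w ∈ Submodule.span ℝ (u '' {i | i < j}), σ j ≤ ‖u j - w‖)
    (α : ℝ) (hα : 0 < α) (M : Finset ℤ) (p : W) :
    ∑ m ∈ Fintype.piFinset (fun _ : Fin s => M), Real.exp (-α * ‖p + ∑ j, (m j : ℝ) • u j‖ ^ 2) ≤
      ∏ j, (1 + √(Real.pi / α) / σ j) := by
  induction s generalizing p with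
  | zero =>
    rw [Fintype.piFinset_of_isEmpty]
    simp only [Finset.univ_eq_empty, Finset.sum_empty, Finset.prod_empty]
    rw [Fintype.sum_unique]
    refine Real.exp_le_one_iff.mpr ?_
    have := sq_nonneg ‖p + 0‖
    nlinarith
  | succ s ih =>
    have hu' : ∀ j : Fin s, ∀ w ∈ Submodule.span ℝ ((fun j : Fin s => u (Fin.castSucc j)) ''
        {i | i < j}), σ (Fin.castSucc j) ≤ ‖u (Fin.castSucc j) - w‖ := by
      intro j w hw
      refine hu (Fin.castSucc j) w (Submodule.span_mono ?_ hw)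
      rintro _ ⟨i, hi, rfl⟩
      exact ⟨Fin.castSucc i, Fin.castSucc_lt_castSucc_iff.mpr hi, rfl⟩
    have ih' := ih (fun j => u (Fin.castSucc j)) (fun j => σ (Fin.castSucc j))
      (fun j => hσ _) hu'
    obtain ⟨U, hU⟩ : ∃ U : Submodule ℝ W, U = Submodule.span ℝ (u '' {i | i < Fin.last s}) :=
      ⟨_, rfl⟩
    obtain ⟨us, hus⟩ : ∃ us, us = u (Fin.last s) := ⟨_, rfl⟩
    have hsig : σ (Fin.last s) ≤ ‖us - U.starProjection us‖ := by
      rw [hus]
      refine hu (Fin.last s) _ ?_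
      rw [← hU]
      exact Submodule.starProjection_apply_mem U _
    have hspos := hσ (Fin.last s)
    have hvpos : 0 < ‖us - U.starProjection us‖ := lt_of_lt_of_le hspos hsig
    rw [sum_snoc, Fin.prod_univ_castSucc]
    obtain ⟨P, hP⟩ : ∃ P, P = ∏ j : Fin s, (1 + √(Real.pi / α) / σ (Fin.castSucc j)) :=
      ⟨_, rfl⟩
    have hP0 : 0 ≤ P := by
      rw [hP]
      refine Finset.prod_nonneg fun j _ => ?_
      have := div_nonneg (Real.sqrt_nonneg (Real.pi / α)) (hσ (Fin.castSucc j)).le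
      linarith
    obtain ⟨θ, hθ⟩ : ∃ θ, θ = ⟪p - U.starProjection p, us - U.starProjection us⟫ /
      ‖us - U.starProjection us‖ ^ 2 := ⟨_, rfl⟩
    obtain ⟨β, hβ⟩ : ∃ β, β = α * ‖us - U.starProjection us‖ ^ 2 := ⟨_, rfl⟩
    have hβ0 : 0 < β := by
      rw [hβ]
      exact mul_pos hα (pow_pos hvpos 2)
    have hinner : ∀ a ∈ M, ∑ m ∈ Fintype.piFinset (fun _ : Fin s => M),
        Real.exp (-α * ‖p + ∑ j, ((Fin.snoc (α := fun _ => ℤ) m a : Fin (s + 1) → ℤ) j : ℝ) •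
          u j‖ ^ 2) ≤ P * Real.exp (-β * ((a : ℝ) + θ) ^ 2) := by
      intro a _
      have hterm : ∀ m ∈ Fintype.piFinset (fun _ : Fin s => M),
          Real.exp (-α * ‖p + ∑ j, ((Fin.snoc (α := fun _ => ℤ) m a : Fin (s + 1) → ℤ) j : ℝ) •
            u j‖ ^ 2) ≤ Real.exp (-α * ‖(U.starProjection p + (a : ℝ) • U.starProjection us) +
              ∑ j, (m j : ℝ) • u (Fin.castSucc j)‖ ^ 2) *
                Real.exp (-β * ((a : ℝ) + θ) ^ 2) := by
        intro m _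
        rw [← Real.exp_add, Real.exp_le_exp, Fin.sum_univ_castSucc]
        simp only [Fin.snoc_castSucc, Fin.snoc_last]
        have hmem : ∑ j : Fin s, (m j : ℝ) • u (Fin.castSucc j) ∈ U := by
          refine U.sum_mem fun j _ => U.smul_mem _ ?_
          rw [hU]
          exact Submodule.subset_span ⟨Fin.castSucc j, Fin.castSucc_lt_last j, rfl⟩
        have h := step U p (∑ j : Fin s, (m j : ℝ) • u (Fin.castSucc j)) us hmem (a : ℝ) hvpos
        rw [← hθ] at h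
        rw [← hus, hβ]
        nlinarith
      refine (Finset.sum_le_sum hterm).trans ?_
      rw [← Finset.sum_mul]
      refine mul_le_mul_of_nonneg_right ?_ (Real.exp_nonneg _)
      rw [hP]
      exact ih' (U.starProjection p + (a : ℝ) • U.starProjection us)
    refine (Finset.sum_le_sum hinner).trans ?_
    rw [← Finset.mul_sum, ← hP]
    refine mul_le_mul_of_nonneg_left ((h1 β θ hβ0 M).trans ?_) hP0
    have h4 : √(Real.pi / β) = √(Real.pi / α) / ‖us - U.starProjection us‖ := by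
      rw [hβ, ← div_div, Real.sqrt_div (div_nonneg Real.pi_pos.le hα.le),
        Real.sqrt_sq (norm_nonneg _)]
    rw [h4]
    have h5 := div_le_div_of_nonneg_left (Real.sqrt_nonneg (Real.pi / α)) hspos hsig
    linarith

end Pool.Agent.CMV
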