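import Mathlib

/-!
# A one-dimensional theta function is at most one plus its integral (job CMV-T1)
-/

open MeasureTheory Set

namespace Pool.Agent.CMV

namespace ThetaOne_

variable {β : ℝ}

/-- The Gaussian. -/
noncomputable def f (β x : ℝ) : ℝ := Real.exp (-β * x ^ 2)

theorem f_nonneg (β x : ℝ) : 0 ≤ f β x := (Real.exp_pos _).le

theorem f_le_one (hβ : 0 < β) (x : ℝ) : f β x ≤ 1 := by
  unfold f
  rw [Real.exp_le_one_iff]
  nlinarith [sq_nonneg x]

theorem f_neg (β x : ℝ) : f β (-x) = f β x := by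
  unfold f
  rw [neg_sq]

theorem f_int (hβ : 0 < β) : Integrable (f β) := integrable_exp_neg_mul_sq hβ

theorem f_anti (hβ : 0 < β) {x y : ℝ} (h : |x| ≤ |y|) : f β y ≤ f β x := by
  unfold f
  rw [Real.exp_le_exp]
  have := sq_le_sq.2 h
  nlinarith

/-- The value at the end of an interval of length one. -/
theorem le_int (hβ : 0 < β) {a y : ℝ} (h : ∀ x ∈ Ioc a (a + 1), |x| ≤ |y|) :
    f β y ≤ ∫ x in Ioc a (a + 1), f β x := by
  have h1 : ∫ _ in Ioc a (a + 1), f β y = f β y := by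
    rw [setIntegral_const]
    simp
  rw [← h1]
  refine setIntegral_mono_on (integrableOn_const (by simp)) (f_int hβ).integrableOn
    measurableSet_Ioc fun x hx => ?_
  exact f_anti hβ (h x hx)

theorem half (hβ : 0 < β) (c θ : ℝ) (hc : 0 ≤ c) (P : Finset ℤ)
    (hP : ∀ m ∈ P, c ≤ θ - 1 + m) :
    ∑ m ∈ P, f β ((m : ℝ) + θ) ≤ ∫ x in Ioi c, f β x := by
  calc ∑ m ∈ P, f β ((m : ℝ) + θ)
      ≤ ∑ m ∈ P, ∫ x in Ioc (θ - 1 + (m : ℝ)) (θ - 1 + (m : ℝ) + 1), f β x := by
        refine Finset.sum_le_sum fun m hm => le_int hβ fun x hx => ?_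
        have h1 := hP m hm
        rw [abs_of_nonneg (by linarith [hx.1]), abs_of_nonneg (by linarith)]
        linarith [hx.2]
    _ = ∫ x in ⋃ m ∈ P, Ioc (θ - 1 + (m : ℝ)) (θ - 1 + (m : ℝ) + 1), f β x := by
        rw [integral_biUnion_finset P (fun _ _ => measurableSet_Ioc)
          (fun i _ j _ hij => pairwise_disjoint_Ioc_add_intCast (θ - 1) hij)
          (fun _ _ => (f_int hβ).integrableOn)]
    _ ≤ ∫ x in Ioi c, f β x := by
        refine setIntegral_mono_set (f_int hβ).integrableOn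
          (Filter.Eventually.of_forall fun x => f_nonneg β x) (LE.le.eventuallyLE ?_)
        intro x hx
        rw [mem_iUnion₂] at hx
        obtain ⟨m, hm, hx⟩ := hx
        exact lt_of_le_of_lt (hP m hm) hx.1

/-- The two middle values. -/
theorem middle (hβ : 0 < β) {φ : ℝ} (h0 : 0 ≤ φ) (h1 : φ ≤ 1) :
    f β φ + f β (φ - 1) ≤ 1 + ∫ x in Ioc (φ - 1) (φ - 1 + 1), f β x := by
  rcases le_total |φ| |φ - 1| with h | h
  · have h2 : f β (φ - 1) ≤ ∫ x in Ioc (φ - 1) (φ - 1 + 1), f β x := by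
      refine le_int hβ fun x hx => ?_
      rw [abs_of_nonneg h0, abs_of_nonpos (by linarith)] at h
      rw [abs_of_nonpos (show φ - 1 ≤ 0 by linarith)]
      rw [abs_le]
      exact ⟨by linarith [hx.1], by linarith [hx.2]⟩
    linarith [f_le_one hβ φ]
  · have h2 : f β φ ≤ ∫ x in Ioc (φ - 1) (φ - 1 + 1), f β x := by
      refine le_int hβ fun x hx => ?_
      rw [abs_of_nonneg h0, abs_of_nonpos (show φ - 1 ≤ 0 by linarith)] at h
      rw [abs_of_nonneg h0]
      rw [abs_le]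
      exact ⟨by linarith [hx.1], by linarith [hx.2]⟩
    linarith [f_le_one hβ (φ - 1)]

end ThetaOne_

open ThetaOne_ in
/-- CMV-T1 -/
theorem theta_one (β θ : ℝ) (hβ : 0 < β) (M : Finset ℤ) :
    ∑ m ∈ M, Real.exp (-β * ((m : ℝ) + θ) ^ 2) ≤ 1 + √(Real.pi / β) := by
  change ∑ m ∈ M, f β ((m : ℝ) + θ) ≤ 1 + √(Real.pi / β)
  set k : ℤ := ⌊θ⌋ with hk
  set φ : ℝ := θ - k with hφ
  have h0 : 0 ≤ φ := by
    have := Int.floor_le θ
    rw [hφ]; linarith
  have h1 : φ < 1 := by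
    have := Int.lt_floor_add_one θ
    rw [hφ]; linarith
  have hpos : ∑ m ∈ M.filter (fun m => 1 ≤ m + k), f β ((m : ℝ) + θ) ≤ ∫ x in Ioi φ, f β x := by
    refine half hβ φ θ h0 _ fun m hm => ?_
    have h2 : ((1 : ℤ) : ℝ) ≤ ((m + k : ℤ) : ℝ) := by exact_mod_cast (Finset.mem_filter.1 hm).2
    push_cast at h2
    rw [hφ]; linarith
  have hneg : ∑ m ∈ M.filter (fun m => m + k ≤ -2), f β ((m : ℝ) + θ) ≤
      ∫ x in Iic (φ - 1), f β x := by
    have h2 := half hβ (1 - φ) (-θ) (by linarith)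
      ((M.filter (fun m => m + k ≤ -2)).image (fun m => -m)) (by
        intro m hm
        obtain ⟨m', hm', rfl⟩ := Finset.mem_image.1 hm
        have h3 : ((m' + k : ℤ) : ℝ) ≤ ((-2 : ℤ) : ℝ) := by
          exact_mod_cast (Finset.mem_filter.1 hm').2
        push_cast at h3 ⊢
        rw [hφ]; linarith)
    rw [Finset.sum_image (by intro a _ b _ hab; simpa using hab)] at h2
    have h3 : ∫ x in Ioi (1 - φ), f β x = ∫ x in Iic (φ - 1), f β x := by
      have h4 := integral_comp_neg_Ioi (1 - φ) (f β)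
      simp only [f_neg] at h4
      rw [h4]
      congr 2
      ring_nf
    rw [h3] at h2
    refine le_trans (le_of_eq ?_) h2
    refine Finset.sum_congr rfl fun m _ => ?_
    rw [← f_neg]
    congr 1
    push_cast
    ring
  have hmid : ∑ m ∈ M.filter (fun m => ¬ (1 ≤ m + k) ∧ ¬ (m + k ≤ -2)), f β ((m : ℝ) + θ) ≤
      1 + ∫ x in Ioc (φ - 1) (φ - 1 + 1), f β x := by
    refine le_trans ?_ (middle hβ h0 h1.le)
    have h2 : M.filter (fun m => ¬ (1 ≤ m + k) ∧ ¬ (m + k ≤ -2)) ⊆ {-k, -k - 1} := by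
      intro m hm
      have h3 := (Finset.mem_filter.1 hm).2
      rw [Finset.mem_insert, Finset.mem_singleton]
      omega
    refine (Finset.sum_le_sum_of_subset_of_nonneg h2 (fun _ _ _ => f_nonneg _ _)).trans
      (le_of_eq ?_)
    rw [Finset.sum_pair (by omega)]
    congr 2
    · push_cast; rw [hφ]; ring
    · push_cast; rw [hφ]; ring
  have hsplit : ∑ m ∈ M, f β ((m : ℝ) + θ) =
      ∑ m ∈ M.filter (fun m => 1 ≤ m + k), f β ((m : ℝ) + θ) +
      (∑ m ∈ M.filter (fun m => m + k ≤ -2), f β ((m : ℝ) + θ) +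
       ∑ m ∈ M.filter (fun m => ¬ (1 ≤ m + k) ∧ ¬ (m + k ≤ -2)), f β ((m : ℝ) + θ)) := by
    rw [← Finset.sum_filter_add_sum_filter_not M (fun m => 1 ≤ m + k)]
    congr 1
    rw [← Finset.sum_filter_add_sum_filter_not (M.filter (fun m => ¬ (1 ≤ m + k)))
      (fun m => m + k ≤ -2), Finset.filter_filter, Finset.filter_filter]
    congr 1
    refine Finset.sum_congr ?_ fun _ _ => rfl
    ext m
    simp only [Finset.mem_filter]
    constructor
    · rintro ⟨h2, h3, h4⟩; exact ⟨h2, h4⟩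
    · rintro ⟨h2, h3⟩; exact ⟨h2, by omega, h3⟩
  have htot : ∫ x, f β x = (∫ x in Iic (φ - 1), f β x) +
      ((∫ x in Ioc (φ - 1) (φ - 1 + 1), f β x) + ∫ x in Ioi φ, f β x) := by
    have e1 : φ - 1 + 1 = φ := by ring
    rw [e1, ← setIntegral_union (Set.Ioc_disjoint_Ioi le_rfl) measurableSet_Ioi
      (f_int hβ).integrableOn (f_int hβ).integrableOn, Ioc_union_Ioi_eq_Ioi (by linarith),
      ← setIntegral_union (Iic_disjoint_Ioi le_rfl) measurableSet_Ioi
      (f_int hβ).integrableOn (f_int hβ).integrableOn, Iic_union_Ioi, setIntegral_univ]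
  have hg : ∫ x, f β x = √(Real.pi / β) := integral_gaussian β
  rw [← hg, htot, hsplit]
  linarith

end Pool.Agent.CMV
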