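import Mathlib
import Pool.Agent.CMV.Defs
import Pool.Agent.CMV.GaussCos
import Pool.Agent.CMV.GaussProd
import Pool.Agent.CMV.SumCos
import Pool.Agent.CMV.AmGm
import Pool.Agent.CMV.ThetaOne
import Pool.Agent.CMV.Theta
import Pool.Agent.CMV.Greedy
import Pool.Agent.CMV.CentralB

set_option autoImplicit false
set_option linter.unusedSectionVars false

/-!
# Small ball probabilities of projections of sign vectors
-/

namespace Pool.Agent.CMV

open Finset Module MeasureTheory
open scoped BigOperators RealInnerProductSpace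

variable {ι : Type} [Fintype ι] [DecidableEq ι]

theorem integrable_gauss_mul {W : Type} [NormedAddCommGroup W] [InnerProductSpace ℝ W]
    [FiniteDimensional ℝ W] [MeasurableSpace W] [BorelSpace W] (F : W → ℝ) (hF : Continuous F)
    (C : ℝ) (hC : ∀ w, |F w| ≤ C) :
    Integrable (fun g : W => Real.exp (-‖g‖ ^ 2 / 2) * F g) := by
  have h1 : Integrable (fun g : W => Real.exp (-(1 / 2 : ℝ) * ‖g‖ ^ 2)) := by
    have := GaussianFourier.integrable_cexp_neg_mul_sq_norm_add (V := W) (b := (1 / 2 : ℂ))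
      (by norm_num) 0 0
    have h2 := this.norm
    refine h2.congr (Filter.Eventually.of_forall fun g => ?_)
    simp only [Complex.norm_exp]
    congr 1
    simp
    rw [← Complex.ofReal_pow, Complex.ofReal_re]
  have h2 : Integrable (fun g : W => Real.exp (-‖g‖ ^ 2 / 2)) := by
    refine h1.congr (Filter.Eventually.of_forall fun g => ?_)
    simp only
    congr 1
    ring
  refine h2.mul_bdd (c := C) hF.aestronglyMeasurable (Filter.Eventually.of_forall fun g => ?_)
  exact hC g

theorem bv_apply_inner (i : ι) (v : EuclideanSpace ℝ ι) : ⟪bv i, v⟫ = v i := by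
  unfold bv
  rw [EuclideanSpace.inner_single_left]
  simp

theorem starProjection_equi
    {G : Subgroup (EuclideanSpace ℝ ι ≃ₗᵢ[ℝ] EuclideanSpace ℝ ι)}
    {W : Submodule ℝ (EuclideanSpace ℝ ι)} (hW : Stable G W)
    (g : EuclideanSpace ℝ ι ≃ₗᵢ[ℝ] EuclideanSpace ℝ ι) (hg : g ∈ G) (v : EuclideanSpace ℝ ι) :
    W.starProjection (g v) = g (W.starProjection v) := by
  refine Submodule.eq_starProjection_of_mem_of_inner_eq_zero
    (hW g hg _ (Submodule.starProjection_apply_mem _ _)) fun w hw => ?_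
  have h1 : g⁻¹ w ∈ W := hW _ (G.inv_mem hg) _ hw
  have h2 := Submodule.starProjection_inner_eq_zero v (g⁻¹ w) h1
  rw [← map_sub]
  have h3 : w = g (g⁻¹ w) := (g.apply_symm_apply w).symm
  rw [h3, g.inner_map_map]
  exact h2

theorem inner_sv (v : EuclideanSpace ℝ ι) (a : ι → Bool) : ⟪v, sv a⟫ = ∑ i, sg (a i) * v i := by
  rw [PiLp.inner_apply]
  refine Finset.sum_congr rfl fun i _ => ?_
  simp [sv]

theorem mgf_bound
    (G : Subgroup (EuclideanSpace ℝ ι ≃ₗᵢ[ℝ] EuclideanSpace ℝ ι)) (hG : Signed G)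
    (W : Submodule ℝ (EuclideanSpace ℝ ι)) (hW : Stable G W) (s : ℕ) (hs : finrank ℝ W = s)
    (q : ℕ) (hqs : 2 * q * s ≤ Fintype.card ι) (t : ℝ) (ht : t ≠ 0)
    (hι : 0 < Fintype.card ι) :
    ∑ a : ι → Bool, Real.exp (-‖t • W.starProjection (sv a)‖ ^ 2 / 2) ≤
      2 ^ Fintype.card ι * (cq q ^ s *
        ∏ j : Fin s, (1 + √(Real.pi / (2 * t ^ 2)) / √(((s : ℝ) - j) / Fintype.card ι))) := by
  classical
  have := hG.fin
  have := Fintype.ofFinite G
  obtain ⟨x, hx⟩ := greedy W s hs
  set c : ℝ := (2 * Real.pi) ^ (-(finrank ℝ W : ℝ) / 2) with hc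
  have hc0 : 0 < c := Real.rpow_pos_of_pos (by positivity) _
  set R : ℝ := cq q ^ s *
        ∏ j : Fin s, (1 + √(Real.pi / (2 * t ^ 2)) / √(((s : ℝ) - j) / Fintype.card ι)) with hR
  -- the vectors
  let u : G → Fin s → W := fun γ j =>
    W.orthogonalProjectionOnto ((γ : EuclideanSpace ℝ ι ≃ₗᵢ[ℝ] EuclideanSpace ℝ ι)⁻¹ (bv (x j)))
  have hu : ∀ γ j, ((u γ j : W) : EuclideanSpace ℝ ι) =
      (γ : EuclideanSpace ℝ ι ≃ₗᵢ[ℝ] EuclideanSpace ℝ ι)⁻¹ (W.starProjection (bv (x j))) := by
    intro γ j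
    show W.starProjection _ = _
    exact starProjection_equi hW _ (G.inv_mem γ.2) _
  -- the bound for each group element
  have hD : ∀ γ : G, c * ∫ g : W, Real.exp (-‖g‖ ^ 2 / 2) *
      ∏ j, Real.cos (t * ⟪g, u γ j⟫) ^ (2 * q) ≤ R := by
    intro γ
    refine (gauss_prod_cos W s q (u γ) t).trans ?_
    rw [hR]
    refine mul_le_mul_of_nonneg_left ?_ (pow_nonneg (cq_pos q).le _)
    have h1 := theta (W := W) (fun β θ hβ M => theta_one β θ hβ M) s (u γ)
      (fun j => √(((s : ℝ) - j) / Fintype.card ι)) ?_ ?_ (2 * t ^ 2) (by positivity)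
      (Finset.Icc (-(q : ℤ)) q) 0
    · refine le_trans (le_of_eq ?_) h1
      refine Finset.sum_congr rfl fun m _ => ?_
      rw [zero_add]
      congr 1
      ring
    · intro j
      apply Real.sqrt_pos.2
      have : (j : ℝ) < s := by exact_mod_cast j.2
      have h2 : (0 : ℝ) < Fintype.card ι := by exact_mod_cast hι
      exact div_pos (by linarith) h2
    · intro j w hw
      -- transport by the group element
      let γ' : EuclideanSpace ℝ ι ≃ₗᵢ[ℝ] EuclideanSpace ℝ ι := γ.1
      have h2 : γ' (w : EuclideanSpace ℝ ι) ∈ Submodule.span ℝ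
          ((fun i => W.starProjection (bv (x i))) '' {i | i < j}) := by
        have h3 : w ∈ (Submodule.span ℝ ((fun i => W.starProjection (bv (x i))) ''
            {i | i < j})).comap ((γ'.toLinearEquiv : EuclideanSpace ℝ ι →ₗ[ℝ]
              EuclideanSpace ℝ ι) ∘ₗ W.subtype) := by
          refine (Submodule.span_le.2 ?_) hw
          rintro _ ⟨i, hi, rfl⟩
          show γ' ((u γ i : W) : EuclideanSpace ℝ ι) ∈ Submodule.span ℝ
            ((fun i => W.starProjection (bv (x i))) '' {i | i < j})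
          rw [hu]
          have h4 : γ' ((γ : EuclideanSpace ℝ ι ≃ₗᵢ[ℝ] EuclideanSpace ℝ ι)⁻¹
              (W.starProjection (bv (x i)))) = W.starProjection (bv (x i)) :=
            γ'.apply_symm_apply _
          rw [h4]
          exact Submodule.subset_span ⟨i, hi, rfl⟩
        exact h3
      have h3 := hx j _ h2
      have h4 : ‖W.starProjection (bv (x j)) - γ' (w : EuclideanSpace ℝ ι)‖ = ‖u γ j - w‖ := by
        show _ = ‖((u γ j : W) : EuclideanSpace ℝ ι) - (w : EuclideanSpace ℝ ι)‖
        rw [hu, ← γ'.norm_map (_ - (w : EuclideanSpace ℝ ι)), map_sub]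
        congr 2
        exact (γ'.apply_symm_apply _).symm
      rw [h4] at h3
      exact Real.sqrt_le_iff.2 ⟨norm_nonneg _, h3⟩
  -- the transform
  have hA : ∀ a : ι → Bool, Real.exp (-‖t • W.starProjection (sv a)‖ ^ 2 / 2) =
      c * ∫ g : W, Real.exp (-‖g‖ ^ 2 / 2) *
        Real.cos (∑ i, sg (a i) * (t * (g : EuclideanSpace ℝ ι) i)) := by
    intro a
    have h1 := gauss_cos W (t • W.orthogonalProjectionOnto (sv a))
    have h2 : ‖t • W.orthogonalProjectionOnto (sv a)‖ = ‖t • W.starProjection (sv a)‖ := by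
      rfl
    rw [h2] at h1
    rw [← h1]
    congr 1
    refine integral_congr_ae (Filter.Eventually.of_forall fun g => ?_)
    simp only
    congr 2
    have h3 : ⟪g, t • W.orthogonalProjectionOnto (sv a)⟫ =
        t * ⟪g, W.orthogonalProjectionOnto (sv a)⟫ := by
      show ⟪(g : EuclideanSpace ℝ ι), t • W.starProjection (sv a)⟫ =
        t * ⟪(g : EuclideanSpace ℝ ι), W.starProjection (sv a)⟫
      exact real_inner_smul_right _ _ _
    rw [h3, Submodule.inner_orthogonalProjectionOnto_eq_of_mem_left, inner_sv,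
      Finset.mul_sum]
    refine Finset.sum_congr rfl fun i _ => ?_
    ring
  have hcontc : ∀ i : ι, Continuous (fun g : W => t * (g : EuclideanSpace ℝ ι) i) := by
    intro i
    have h1 : Continuous (fun g : W => ⟪bv i, (g : EuclideanSpace ℝ ι)⟫) := by fun_prop
    simp only [bv_apply_inner] at h1
    exact continuous_const.mul h1
  calc ∑ a : ι → Bool, Real.exp (-‖t • W.starProjection (sv a)‖ ^ 2 / 2)
      = ∑ a : ι → Bool, c * ∫ g : W, Real.exp (-‖g‖ ^ 2 / 2) *
        Real.cos (∑ i, sg (a i) * (t * (g : EuclideanSpace ℝ ι) i)) :=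
        Finset.sum_congr rfl fun a _ => hA a
    _ = c * ∫ g : W, Real.exp (-‖g‖ ^ 2 / 2) *
        (2 ^ Fintype.card ι * ∏ i, Real.cos (t * (g : EuclideanSpace ℝ ι) i)) := by
        rw [← Finset.mul_sum, ← integral_finsetSum]
        · congr 1
          refine integral_congr_ae (Filter.Eventually.of_forall fun g => ?_)
          simp only
          rw [← Finset.mul_sum, sum_cos]
        · intro a _
          refine integrable_gauss_mul _ ?_ 1 (fun w => Real.abs_cos_le_one _)
          refine Real.continuous_cos.comp ?_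
          exact continuous_finsetSum _ fun i _ => continuous_const.mul (hcontc i)
    _ ≤ c * ∫ g : W, Real.exp (-‖g‖ ^ 2 / 2) *
        (2 ^ Fintype.card ι * ((1 / (Fintype.card G : ℝ)) *
          ∑ γ : G, ∏ j, Real.cos (t * ⟪g, u γ j⟫) ^ (2 * q))) := by
        refine mul_le_mul_of_nonneg_left ?_ hc0.le
        refine integral_mono ?_ ?_ fun g => ?_
        · refine integrable_gauss_mul _ ?_ (2 ^ Fintype.card ι) (fun w => ?_)
          · exact continuous_const.mul (continuous_finsetProd _ fun i _ =>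
              Real.continuous_cos.comp (hcontc i))
          · rw [abs_mul, abs_of_pos (by positivity : (0 : ℝ) < 2 ^ Fintype.card ι)]
            refine mul_le_of_le_one_right (by positivity) ?_
            rw [Finset.abs_prod]
            exact Finset.prod_le_one (fun i _ => abs_nonneg _) fun i _ => Real.abs_cos_le_one _
        · refine integrable_gauss_mul _ ?_ (2 ^ Fintype.card ι * ((1 / (Fintype.card G : ℝ)) *
            ∑ γ : G, 1)) (fun w => ?_)
          · refine continuous_const.mul (continuous_const.mul (continuous_finsetSum _ fun γ _ =>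
              continuous_finsetProd _ fun j _ => Continuous.pow (Real.continuous_cos.comp ?_) _))
            fun_prop
          · rw [abs_mul, abs_of_pos (by positivity : (0 : ℝ) < 2 ^ Fintype.card ι), abs_mul,
              abs_of_nonneg (by positivity : (0 : ℝ) ≤ 1 / (Fintype.card G : ℝ))]
            gcongr
            refine (Finset.abs_sum_le_sum_abs _ _).trans ?_
            refine Finset.sum_le_sum fun γ _ => ?_
            rw [Finset.abs_prod]
            refine Finset.prod_le_one (fun j _ => abs_nonneg _) fun j _ => ?_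
            rw [abs_pow]
            exact pow_le_one₀ (abs_nonneg _) (Real.abs_cos_le_one _)
        · simp only
          refine mul_le_mul_of_nonneg_left ?_ (Real.exp_pos _).le
          refine mul_le_mul_of_nonneg_left ?_ (by positivity)
          refine (le_abs_self _).trans ((amgm G hG (g : EuclideanSpace ℝ ι) s q x hqs t).trans ?_)
          refine mul_le_mul_of_nonneg_left (le_of_eq ?_) (by positivity)
          refine Finset.sum_congr rfl fun γ _ => Finset.prod_congr rfl fun j _ => ?_
          congr 3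
          rw [← bv_apply_inner]
          show _ = ⟪g, W.orthogonalProjectionOnto _⟫
          rw [Submodule.inner_orthogonalProjectionOnto_eq_of_mem_left]
          rw [real_inner_comm]
          have h5 := (γ : EuclideanSpace ℝ ι ≃ₗᵢ[ℝ] EuclideanSpace ℝ ι).inner_map_map
            (g : EuclideanSpace ℝ ι)
            ((γ : EuclideanSpace ℝ ι ≃ₗᵢ[ℝ] EuclideanSpace ℝ ι)⁻¹ (bv (x j)))
          rw [← h5]
          congr 1
          exact ((γ : EuclideanSpace ℝ ι ≃ₗᵢ[ℝ] EuclideanSpace ℝ ι).apply_symm_apply _).symm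
    _ = 2 ^ Fintype.card ι * ((1 / (Fintype.card G : ℝ)) * ∑ γ : G,
          (c * ∫ g : W, Real.exp (-‖g‖ ^ 2 / 2) *
            ∏ j, Real.cos (t * ⟪g, u γ j⟫) ^ (2 * q))) := by
        rw [← Finset.mul_sum, ← integral_finsetSum]
        · have e : ∀ g : W, Real.exp (-‖g‖ ^ 2 / 2) *
              (2 ^ Fintype.card ι * ((1 / (Fintype.card G : ℝ)) *
                ∑ γ : G, ∏ j, Real.cos (t * ⟪g, u γ j⟫) ^ (2 * q))) =
              (2 ^ Fintype.card ι * (1 / (Fintype.card G : ℝ))) *
                ∑ γ : G, Real.exp (-‖g‖ ^ 2 / 2) * ∏ j, Real.cos (t * ⟪g, u γ j⟫) ^ (2 * q) := by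
            intro g
            rw [← Finset.mul_sum]
            ring
          simp only [e]
          rw [integral_const_mul]
          ring
        · intro γ _
          refine integrable_gauss_mul _ ?_ 1 (fun w => ?_)
          · refine continuous_finsetProd _ fun j _ => Continuous.pow
              (Real.continuous_cos.comp ?_) _
            fun_prop
          · rw [Finset.abs_prod]
            refine Finset.prod_le_one (fun j _ => abs_nonneg _) fun j _ => ?_
            rw [abs_pow]
            exact pow_le_one₀ (abs_nonneg _) (Real.abs_cos_le_one _)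
    _ ≤ 2 ^ Fintype.card ι * ((1 / (Fintype.card G : ℝ)) * ∑ γ : G, R) := by
        gcongr with γ _
        exact hD γ
    _ = 2 ^ Fintype.card ι * R := by
        rw [Finset.sum_const, Finset.card_univ, nsmul_eq_mul]
        have : (Fintype.card G : ℝ) ≠ 0 := by exact_mod_cast Fintype.card_ne_zero
        field_simp

theorem small_ball (G : Subgroup (EuclideanSpace ℝ ι ≃ₗᵢ[ℝ] EuclideanSpace ℝ ι)) (hG : Signed G)
    (W : Submodule ℝ (EuclideanSpace ℝ ι)) (hW : Stable G W) (s : ℕ) (hs : finrank ℝ W = s)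
    (hs1 : 1 ≤ s) (q : ℕ) (hq : 1 ≤ q) (hqs : 2 * q * s ≤ Fintype.card ι) :
    (Nat.card {a : ι → Bool // ‖W.starProjection (sv a)‖ ^ 2 ≤
      (s : ℝ) ^ 2 / (10 ^ 6 * Fintype.card ι)} : ℝ) ≤
    2 ^ Fintype.card ι * (21 / 20 * cq q) ^ s := by
  classical
  have hb : 0 < Fintype.card ι := by
    have : 1 ≤ q * s := Nat.one_le_iff_ne_zero.2 (by positivity)
    nlinarith
  have hs0 : (0 : ℝ) < s := by exact_mod_cast hs1
  have hb0 : (0 : ℝ) < Fintype.card ι := by exact_mod_cast hb
  set b : ℝ := (Fintype.card ι : ℝ) with hbdef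
  set t : ℝ := √(10 ^ 4 * b / s) with ht
  have ht2 : t ^ 2 = 10 ^ 4 * b / s := Real.sq_sqrt (by positivity)
  have ht0 : t ≠ 0 := (Real.sqrt_pos.2 (by positivity)).ne'
  have h1 := mgf_bound G hG W hW s hs q hqs t ht0 hb
  have h2 : ∏ j : Fin s, (1 + √(Real.pi / (2 * t ^ 2)) / √(((s : ℝ) - j) / Fintype.card ι)) ≤
      Real.exp (26 / 1000 * s) := by
    refine le_trans (le_of_eq ?_) (prod_bound s)
    refine Finset.prod_congr rfl fun j _ => ?_
    have hj : (j : ℝ) < s := by exact_mod_cast j.2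
    have hj0 : (0 : ℝ) < s - j := by linarith
    congr 1
    rw [← Real.sqrt_mul (by positivity), ← Real.sqrt_div (by positivity), ht2]
    congr 1
    field_simp
    ring
  set A : Finset (ι → Bool) := Finset.univ.filter
    (fun a => ‖W.starProjection (sv a)‖ ^ 2 ≤ (s : ℝ) ^ 2 / (10 ^ 6 * b)) with hA
  have hcard : (Nat.card {a : ι → Bool // ‖W.starProjection (sv a)‖ ^ 2 ≤
      (s : ℝ) ^ 2 / (10 ^ 6 * b)} : ℝ) = A.card := by
    rw [Nat.card_eq_fintype_card, Fintype.card_subtype]
  rw [hcard]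
  have h3 : (A.card : ℝ) * Real.exp (-(5 / 1000 * s)) ≤
      ∑ a : ι → Bool, Real.exp (-‖t • W.starProjection (sv a)‖ ^ 2 / 2) := by
    calc (A.card : ℝ) * Real.exp (-(5 / 1000 * s)) = ∑ a ∈ A, Real.exp (-(5 / 1000 * s)) := by
          rw [Finset.sum_const, nsmul_eq_mul]
      _ ≤ ∑ a ∈ A, Real.exp (-‖t • W.starProjection (sv a)‖ ^ 2 / 2) := by
          refine Finset.sum_le_sum fun a ha => Real.exp_le_exp.2 ?_
          have h4 : ‖W.starProjection (sv a)‖ ^ 2 ≤ (s : ℝ) ^ 2 / (10 ^ 6 * b) :=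
            (Finset.mem_filter.1 ha).2
          rw [norm_smul, mul_pow, Real.norm_eq_abs, sq_abs, ht2]
          have h5 : 10 ^ 4 * b / s * ‖W.starProjection (sv a)‖ ^ 2 ≤
              10 ^ 4 * b / s * ((s : ℝ) ^ 2 / (10 ^ 6 * b)) :=
            mul_le_mul_of_nonneg_left h4 (by positivity)
          have h6 : 10 ^ 4 * b / s * ((s : ℝ) ^ 2 / (10 ^ 6 * b)) = s / 100 := by
            field_simp
            ring
          rw [h6] at h5
          linarith
      _ ≤ ∑ a : ι → Bool, Real.exp (-‖t • W.starProjection (sv a)‖ ^ 2 / 2) :=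
          Finset.sum_le_sum_of_subset_of_nonneg (Finset.subset_univ _)
            fun _ _ _ => (Real.exp_pos _).le
  have hcq := cq_pos q
  have h4 : (A.card : ℝ) * Real.exp (-(5 / 1000 * s)) ≤
      2 ^ Fintype.card ι * (cq q ^ s * Real.exp (26 / 1000 * s)) := by
    refine h3.trans (h1.trans ?_)
    gcongr
  have h5 : (A.card : ℝ) ≤ 2 ^ Fintype.card ι * (cq q ^ s * Real.exp (31 / 1000 * s)) := by
    have h6 := mul_le_mul_of_nonneg_right h4 (Real.exp_pos (5 / 1000 * s)).le
    rw [mul_assoc, ← Real.exp_add, neg_add_cancel, Real.exp_zero, mul_one, mul_assoc, mul_assoc,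
      ← Real.exp_add] at h6
    refine h6.trans (le_of_eq ?_)
    congr 3
    ring
  refine h5.trans ?_
  rw [mul_pow]
  have h7 : Real.exp (31 / 1000 * s) ≤ (21 / 20 : ℝ) ^ s := by
    rw [mul_comm, Real.exp_nat_mul]
    refine pow_le_pow_left₀ (Real.exp_pos _).le ?_ s
    have h8 : Real.exp (31 / 1000) ≤ 1 / (1 - 31 / 1000) := by
      have := Real.add_one_le_exp (-(31 / 1000 : ℝ))
      rw [Real.exp_neg] at this
      rw [le_div_iff₀ (by norm_num)]
      have h9 := Real.exp_pos (31 / 1000 : ℝ)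
      have h10 : Real.exp (31 / 1000 : ℝ) * (Real.exp (31 / 1000 : ℝ))⁻¹ = 1 :=
        mul_inv_cancel₀ h9.ne'
      nlinarith
    refine h8.trans ?_
    norm_num
  calc (2 : ℝ) ^ Fintype.card ι * (cq q ^ s * Real.exp (31 / 1000 * s))
      ≤ 2 ^ Fintype.card ι * (cq q ^ s * (21 / 20) ^ s) := by gcongr
    _ = 2 ^ Fintype.card ι * ((21 / 20) ^ s * cq q ^ s) := by ring

end Pool.Agent.CMV
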