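import Mathlib
import Pool.Agent.CMV.Defs

set_option autoImplicit false
set_option linter.unusedVariables false

/-!
# The union bound
-/

namespace Pool.Agent.CMV

open Finset Module
open scoped BigOperators RealInnerProductSpace

namespace UB_

section count

/-- a union bound -/
lemma card_le_sum {α β : Type*} [Finite α] (D : Set α) (S : Finset β) (B : β → Set α)
    (h : ∀ a ∈ D, ∃ W ∈ S, a ∈ B W) : Nat.card D ≤ ∑ W ∈ S, Nat.card (B W) := by
  classical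
  haveI := Fintype.ofFinite α
  have h1 : D.toFinset ⊆ S.biUnion (fun W => (B W).toFinset) := by
    intro a ha
    rw [Set.mem_toFinset] at ha
    obtain ⟨W, hW, haW⟩ := h a ha
    rw [Finset.mem_biUnion]
    exact ⟨W, hW, Set.mem_toFinset.mpr haW⟩
  have h2 := (Finset.card_le_card h1).trans Finset.card_biUnion_le
  simpa only [Nat.card_eq_fintype_card, Set.toFinset_card] using h2

lemma card_pow {α : Type*} [Finite α] (k : ℕ) (A : Set α) :
    Nat.card {a : Fin k → α | ∀ i, a i ∈ A} = Nat.card A ^ k := by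
  have h1 : Nat.card {a : Fin k → α // ∀ i, a i ∈ A} = Nat.card ((i : Fin k) → {b : α // b ∈ A}) :=
    Nat.card_congr (Equiv.subtypePiEquivPi (p := fun (_ : Fin k) (b : α) => b ∈ A))
  have h2 : Nat.card ((i : Fin k) → {b : α // b ∈ A}) = Nat.card A ^ k := by
    rw [Nat.card_fun, Nat.card_fin]
  exact h1.trans h2

end count

variable {ι : Type} [Fintype ι] [DecidableEq ι]

lemma norm_sv (c : ι → Bool) : ‖sv c‖ = √(Fintype.card ι) := by
  rw [EuclideanSpace.norm_eq]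
  congr 1
  have h1 : ∀ i, ‖(sv c) i‖ ^ 2 = (1 : ℝ) := by
    intro i
    show ‖sg (c i)‖ ^ 2 = 1
    unfold sg
    split_ifs <;> simp
  rw [Finset.sum_congr rfl (fun i _ => h1 i), Finset.sum_const, Finset.card_univ, nsmul_eq_mul,
    mul_one]

/-- the range of a map on `W` -/
noncomputable def rg {W : Submodule ℝ (EuclideanSpace ℝ ι)}
    (T : W →L[ℝ] EuclideanSpace ℝ ι) : Submodule ℝ (EuclideanSpace ℝ ι) :=
  LinearMap.range T.toLinearMap

/-- subspaces of the space of maps are normed spaces -/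
@[reducible] noncomputable def nsp (W : Submodule ℝ (EuclideanSpace ℝ ι))
    (V : Submodule ℝ (W →L[ℝ] EuclideanSpace ℝ ι)) : NormedSpace ℝ V :=
  { (inferInstance : Module ℝ V) with
    norm_smul_le := fun c x =>
      (inferInstance : NormedSpace ℝ (W →L[ℝ] EuclideanSpace ℝ ι)).norm_smul_le c x }

lemma net_sub (hnet : ∀ (E : Type) [NormedAddCommGroup E] [NormedSpace ℝ E]
      [FiniteDimensional ℝ E]
      (f : ℕ), finrank ℝ E = f → 1 ≤ f → ∀ (η : ℝ), 0 < η → η ≤ 1 →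
      ∃ N : Finset E, (∀ T ∈ N, ‖T‖ = 1) ∧ (∀ T, ‖T‖ = 1 → ∃ T' ∈ N, ‖T - T'‖ ≤ η) ∧
        (N.card : ℝ) ≤ 2 * f * (1 + 2 / η) ^ (f - 1))
    (W : Submodule ℝ (EuclideanSpace ℝ ι)) (V : Submodule ℝ (W →L[ℝ] EuclideanSpace ℝ ι))
    (hf1 : 1 ≤ finrank ℝ V) (η : ℝ) (h : 0 < η) (h' : η ≤ 1) :
    ∃ N : Finset V, (∀ T ∈ N, ‖(T : W →L[ℝ] EuclideanSpace ℝ ι)‖ = 1) ∧
      (∀ T : W →L[ℝ] EuclideanSpace ℝ ι, T ∈ V → ‖T‖ = 1 → ∃ T' ∈ N,
        ‖T - (T' : W →L[ℝ] EuclideanSpace ℝ ι)‖ ≤ η) ∧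
      (N.card : ℝ) ≤ 2 * (finrank ℝ V) * (1 + 2 / η) ^ (finrank ℝ V - 1) := by
  let _ := nsp W V
  have : FiniteDimensional ℝ V := inferInstance
  obtain ⟨N, h1, h2, h3⟩ := hnet V (finrank ℝ V) rfl hf1 η h h'
  exact ⟨N, h1, fun T hT hT1 => h2 ⟨T, hT⟩ hT1, h3⟩

lemma rg_stable (G : Subgroup (EuclideanSpace ℝ ι ≃ₗᵢ[ℝ] EuclideanSpace ℝ ι))
    (W : Submodule ℝ (EuclideanSpace ℝ ι)) (hW : Stable G W)
    (T : W →L[ℝ] EuclideanSpace ℝ ι) (hT : T ∈ EqI G W ⊤) : Stable G (rg T) := by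
  rintro g hg _ ⟨w, rfl⟩
  exact ⟨⟨g w, hW g hg w w.2⟩, hT.1 g hg w _ rfl⟩

lemma rg_finrank {W : Submodule ℝ (EuclideanSpace ℝ ι)}
    (T : W →L[ℝ] EuclideanSpace ℝ ι) (hT : ∀ w : W, ‖T w‖ = ‖w‖) :
    finrank ℝ (rg T) = finrank ℝ W := by
  apply LinearMap.finrank_range_of_inj
  intro x y hxy
  have h1 : T (x - y) = 0 := by
    rw [map_sub, sub_eq_zero]
    exact hxy
  have h2 : ‖x - y‖ = 0 := by rw [← hT, h1, norm_zero]
  exact sub_eq_zero.mp (norm_eq_zero.mp h2)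

lemma exists_mini (G : Subgroup (EuclideanSpace ℝ ι ≃ₗᵢ[ℝ] EuclideanSpace ℝ ι))
    (U : Submodule ℝ (EuclideanSpace ℝ ι)) (hU : Stable G U) (hU0 : U ≠ ⊥) :
    ∃ V, Mini G V ∧ V ≤ U := by
  classical
  have hex : ∃ n : ℕ, ∃ V : Submodule ℝ (EuclideanSpace ℝ ι), Stable G V ∧ V ≠ ⊥ ∧ V ≤ U ∧
      finrank ℝ V = n := ⟨_, U, hU, hU0, le_rfl, rfl⟩
  obtain ⟨V, hV, hV0, hVU, hVn⟩ := Nat.find_spec hex
  refine ⟨V, ⟨hV, hV0, ?_⟩, hVU⟩
  intro W' hW' hle hW0
  have hmin := Nat.find_min' hex ⟨W', hW', hW0, hle.trans hVU, rfl⟩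
  exact Submodule.eq_of_le_of_finrank_le hle (hVn.trans_le hmin)

/-- the space orthogonal to a bad family -/
def orth (G : Subgroup (EuclideanSpace ℝ ι ≃ₗᵢ[ℝ] EuclideanSpace ℝ ι)) {k : ℕ}
    (a : Fin k → ι → Bool) : Submodule ℝ (EuclideanSpace ℝ ι) where
  carrier := {f | ∀ g ∈ G, ∀ i, ⟪g f, sv (a i)⟫ = 0}
  add_mem' := by
    intro x y hx hy g hg i
    rw [map_add, inner_add_left, hx g hg i, hy g hg i, add_zero]
  zero_mem' := by
    intro g hg i
    rw [map_zero, inner_zero_left]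
  smul_mem' := by
    intro c x hx g hg i
    rw [map_smul, inner_smul_left, hx g hg i, mul_zero]

lemma orth_stable (G : Subgroup (EuclideanSpace ℝ ι ≃ₗᵢ[ℝ] EuclideanSpace ℝ ι)) {k : ℕ}
    (a : Fin k → ι → Bool) : Stable G (orth G a) := by
  intro g hg w hw g' hg' i
  exact hw (g' * g) (G.mul_mem hg' hg) i

/-- the families bad for `W` -/
def BW (G : Subgroup (EuclideanSpace ℝ ι ≃ₗᵢ[ℝ] EuclideanSpace ℝ ι)) (k : ℕ)
    (W : Submodule ℝ (EuclideanSpace ℝ ι)) : Set (Fin k → ι → Bool) :=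
  {a | ∃ T ∈ EqI G W ⊤, ‖T‖ = 1 ∧ ∀ w : W, ∀ i, ⟪T w, sv (a i)⟫ = 0}

lemma bad_cover (G : Subgroup (EuclideanSpace ℝ ι ≃ₗᵢ[ℝ] EuclideanSpace ℝ ι)) (k : ℕ)
    (S : Finset (Submodule ℝ (EuclideanSpace ℝ ι)))
    (hS2 : ∀ V, Mini G V → ∃ W ∈ S, ∃ T ∈ EqI G W ⊤, ‖T‖ = 1 ∧ ∀ v, v ∈ V ↔ ∃ w : W, T w = v)
    (a : Fin k → ι → Bool) (ha : a ∈ Bad G k) : ∃ W ∈ S, a ∈ BW G k W := by
  obtain ⟨f, hf0, hf⟩ := ha
  have hU0 : orth G a ≠ ⊥ := by
    intro h
    have : f ∈ orth G a := hf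
    rw [h, Submodule.mem_bot] at this
    exact hf0 this
  obtain ⟨V, hV, hVU⟩ := exists_mini G (orth G a) (orth_stable G a) hU0
  obtain ⟨W, hW, T, hT, hT1, hTV⟩ := hS2 V hV
  refine ⟨W, hW, T, hT, hT1, fun w i => ?_⟩
  have h1 : T w ∈ orth G a := hVU ((hTV _).mpr ⟨w, rfl⟩)
  exact h1 1 G.one_mem i

/-- the projection is short -/
lemma proj_small {W : Submodule ℝ (EuclideanSpace ℝ ι)} (T T' : W →L[ℝ] EuclideanSpace ℝ ι)
    (hT' : ∀ w : W, ‖T' w‖ = ‖w‖) (η : ℝ) (h : ‖T - T'‖ ≤ η) (c : ι → Bool)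
    (hc : ∀ w : W, ⟪T w, sv c⟫ = 0) :
    ‖(rg T').starProjection (sv c)‖ ^ 2 ≤ η ^ 2 * Fintype.card ι := by
  set p := (rg T').starProjection (sv c) with hp
  have hpm : p ∈ rg T' := Submodule.starProjection_apply_mem _ _
  obtain ⟨w0, hw0⟩ := hpm
  have hw0' : T' w0 = p := hw0
  have hnw : ‖w0‖ = ‖p‖ := by rw [← hT', hw0']
  have h1 : ⟪p, sv c⟫ = ‖p‖ ^ 2 := by
    have h2 : ⟪p, sv c - p⟫ = 0 := by
      have := Submodule.starProjection_inner_eq_zero (K := rg T') (sv c) p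
        (Submodule.starProjection_apply_mem _ _)
      rw [real_inner_comm]
      exact this
    rw [inner_sub_right, real_inner_self_eq_norm_sq] at h2
    linarith
  have h3 : ‖p‖ ^ 2 = ⟪(T' - T) w0, sv c⟫ := by
    rw [ContinuousLinearMap.sub_apply, inner_sub_left, hc, sub_zero, hw0', h1]
  have h4 : ‖p‖ ^ 2 ≤ η * ‖p‖ * √(Fintype.card ι) := by
    rw [h3]
    calc ⟪(T' - T) w0, sv c⟫ ≤ ‖(T' - T) w0‖ * ‖sv c‖ := real_inner_le_norm _ _
      _ ≤ (‖T' - T‖ * ‖w0‖) * √(Fintype.card ι) := by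
        rw [norm_sv]
        gcongr
        exact ContinuousLinearMap.le_opNorm _ _
      _ ≤ (η * ‖p‖) * √(Fintype.card ι) := by
        have h' : ‖T' - T‖ ≤ η := (norm_sub_rev T' T).trans_le h
        rw [hnw]
        gcongr
  rcases eq_or_lt_of_le (norm_nonneg p) with h0 | h0
  · rw [← h0]
    have : 0 ≤ η ^ 2 * (Fintype.card ι : ℝ) := by positivity
    simpa using this
  · have h5 : ‖p‖ ≤ η * √(Fintype.card ι) := by
      have : ‖p‖ * ‖p‖ ≤ (η * √(Fintype.card ι)) * ‖p‖ := by nlinarith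
      exact le_of_mul_le_mul_right this h0
    calc ‖p‖ ^ 2 ≤ (η * √(Fintype.card ι)) ^ 2 := by gcongr
      _ = η ^ 2 * Fintype.card ι := by
        rw [mul_pow, Real.sq_sqrt (Nat.cast_nonneg _)]

end UB_

open UB_ in
theorem union_bound {ι : Type} [Fintype ι] [DecidableEq ι]
    (G : Subgroup (EuclideanSpace ℝ ι ≃ₗᵢ[ℝ] EuclideanSpace ℝ ι)) (k : ℕ)
    (hschur : ∀ (W : Submodule ℝ (EuclideanSpace ℝ ι)), Mini G W →
      ∀ T : W →L[ℝ] EuclideanSpace ℝ ι, T ∈ EqI G W ⊤ → ∀ w : W, ‖T w‖ = ‖T‖ * ‖w‖)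
    (hnet : ∀ (E : Type) [NormedAddCommGroup E] [NormedSpace ℝ E] [FiniteDimensional ℝ E]
      (f : ℕ), finrank ℝ E = f → 1 ≤ f → ∀ (η : ℝ), 0 < η → η ≤ 1 →
      ∃ N : Finset E, (∀ T ∈ N, ‖T‖ = 1) ∧ (∀ T, ‖T‖ = 1 → ∃ T' ∈ N, ‖T - T'‖ ≤ η) ∧
        (N.card : ℝ) ≤ 2 * f * (1 + 2 / η) ^ (f - 1))
    (hball : ∀ (W : Submodule ℝ (EuclideanSpace ℝ ι)), Stable G W → ∀ s : ℕ, finrank ℝ W = s →
      1 ≤ s → ∀ q : ℕ, 1 ≤ q → 2 * q * s ≤ Fintype.card ι →
      (Nat.card {a : ι → Bool // ‖W.starProjection (sv a)‖ ^ 2 ≤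
        (s : ℝ) ^ 2 / (10 ^ 6 * Fintype.card ι)} : ℝ) ≤
      2 ^ Fintype.card ι * (21 / 20 * cq q) ^ s)
    (hod : ∀ (W : Submodule ℝ (EuclideanSpace ℝ ι)) (s : ℕ), finrank ℝ W = s →
      (Nat.card {a : ι → Bool // ∀ w ∈ W, ⟪w, sv a⟫ = 0} : ℝ) ≤
        2 ^ Fintype.card ι * (1 / 2) ^ s)
    (S : Finset (Submodule ℝ (EuclideanSpace ℝ ι))) (hS : ∀ W ∈ S, Mini G W)
    (hS2 : ∀ V, Mini G V → ∃ W ∈ S, ∃ T ∈ EqI G W ⊤, ‖T‖ = 1 ∧ ∀ v, v ∈ V ↔ ∃ w : W, T w = v) :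
    (Nat.card (Bad G k) : ℝ) ≤ 2 ^ (Fintype.card ι * k) *
      ∑ W ∈ S, wt (Fintype.card ι) (finrank ℝ W) (finrank ℝ (EqI G W ⊤)) k := by
  have key : ∀ W ∈ S, (Nat.card (BW G k W) : ℝ) ≤ 2 ^ (Fintype.card ι * k) *
      wt (Fintype.card ι) (finrank ℝ W) (finrank ℝ (EqI G W ⊤)) k := by
    intro W hW
    have hM := hS W hW
    have hiso : ∀ T : W →L[ℝ] EuclideanSpace ℝ ι, T ∈ EqI G W ⊤ → ‖T‖ = 1 →
        ∀ w : W, ‖T w‖ = ‖w‖ := by
      intro T hT hT1 w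
      rw [hschur W hM T hT w, hT1, one_mul]
    set s := finrank ℝ W with hs
    set f := finrank ℝ (EqI G W ⊤) with hf
    set n := Fintype.card ι with hn
    have hs1 : 1 ≤ s := by
      rw [Nat.one_le_iff_ne_zero]
      intro h0
      exact hM.2.1 (Submodule.finrank_eq_zero.mp h0)
    unfold wt
    split_ifs with hc
    · -- small subspaces
      rcases Nat.eq_zero_or_pos f with hf0 | hf1
      · have hE : EqI G W ⊤ = ⊥ := Submodule.finrank_eq_zero.mp hf0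
        have hB : BW G k W = ∅ := by
          rw [Set.eq_empty_iff_forall_notMem]
          rintro a ⟨T, hT, hT1, -⟩
          rw [hE, Submodule.mem_bot] at hT
          have h0 : ‖(0 : W →L[ℝ] EuclideanSpace ℝ ι)‖ = 0 :=
            ContinuousLinearMap.opNorm_zero
          rw [hT, h0] at hT1
          exact zero_ne_one hT1
        rw [hB, hf0]
        simp
      · have hnpos : 0 < n := by omega
        have hnR : (0 : ℝ) < n := by exact_mod_cast hnpos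
        have hsR : (1 : ℝ) ≤ s := by exact_mod_cast hs1
        have hcR : 2 * (s : ℝ) ≤ n := by exact_mod_cast hc
        set η : ℝ := s / (1000 * n) with hη
        have hη0 : 0 < η := by positivity
        have hη1 : η ≤ 1 := by
          rw [hη, div_le_one (by positivity)]
          linarith
        obtain ⟨N, hN1, hN2, hN3⟩ := net_sub hnet W (EqI G W ⊤) hf1 η hη0 hη1
        have hcov : ∀ a ∈ BW G k W, ∃ T ∈ N, a ∈ {a : Fin k → ι → Bool | ∀ i, a i ∈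
            {c : ι → Bool | ‖(rg (T : W →L[ℝ] EuclideanSpace ℝ ι)).starProjection (sv c)‖ ^ 2 ≤
              (s : ℝ) ^ 2 / (10 ^ 6 * n)}} := by
          rintro a ⟨T, hT, hT1, hTa⟩
          obtain ⟨T', hT'N, hTT'⟩ := hN2 T hT hT1
          refine ⟨T', hT'N, fun i => ?_⟩
          have h1 := proj_small T (T' : W →L[ℝ] EuclideanSpace ℝ ι)
            (hiso _ T'.2 (hN1 T' hT'N)) η hTT' (a i) (fun w => hTa w i)
          refine h1.trans (le_of_eq ?_)
          rw [hη, ← hn]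
          field_simp
          ring
        have h2 := card_le_sum _ _ _ hcov
        set q := n / (2 * s) with hq
        have hq1 : 1 ≤ q := by
          rw [hq, Nat.one_le_div_iff (by omega)]
          exact hc
        have hq2 : 2 * q * s ≤ n := by
          calc 2 * q * s = (n / (2 * s)) * (2 * s) := by rw [hq]; ring
            _ ≤ n := Nat.div_mul_le_self _ _
        have h3 : ∀ T ∈ N, (Nat.card {a : Fin k → ι → Bool | ∀ i, a i ∈
            {c : ι → Bool | ‖(rg (T : W →L[ℝ] EuclideanSpace ℝ ι)).starProjection (sv c)‖ ^ 2 ≤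
              (s : ℝ) ^ 2 / (10 ^ 6 * n)}} : ℝ) ≤ (2 ^ n * (21 / 20 * cq q) ^ s) ^ k := by
          intro T hT
          rw [card_pow]
          push_cast
          refine pow_le_pow_left₀ (Nat.cast_nonneg _) ?_ k
          exact hball (rg (T : W →L[ℝ] EuclideanSpace ℝ ι)) (rg_stable G W hM.1 _ T.2) s
            (rg_finrank _ (hiso _ T.2 (hN1 T hT))) hs1 q hq1 hq2
        have hcq : 0 ≤ cq q := by
          unfold cq
          positivity
        calc (Nat.card (BW G k W) : ℝ) ≤ ((∑ T ∈ N, Nat.card {a : Fin k → ι → Bool | ∀ i, a i ∈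
            {c : ι → Bool | ‖(rg (T : W →L[ℝ] EuclideanSpace ℝ ι)).starProjection (sv c)‖ ^ 2 ≤
              (s : ℝ) ^ 2 / (10 ^ 6 * n)}} : ℕ) : ℝ) := by exact_mod_cast h2
          _ ≤ ∑ T ∈ N, (2 ^ n * (21 / 20 * cq q) ^ s) ^ k := by
              push_cast
              exact Finset.sum_le_sum h3
          _ = N.card * (2 ^ n * (21 / 20 * cq q) ^ s) ^ k := by
              rw [Finset.sum_const, nsmul_eq_mul]
          _ ≤ (2 * f * (1 + 2 / η) ^ (f - 1)) * (2 ^ n * (21 / 20 * cq q) ^ s) ^ k := by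
              gcongr
          _ = 2 ^ (n * k) * (2 * f * (1 + 2000 * n / s) ^ (f - 1) *
                ((21 / 20 * cq q) ^ s) ^ k) := by
              have e1 : 2 / η = 2000 * n / s := by
                rw [hη]
                field_simp
                ring
              rw [e1, mul_pow, ← pow_mul 2 n k]
              ring
    · -- large subspaces
      have hcov : ∀ a ∈ BW G k W, a ∈ {a : Fin k → ι → Bool | ∀ i, a i ∈
          {c : ι → Bool | ∀ w ∈ W, ⟪w, sv c⟫ = 0}} := by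
        rintro a ⟨T, hT, hT1, hTa⟩ i w hw
        have hrk := rg_finrank T (hiso T hT hT1)
        have hst : Stable G (rg T ⊓ W) := by
          intro g hg v hv
          exact ⟨rg_stable G W hM.1 T hT g hg v hv.1, hM.1 g hg v hv.2⟩
        have hne : rg T ⊓ W ≠ ⊥ := by
          intro h0
          have h1 := Submodule.finrank_sup_add_finrank_inf_eq (rg T) W
          rw [h0, finrank_bot, add_zero, hrk, ← hs] at h1
          have h2 : finrank ℝ ↥(rg T ⊔ W) ≤ n := by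
            have := Submodule.finrank_le (rg T ⊔ W)
            rwa [finrank_euclideanSpace] at this
          omega
        have hEq : rg T ⊓ W = W := hM.2.2 _ hst inf_le_right hne
        have hle : W ≤ rg T := hEq.ge.trans inf_le_left
        obtain ⟨w', hw'⟩ := hle hw
        rw [← hw']
        exact hTa w' i
      have h1 : Nat.card (BW G k W) ≤ Nat.card {a : Fin k → ι → Bool | ∀ i, a i ∈
          {c : ι → Bool | ∀ w ∈ W, ⟪w, sv c⟫ = 0}} :=
        Nat.card_mono (Set.toFinite _) hcov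
      have h2 := hod W s rfl
      calc (Nat.card (BW G k W) : ℝ) ≤ (Nat.card {a : Fin k → ι → Bool | ∀ i, a i ∈
          {c : ι → Bool | ∀ w ∈ W, ⟪w, sv c⟫ = 0}} : ℝ) := by exact_mod_cast h1
        _ = (Nat.card {c : ι → Bool | ∀ w ∈ W, ⟪w, sv c⟫ = 0} : ℝ) ^ k := by
            rw [card_pow]
            push_cast
            rfl
        _ ≤ (2 ^ n * (1 / 2) ^ s) ^ k := pow_le_pow_left₀ (Nat.cast_nonneg _) h2 k
        _ = 2 ^ (n * k) * ((1 / 2 : ℝ) ^ s) ^ k := by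
            rw [mul_pow, ← pow_mul 2 n k]
  have h1 := card_le_sum (Bad G k) S (BW G k) (bad_cover G k S hS2)
  calc (Nat.card (Bad G k) : ℝ) ≤ ((∑ W ∈ S, Nat.card (BW G k W) : ℕ) : ℝ) := by
        exact_mod_cast h1
    _ = ∑ W ∈ S, (Nat.card (BW G k W) : ℝ) := by push_cast; rfl
    _ ≤ ∑ W ∈ S, 2 ^ (Fintype.card ι * k) *
        wt (Fintype.card ι) (finrank ℝ W) (finrank ℝ (EqI G W ⊤)) k := Finset.sum_le_sum key
    _ = _ := by rw [Finset.mul_sum]

end Pool.Agent.CMV
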