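import Mathlib
import Pool.Agent.CMV.SmallBall
import Pool.Agent.CMV.Net
import Pool.Agent.CMV.Schur
import Pool.Agent.CMV.Frob
import Pool.Agent.CMV.Family
import Pool.Agent.CMV.Numeric
import Pool.Agent.CMV.Odlyzko
import Pool.Agent.CMV.Union

set_option autoImplicit false

/-!
# The number of families of sign vectors that do not generate
-/

namespace Pool.Agent.CMV

open Finset Module
open scoped BigOperators RealInnerProductSpace

/-- **Theorem.** The translates of `k ≥ 3` random sign vectors under a transitive group of signed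
permutations generate, except for a proportion `C (11/20)^k / √b`. -/
theorem card_bad_le : ∃ C : ℝ, 0 < C ∧ ∀ (ι : Type) [Fintype ι] [DecidableEq ι] [Nonempty ι]
    (G : Subgroup (EuclideanSpace ℝ ι ≃ₗᵢ[ℝ] EuclideanSpace ℝ ι)), Signed G → ∀ k : ℕ, 3 ≤ k →
      (Nat.card (Bad G k) : ℝ) ≤ C * (11 / 20) ^ k * 2 ^ (Fintype.card ι * k) /
        √(Fintype.card ι : ℝ) := by
  classical
  obtain ⟨C, hC, hnum⟩ := numeric cq_le_half cq_sq_le cq_pos
  refine ⟨C * (20 / 11) ^ 3, by positivity, ?_⟩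
  intro ι _ _ _ G hG k hk
  have hb : 0 < Fintype.card ι := Fintype.card_pos
  have hb0 : (0 : ℝ) < Fintype.card ι := by exact_mod_cast hb
  obtain ⟨S, hS1, hS2, hS3, hS4⟩ := family G (fun W hW T hT w => schur_norm G W hW T hT w)
    (fun W W' hW hW' => finrank_EqI_four G W W' hW hW')
  have h1 := union_bound G k (fun W hW T hT w => schur_norm G W hW T hT w)
    (fun E _ _ _ f hf hf1 η hη hη1 => net E f hf hf1 η hη hη1)
    (fun W hW s hs hs1 q hq hqs => small_ball G hG W hW s hs hs1 q hq hqs)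
    (fun W s hs => odlyzko W s hs) S hS1 hS3
  have h2 : ∀ W ∈ S, wt (Fintype.card ι) (finrank ℝ W) (finrank ℝ (EqI G W ⊤)) k ≤
      (C / (Fintype.card ι * √(Fintype.card ι)) * (11 / 20) ^ (k - 3)) * finrank ℝ W := by
    intro W hW
    have hW1 := hS1 W hW
    have hpos : 1 ≤ finrank ℝ W := by
      have : Nontrivial W := (Submodule.nontrivial_iff_ne_bot).2 hW1.2.1
      exact Module.finrank_pos
    have hle : finrank ℝ W ≤ Fintype.card ι := by
      have := Submodule.finrank_le W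
      rwa [finrank_euclideanSpace] at this
    have h3 := wt_step cq_le_half cq_pos (Fintype.card ι) (finrank ℝ W)
      (finrank ℝ (EqI G W ⊤)) k hpos hk
    have h4 := hnum (Fintype.card ι) (finrank ℝ W) (finrank ℝ (EqI G W ⊤)) hpos hle
      (finrank_EqI_le G hG W hW1) (hS4 W hW)
    calc wt (Fintype.card ι) (finrank ℝ W) (finrank ℝ (EqI G W ⊤)) k
        ≤ wt (Fintype.card ι) (finrank ℝ W) (finrank ℝ (EqI G W ⊤)) 3 * (11 / 20) ^ (k - 3) := h3
      _ ≤ (C * (finrank ℝ W : ℝ) / (Fintype.card ι * √(Fintype.card ι))) * (11 / 20) ^ (k - 3) :=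
          mul_le_mul_of_nonneg_right h4 (by positivity)
      _ = _ := by ring
  have h5 : ∑ W ∈ S, wt (Fintype.card ι) (finrank ℝ W) (finrank ℝ (EqI G W ⊤)) k ≤
      (C / (Fintype.card ι * √(Fintype.card ι)) * (11 / 20) ^ (k - 3)) * Fintype.card ι := by
    refine (Finset.sum_le_sum h2).trans ?_
    rw [← Finset.mul_sum]
    refine mul_le_mul_of_nonneg_left ?_ (by positivity)
    exact_mod_cast hS2
  have h6 : (C / (Fintype.card ι * √(Fintype.card ι)) * (11 / 20) ^ (k - 3)) * Fintype.card ι =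
      C * (20 / 11) ^ 3 * (11 / 20) ^ k / √(Fintype.card ι : ℝ) := by
    obtain ⟨j, rfl⟩ : ∃ j, k = j + 3 := ⟨k - 3, by omega⟩
    rw [Nat.add_sub_cancel, pow_add]
    have : (0 : ℝ) < √(Fintype.card ι) := Real.sqrt_pos.2 hb0
    field_simp
  rw [h6] at h5
  calc (Nat.card (Bad G k) : ℝ) ≤ 2 ^ (Fintype.card ι * k) *
        ∑ W ∈ S, wt (Fintype.card ι) (finrank ℝ W) (finrank ℝ (EqI G W ⊤)) k := h1
    _ ≤ 2 ^ (Fintype.card ι * k) * (C * (20 / 11) ^ 3 * (11 / 20) ^ k / √(Fintype.card ι : ℝ)) :=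
        mul_le_mul_of_nonneg_left h5 (by positivity)
    _ = _ := by ring

end Pool.Agent.CMV
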