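import Mathlib
import Pool.Agent.CMTP.PGrp

set_option autoImplicit false

/-!
# Families of half systems that do not generate
-/

namespace Pool.Agent.CMV

open Finset
open scoped BigOperators

/-- systems of half systems for which the translates do not generate -/
def BadHalf {Y : Type} [Fintype Y] (ρ : Y → Y) (Γ : Subgroup (Equiv.Perm Y)) (k : ℕ) :
    Set (Fin k → Finset Y) :=
  {Ψ | (∀ i, CMTP.HalfX ρ (Ψ i)) ∧ ∃ f : Y → ℝ, f ≠ 0 ∧ (∀ y, f (ρ y) = - f y) ∧
    ∀ γ ∈ Γ, ∀ i, ∑ y ∈ Ψ i, f (γ y) = 0}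

end Pool.Agent.CMV
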