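import Mathlib
import Pool.Agent.CMV.Defs
import Pool.Agent.CMV.DefsB
import Pool.Agent.CMTP.PGrp

set_option autoImplicit false

/-!
# CMV-BLK: reduction to the blocks of the group `N`
-/

namespace Pool.Agent.CMV

open Finset
open scoped BigOperators

namespace BLK_

variable {X : Type}

theorem inv_self (h : Equiv.Perm X) (x : X) : (h⁻¹ : Equiv.Perm X) (h x) = x :=
  h.symm_apply_apply x

theorem self_inv (h : Equiv.Perm X) (x : X) : h ((h⁻¹ : Equiv.Perm X) x) = x :=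
  h.apply_symm_apply x

/-- the relation: the same elements of `N` fix both points -/
def rl (N : Subgroup (Equiv.Perm X)) : Setoid X where
  r x y := ∀ n ∈ N, (n x = x ↔ n y = y)
  iseqv := ⟨fun _ _ _ => Iff.rfl, fun h n hn => (h n hn).symm,
    fun h h' n hn => (h n hn).trans (h' n hn)⟩

theorem rl_def (N : Subgroup (Equiv.Perm X)) (x y : X) :
    (rl N) x y ↔ ∀ n ∈ N, (n x = x ↔ n y = y) := Iff.rfl

/-- the hypotheses -/
structure Hyp (H N : Subgroup (Equiv.Perm X)) (ρ : X → X) : Prop where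
  htr : ∀ x y : X, ∃ h ∈ H, h x = y
  hρρ : ∀ x, ρ (ρ x) = x
  hρ1 : ∀ x, ρ x ≠ x
  hρ : ∀ h ∈ H, ∀ x, ρ (h x) = h (ρ x)
  hN : ∀ n, n ∈ N ↔ n ∈ H ∧ ∀ x, n x = x ∨ n x = ρ x

variable {H N : Subgroup (Equiv.Perm X)} {ρ : X → X}

theorem Hyp.conj (h0 : Hyp H N ρ) {h n : Equiv.Perm X} (hh : h ∈ H) (hn : n ∈ N) :
    h⁻¹ * n * h ∈ N := by
  rw [h0.hN] at hn ⊢
  refine ⟨H.mul_mem (H.mul_mem (H.inv_mem hh) hn.1) hh, fun x => ?_⟩
  show h⁻¹ (n (h x)) = x ∨ h⁻¹ (n (h x)) = ρ x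
  rcases hn.2 (h x) with h1 | h1
  · left
    rw [h1, inv_self]
  · right
    rw [h1, ← h0.hρ _ (H.inv_mem hh), inv_self]

theorem Hyp.map (h0 : Hyp H N ρ) {h : Equiv.Perm X} (hh : h ∈ H) {x y : X} (hxy : (rl N) x y) :
    (rl N) (h x) (h y) := by
  intro n hn
  have key : ∀ z, (n (h z) = h z ↔ (h⁻¹ * n * h) z = z) := by
    intro z
    show _ ↔ h⁻¹ (n (h z)) = z
    rw [Equiv.Perm.inv_eq_iff_eq]
  rw [key, key]
  exact hxy _ (h0.conj hh hn)

theorem Hyp.map_iff (h0 : Hyp H N ρ) {h : Equiv.Perm X} (hh : h ∈ H) {x y : X} :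
    (rl N) (h x) (h y) ↔ (rl N) x y := by
  refine ⟨fun h1 => ?_, h0.map hh⟩
  have := h0.map (H.inv_mem hh) h1
  rwa [inv_self, inv_self] at this

theorem Hyp.rho_inj (h0 : Hyp H N ρ) {x y : X} (h : ρ x = ρ y) : x = y := by
  rw [← h0.hρρ x, h, h0.hρρ]

theorem Hyp.rho (h0 : Hyp H N ρ) (x : X) : (rl N) (ρ x) x := by
  intro n hn
  have h1 := (h0.hN n).mp hn
  rw [← h0.hρ n h1.1]
  exact ⟨fun h => h0.rho_inj h, fun h => by rw [h]⟩

open Classical in
/-- the sign of `n` at `x` -/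
noncomputable def sn (n : Equiv.Perm X) (x : X) : ℤ :=
  if n x = x then 1 else -1

theorem sn_pos {n : Equiv.Perm X} {x : X} (h : n x = x) : sn n x = 1 := by
  unfold sn
  rw [if_pos h]

theorem sn_neg {n : Equiv.Perm X} {x : X} (h : ¬ n x = x) : sn n x = -1 := by
  unfold sn
  rw [if_neg h]

theorem Hyp.odd (h0 : Hyp H N ρ) {f : X → ℤ} (hf : ∀ x, f (ρ x) = - f x) {n : Equiv.Perm X}
    (hn : n ∈ N) (z : X) : f (n z) = sn n z * f z := by
  by_cases h : n z = z
  · rw [sn_pos h, h, one_mul]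
  · rcases ((h0.hN n).mp hn).2 z with h1 | h1
    · exact absurd h1 h
    · rw [sn_neg h, h1, hf]
      ring

theorem Hyp.sn_mul (h0 : Hyp H N ρ) {n m : Equiv.Perm X} (hn : n ∈ N) (hm : m ∈ N) (x : X) :
    sn (n * m) x = sn n x * sn m x := by
  have hn' := (h0.hN n).mp hn
  have hm' := (h0.hN m).mp hm
  by_cases h1 : m x = x
  · rw [sn_pos h1, mul_one]
    by_cases h2 : n x = x
    · rw [sn_pos h2, sn_pos]
      show n (m x) = x
      rw [h1, h2]
    · rw [sn_neg h2, sn_neg]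
      show ¬ n (m x) = x
      rw [h1]
      exact h2
  · have h3 : m x = ρ x := (hm'.2 x).resolve_left h1
    rw [sn_neg h1]
    by_cases h2 : n x = x
    · rw [sn_pos h2, sn_neg]
      · ring
      · show ¬ n (m x) = x
        rw [h3, ← h0.hρ n hn'.1, h2]
        exact h0.hρ1 x
    · rw [sn_neg h2, sn_pos]
      · ring
      · show n (m x) = x
        rw [h3, ← h0.hρ n hn'.1, (hn'.2 x).resolve_left h2, h0.hρρ]

theorem sn_sq (n : Equiv.Perm X) (x : X) : sn n x * sn n x = 1 := by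
  by_cases h : n x = x
  · rw [sn_pos h]
    ring
  · rw [sn_neg h]
    ring

open Classical in
/-- orthogonality -/
theorem Hyp.orth (h0 : Hyp H N ρ) [Fintype N] (x z : X) :
    ∑ n : N, sn (n : Equiv.Perm X) x * sn (n : Equiv.Perm X) z =
      if (rl N) z x then (Fintype.card N : ℤ) else 0 := by
  by_cases h : (rl N) z x
  · rw [if_pos h]
    have : ∀ n : N, sn (n : Equiv.Perm X) x * sn (n : Equiv.Perm X) z = 1 := by
      intro n
      have h1 := h n n.2
      by_cases h2 : (n : Equiv.Perm X) z = z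
      · rw [sn_pos h2, sn_pos (h1.mp h2)]
        ring
      · rw [sn_neg h2, sn_neg (fun h3 => h2 (h1.mpr h3))]
        ring
    rw [Finset.sum_congr rfl (fun n _ => this n)]
    simp
  · rw [if_neg h]
    have h1 : ∃ n ∈ N, ¬ (n z = z ↔ n x = x) := by
      by_contra hc
      push Not at hc
      exact h (fun n hn => by
        have := hc n hn
        tauto)
    obtain ⟨m, hm, hm1⟩ := h1
    have h2 : sn m x * sn m z = -1 := by
      by_cases a : m z = z
      · have b : ¬ m x = x := fun hb => hm1 ⟨fun _ => hb, fun _ => a⟩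
        rw [sn_pos a, sn_neg b]
        ring
      · have b : m x = x := by
          by_contra hb
          exact hm1 ⟨fun ha => absurd ha a, fun hb' => absurd hb' hb⟩
        rw [sn_neg a, sn_pos b]
        ring
    have h3 : ∑ n : N, sn (n : Equiv.Perm X) x * sn (n : Equiv.Perm X) z =
        ∑ n : N, sn ((n * ⟨m, hm⟩ : N) : Equiv.Perm X) x *
          sn ((n * ⟨m, hm⟩ : N) : Equiv.Perm X) z :=
      (Fintype.sum_equiv (Equiv.mulRight (⟨m, hm⟩ : N)) _ _ (fun n => rfl)).symm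
    have h4 : ∀ n : N, sn ((n * ⟨m, hm⟩ : N) : Equiv.Perm X) x *
          sn ((n * ⟨m, hm⟩ : N) : Equiv.Perm X) z =
        -(sn (n : Equiv.Perm X) x * sn (n : Equiv.Perm X) z) := by
      intro n
      have e : ((n * ⟨m, hm⟩ : N) : Equiv.Perm X) = (n : Equiv.Perm X) * m := rfl
      rw [e, h0.sn_mul n.2 hm, h0.sn_mul n.2 hm]
      calc sn (n : Equiv.Perm X) x * sn m x * (sn (n : Equiv.Perm X) z * sn m z) =
          (sn (n : Equiv.Perm X) x * sn (n : Equiv.Perm X) z) * (sn m x * sn m z) := by ring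
        _ = _ := by
          rw [h2]
          ring
    rw [Finset.sum_congr rfl (fun n _ => h4 n), Finset.sum_neg_distrib] at h3
    linarith

open Classical in
/-- the sum over one class is zero -/
theorem Hyp.class_sum [Fintype X] (h0 : Hyp H N ρ) {f : X → ℤ} (hf : ∀ x, f (ρ x) = - f x) {Φ : Finset X}
    (hs : ∀ h ∈ H, ∑ x ∈ Φ, f (h x) = 0) {h : Equiv.Perm X} (hh : h ∈ H) (x₁ : X) :
    ∑ x ∈ Φ, (if (rl N) (h x) x₁ then f (h x) else 0) = 0 := by
  have : Fintype N := Fintype.ofFinite N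
  have h1 : ∑ n : N, sn (n : Equiv.Perm X) x₁ * ∑ x ∈ Φ, f ((n : Equiv.Perm X) (h x)) = 0 := by
    refine Finset.sum_eq_zero (fun n _ => ?_)
    have := hs ((n : Equiv.Perm X) * h) (H.mul_mem ((h0.hN n).mp n.2).1 hh)
    have e : ∑ x ∈ Φ, f (((n : Equiv.Perm X) * h) x) = ∑ x ∈ Φ, f ((n : Equiv.Perm X) (h x)) :=
      rfl
    rw [← e, this, mul_zero]
  have h2 : ∑ n : N, sn (n : Equiv.Perm X) x₁ * ∑ x ∈ Φ, f ((n : Equiv.Perm X) (h x)) =
      ∑ x ∈ Φ, f (h x) * ∑ n : N, sn (n : Equiv.Perm X) x₁ * sn (n : Equiv.Perm X) (h x) := by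
    simp only [Finset.mul_sum]
    rw [Finset.sum_comm]
    refine Finset.sum_congr rfl (fun x _ => Finset.sum_congr rfl (fun n _ => ?_))
    rw [h0.odd hf n.2 (h x)]
    ring
  rw [h2] at h1
  have h3 : ∀ x ∈ Φ, f (h x) * ∑ n : N, sn (n : Equiv.Perm X) x₁ * sn (n : Equiv.Perm X) (h x) =
      (Fintype.card N : ℤ) * (if (rl N) (h x) x₁ then f (h x) else 0) := by
    intro x _
    rw [h0.orth]
    split_ifs
    · ring
    · ring
  rw [Finset.sum_congr rfl h3, ← Finset.mul_sum] at h1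
  have h4 : (Fintype.card N : ℤ) ≠ 0 := by
    exact_mod_cast Fintype.card_ne_zero
  exact (mul_eq_zero.mp h1).resolve_left h4

end BLK_

open BLK_ in
theorem block_reduction {X : Type} [Fintype X] [Nonempty X] (H : Subgroup (Equiv.Perm X))
    (htr : ∀ x y : X, ∃ h ∈ H, h x = y) (ρ : X → X) (hρρ : ∀ x, ρ (ρ x) = x)
    (hρ1 : ∀ x, ρ x ≠ x) (hρ : ∀ h ∈ H, ∀ x, ρ (h x) = h (ρ x))
    (N : Subgroup (Equiv.Perm X)) (hN : ∀ n, n ∈ N ↔ n ∈ H ∧ ∀ x, n x = x ∨ n x = ρ x) :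
    ∃ (Y : Type) (_ : Fintype Y) (_ : Nonempty Y) (ρ' : Y → Y) (Γ : Subgroup (Equiv.Perm Y))
      (b k : ℕ), (∀ y, ρ' (ρ' y) = y) ∧ (∀ y, ρ' y ≠ y) ∧
      (∀ γ ∈ Γ, ∀ y, ρ' (γ y) = γ (ρ' y)) ∧ (∀ x y : Y, ∃ γ ∈ Γ, γ x = y) ∧
      Fintype.card Y = 2 * b ∧ 2 * (b * k) = Fintype.card X ∧ Nat.card N ≤ 2 ^ k ∧
      (8 ≤ Nat.card N → 3 ≤ k) ∧
      Nat.card {Φ : Finset X // CMTP.HalfX ρ Φ ∧ ¬ CMTP.NDeg H ρ Φ} ≤
        Nat.card (BadHalf ρ' Γ k) := by
  classical
  have h0 : Hyp H N ρ := ⟨htr, hρρ, hρ1, hρ, hN⟩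
  obtain ⟨x₀⟩ := ‹Nonempty X›
  set Y : Type := {x : X // (rl N) x x₀} with hY
  have hNY : Nonempty Y := ⟨⟨x₀, (rl N).refl x₀⟩⟩
  set ρ' : Y → Y := fun y => ⟨ρ y.1, (rl N).trans (h0.rho y.1) y.2⟩ with hρ'
  have r1 : ∀ y, ρ' (ρ' y) = y := fun y => Subtype.ext (hρρ y.1)
  have r2 : ∀ y, ρ' y ≠ y := fun y h => hρ1 y.1 (congrArg Subtype.val h)
  -- the group
  set Γ : Subgroup (Equiv.Perm Y) :=
    { carrier := {γ | ∃ h ∈ H, ∀ y : Y, ((γ y : Y) : X) = h y.1}
      mul_mem' := by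
        rintro a b ⟨h, hh, h1⟩ ⟨h', hh', h1'⟩
        refine ⟨h * h', H.mul_mem hh hh', fun y => ?_⟩
        show ((a (b y) : Y) : X) = h (h' y.1)
        rw [h1, h1']
      one_mem' := ⟨1, H.one_mem, fun y => rfl⟩
      inv_mem' := by
        rintro a ⟨h, hh, h1⟩
        refine ⟨h⁻¹, H.inv_mem hh, fun y => ?_⟩
        rw [Equiv.Perm.eq_inv_iff_eq, ← h1, self_inv] } with hΓ
  have r3 : ∀ γ ∈ Γ, ∀ y, ρ' (γ y) = γ (ρ' y) := by
    rintro γ ⟨h, hh, h1⟩ y
    refine Subtype.ext ?_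
    show ρ ((γ y : Y) : X) = ((γ (ρ' y) : Y) : X)
    rw [h1, h1, hρ h hh]
  have r4 : ∀ x y : Y, ∃ γ ∈ Γ, γ x = y := by
    intro x y
    obtain ⟨h, hh, h1⟩ := htr x.1 y.1
    have h2 : ∀ z, (rl N) (h z) x₀ ↔ (rl N) z x₀ := by
      intro z
      have h3 : (rl N) (h x.1) x₀ := by
        rw [h1]
        exact y.2
      constructor
      · intro h4
        exact (rl N).trans ((h0.map_iff hh).mp ((rl N).trans h4 ((rl N).symm h3))) x.2
      · intro h4
        exact (rl N).trans (h0.map hh ((rl N).trans h4 ((rl N).symm x.2))) h3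
    refine ⟨Equiv.Perm.subtypePerm h h2, ⟨h, hh, fun z => rfl⟩, Subtype.ext h1⟩
  -- cardinalities
  have r5 : ∃ b, Fintype.card Y = 2 * b := by
    have h1 : ∑ _y : Y, (1 : ZMod 2) = 0 := by
      refine Finset.sum_involution (fun y _ => ρ' y) ?_ ?_ ?_ ?_
      · intro y _
        exact CharTwo.add_self_eq_zero 1
      · intro y _ _
        exact r2 y
      · intro y _
        exact Finset.mem_univ _
      · intro y _
        exact r1 y
    rw [Finset.sum_const, Finset.card_univ, nsmul_eq_mul, mul_one] at h1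
    have h2 := (ZMod.natCast_eq_zero_iff _ _).mp h1
    obtain ⟨b, hb⟩ := h2
    exact ⟨b, hb⟩
  obtain ⟨b, hb⟩ := r5
  set Qt : Type := Quotient (rl N) with hQt
  let _ : Fintype Qt := Fintype.ofFinite Qt
  set k : ℕ := Fintype.card Qt with hk
  have hτ : ∀ c : Qt, ∃ h ∈ H, h c.out = x₀ := fun c => htr c.out x₀
  choose τ hτH hτx using hτ
  have hcls : ∀ (c : Qt) (x : X), (rl N) (τ c x) x₀ ↔ (Quotient.mk (rl N) x) = c := by
    intro c x
    have h1 : (rl N) (τ c x) x₀ ↔ (rl N) x c.out := by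
      rw [← hτx c]
      exact h0.map_iff (hτH c)
    rw [h1]
    constructor
    · intro h2
      rw [← Quotient.out_eq c]
      exact Quotient.sound h2
    · intro h2
      rw [← Quotient.out_eq c] at h2
      exact Quotient.exact h2
  have r6 : 2 * (b * k) = Fintype.card X := by
    have eq : X ≃ Qt × Y :=
      { toFun := fun x => (Quotient.mk (rl N) x,
          ⟨τ (Quotient.mk (rl N) x) x, (hcls _ x).mpr rfl⟩)
        invFun := fun p => ((τ p.1)⁻¹ : Equiv.Perm X) p.2.1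
        left_inv := fun x => inv_self _ _
        right_inv := by
          rintro ⟨c, y⟩
          have h1 : Quotient.mk (rl N) (((τ c)⁻¹ : Equiv.Perm X) y.1) = c := by
            rw [← hcls, self_inv]
            exact y.2
          refine Prod.ext h1 (Subtype.ext ?_)
          show τ (Quotient.mk (rl N) (((τ c)⁻¹ : Equiv.Perm X) y.1))
            (((τ c)⁻¹ : Equiv.Perm X) y.1) = y.1
          rw [h1, self_inv] }
    rw [Fintype.card_congr eq, Fintype.card_prod, hb, ← hk]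
    ring
  have r7 : Nat.card N ≤ 2 ^ k := by
    have h1 : Function.Injective (fun (n : N) (c : Qt) =>
        decide ((n : Equiv.Perm X) c.out = c.out)) := by
      intro n n' h
      refine Subtype.ext (Equiv.ext fun x => ?_)
      have h2 := congrFun h (Quotient.mk (rl N) x)
      simp only [decide_eq_decide] at h2
      have h3 : (rl N) (Quotient.mk (rl N) x).out x :=
        Quotient.exact (Quotient.out_eq (Quotient.mk (rl N) x))
      have h4 : ((n : Equiv.Perm X) x = x ↔ (n' : Equiv.Perm X) x = x) :=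
        (h3 n n.2).symm.trans (h2.trans (h3 n' n'.2))
      have h5 := ((hN n).mp n.2).2 x
      have h6 := ((hN n').mp n'.2).2 x
      by_cases h7 : (n : Equiv.Perm X) x = x
      · rw [h7, h4.mp h7]
      · rw [h5.resolve_left h7, h6.resolve_left (fun h8 => h7 (h4.mpr h8))]
    have h2 := Nat.card_le_card_of_injective _ h1
    refine h2.trans (le_of_eq ?_)
    rw [Nat.card_eq_fintype_card, Fintype.card_fun, Fintype.card_bool]
  have r8 : 8 ≤ Nat.card N → 3 ≤ k := by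
    intro h
    have h1 : 2 ^ 3 ≤ 2 ^ k := by
      calc 2 ^ 3 = 8 := by norm_num
        _ ≤ _ := h.trans r7
    exact (Nat.pow_le_pow_iff_right (by norm_num)).mp h1
  refine ⟨Y, inferInstance, hNY, ρ', Γ, b, k, r1, r2, r3, r4, hb, r6, r7, r8, ?_⟩
  -- the half systems
  set e : Fin k ≃ Qt := (Fintype.equivFin Qt).symm with he
  set Ψ : Finset X → Fin k → Finset Y := fun Φ i =>
    univ.filter (fun y : Y => ((τ (e i))⁻¹ : Equiv.Perm X) y.1 ∈ Φ) with hΨ
  have hmem : ∀ (Φ : Finset X) (i : Fin k) (y : Y),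
      y ∈ Ψ Φ i ↔ ((τ (e i))⁻¹ : Equiv.Perm X) y.1 ∈ Φ := by
    intro Φ i y
    simp [hΨ]
  have hinj : Function.Injective Ψ := by
    intro Φ Φ' h
    ext x
    have h1 : (rl N) (τ (Quotient.mk (rl N) x) x) x₀ := (hcls _ x).mpr rfl
    obtain ⟨i, hi⟩ := e.surjective (Quotient.mk (rl N) x)
    have h2 := hmem Φ i ⟨_, h1⟩
    have h3 := hmem Φ' i ⟨_, h1⟩
    rw [h] at h2
    have h4 := h2.symm.trans h3
    rw [hi] at h4
    simpa using h4
  have hgood : ∀ Φ : Finset X, CMTP.HalfX ρ Φ → ¬ CMTP.NDeg H ρ Φ → Ψ Φ ∈ BadHalf ρ' Γ k := by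
    intro Φ hΦ hd
    refine ⟨fun i y => ?_, ?_⟩
    · rw [hmem, hmem, hΦ, hρ _ (H.inv_mem (hτH _))]
    · unfold CMTP.NDeg at hd
      push Not at hd
      obtain ⟨f, hf, hs, hne⟩ := hd
      obtain ⟨x₁, hx₁⟩ := Function.ne_iff.mp hne
      obtain ⟨h, hh, hx⟩ := htr x₀ x₁
      refine ⟨fun y => (f (h y.1) : ℝ), ?_, ?_, ?_⟩
      · intro h1
        have h2 := congrFun h1 ⟨x₀, (rl N).refl x₀⟩
        have h3 : (f (h x₀) : ℝ) = 0 := h2
        rw [hx] at h3
        exact hx₁ (by exact_mod_cast h3)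
      · intro y
        show (f (h (ρ y.1)) : ℝ) = - (f (h y.1) : ℝ)
        rw [← hρ h hh, hf]
        push_cast
        rfl
      · rintro γ ⟨g, hg, hγ⟩ i
        have hgx : (rl N) (g x₀) x₀ := by
          rw [← hγ ⟨x₀, (rl N).refl x₀⟩]
          exact (γ _).2
        have hall : h * g * τ (e i) ∈ H := H.mul_mem (H.mul_mem hh hg) (hτH _)
        have h1 := h0.class_sum hf hs hall x₁
        have hiff : ∀ x, (rl N) ((h * g * τ (e i)) x) x₁ ↔ (rl N) (τ (e i) x) x₀ := by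
          intro x
          show (rl N) (h (g (τ (e i) x))) x₁ ↔ _
          rw [← hx, h0.map_iff hh]
          constructor
          · intro h2
            exact (h0.map_iff hg).mp ((rl N).trans h2 ((rl N).symm hgx))
          · intro h2
            exact (rl N).trans (h0.map hg h2) hgx
        have h2 : ∑ y ∈ Ψ Φ i, f (h ((γ y : Y) : X)) = 0 := by
          rw [← h1, ← Finset.sum_filter]
          refine Finset.sum_bij' (i := fun y _ => ((τ (e i))⁻¹ : Equiv.Perm X) y.1)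
            (j := fun x hx => ⟨τ (e i) x, (hiff x).mp (Finset.mem_filter.mp hx).2⟩) ?_ ?_ ?_ ?_ ?_
          · intro y hy
            rw [Finset.mem_filter]
            refine ⟨(hmem _ _ _).mp hy, ?_⟩
            rw [hiff, self_inv]
            exact y.2
          · intro x hx
            rw [hmem]
            show ((τ (e i))⁻¹ : Equiv.Perm X) (τ (e i) x) ∈ Φ
            rw [inv_self]
            exact (Finset.mem_filter.mp hx).1
          · intro y hy
            refine Subtype.ext ?_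
            show τ (e i) (((τ (e i))⁻¹ : Equiv.Perm X) y.1) = y.1
            rw [self_inv]
          · intro x hx
            show ((τ (e i))⁻¹ : Equiv.Perm X) (τ (e i) x) = x
            rw [inv_self]
          · intro y hy
            rw [hγ]
            show _ = f (h (g (τ (e i) (((τ (e i))⁻¹ : Equiv.Perm X) y.1))))
            rw [self_inv]
        have h3 : ∑ y ∈ Ψ Φ i, (f (h ((γ y : Y) : X)) : ℝ) =
            ((∑ y ∈ Ψ Φ i, f (h ((γ y : Y) : X)) : ℤ) : ℝ) := by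
          push_cast
          rfl
        rw [h3, h2, Int.cast_zero]
  refine Nat.card_le_card_of_injective
    (fun Φ : {Φ : Finset X // CMTP.HalfX ρ Φ ∧ ¬ CMTP.NDeg H ρ Φ} =>
      (⟨Ψ Φ.1, hgood Φ.1 Φ.2.1 Φ.2.2⟩ : BadHalf ρ' Γ k)) ?_
  intro Φ Φ' h
  exact Subtype.ext (hinj (congrArg Subtype.val h))

end Pool.Agent.CMV
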