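import Mathlib
import Pool.Agent.CMV.Defs
import Pool.Agent.CMV.DefsB

set_option autoImplicit false
set_option linter.unusedSectionVars false

/-!
# Odd functions, half systems and sign vectors
-/

namespace Pool.Agent.CMV

open Finset Module
open scoped BigOperators RealInnerProductSpace

section bridge_aux

variable {Y : Type} [Fintype Y]

/-- there is a half system -/
theorem Bridge_exists_half (ρ : Y → Y) (hρρ : ∀ y, ρ (ρ y) = y) (hρ1 : ∀ y, ρ y ≠ y) :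
    ∃ R : Finset Y, CMTP.HalfX ρ R := by
  classical
  let e := Fintype.equivFin Y
  refine ⟨Finset.univ.filter fun y => e y < e (ρ y), ?_⟩
  intro y
  simp only [Finset.mem_filter, Finset.mem_univ, true_and, hρρ, not_lt]
  constructor
  · intro h
    exact h.le
  · intro h
    exact lt_of_le_of_ne h fun h1 => hρ1 y (e.injective h1).symm

/-- the odd extension of a function on the half system -/
noncomputable def Bridge_ext (ρ : Y → Y) (R : Finset Y) (hR : CMTP.HalfX ρ R)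
    (F : {y // y ∈ R} → ℝ) (y : Y) : ℝ :=
  open Classical in
  if h : y ∈ R then F ⟨y, h⟩ else - F ⟨ρ y, by
    by_contra h1
    exact h ((hR y).2 h1)⟩

variable (ρ : Y → Y) (R : Finset Y) (hR : CMTP.HalfX ρ R)

theorem Bridge_ext_mem (F : {y // y ∈ R} → ℝ) (r : {y // y ∈ R}) :
    Bridge_ext ρ R hR F r = F r := by
  rw [Bridge_ext, dif_pos r.2]

theorem Bridge_ext_odd (hρρ : ∀ y, ρ (ρ y) = y) (F : {y // y ∈ R} → ℝ) (y : Y) :
    Bridge_ext ρ R hR F (ρ y) = - Bridge_ext ρ R hR F y := by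
  by_cases h : y ∈ R
  · have h1 : ρ y ∉ R := (hR y).1 h
    rw [Bridge_ext, Bridge_ext, dif_neg h1, dif_pos h]
    simp only [hρρ]
  · have h1 : ρ y ∈ R := by
      by_contra h2
      exact h ((hR y).2 h2)
    rw [Bridge_ext, Bridge_ext, dif_pos h1, dif_neg h, neg_neg]

/-- an odd function is the odd extension of its restriction -/
theorem Bridge_ext_eq (f : Y → ℝ) (hf : ∀ y, f (ρ y) = - f y) (F : {y // y ∈ R} → ℝ)
    (hF : ∀ r, F r = f r) (y : Y) : Bridge_ext ρ R hR F y = f y := by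
  by_cases h : y ∈ R
  · rw [Bridge_ext, dif_pos h, hF]
  · rw [Bridge_ext, dif_neg h, hF, hf, neg_neg]

theorem Bridge_ext_add (F F' : {y // y ∈ R} → ℝ) (y : Y) :
    Bridge_ext ρ R hR (F + F') y = Bridge_ext ρ R hR F y + Bridge_ext ρ R hR F' y := by
  by_cases h : y ∈ R
  · simp only [Bridge_ext, dif_pos h, Pi.add_apply]
  · simp only [Bridge_ext, dif_neg h, Pi.add_apply, neg_add]

theorem Bridge_ext_smul (c : ℝ) (F : {y // y ∈ R} → ℝ) (y : Y) :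
    Bridge_ext ρ R hR (c • F) y = c * Bridge_ext ρ R hR F y := by
  by_cases h : y ∈ R
  · simp only [Bridge_ext, dif_pos h, Pi.smul_apply, smul_eq_mul]
  · simp only [Bridge_ext, dif_neg h, Pi.smul_apply, smul_eq_mul, mul_neg]

/-- the sum of an even function -/
theorem Bridge_sum_even (ρ : Y → Y) (R : Finset Y) (hR : CMTP.HalfX ρ R) (hρρ : ∀ y, ρ (ρ y) = y) (u : Y → ℝ) (hu : ∀ y, u (ρ y) = u y) :
    ∑ y, u y = 2 * ∑ y ∈ R, u y := by
  classical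
  have h1 : ∑ y ∈ Rᶜ, u y = ∑ y ∈ R, u y := by
    refine Finset.sum_nbij' ρ ρ ?_ ?_ ?_ ?_ ?_
    · intro y hy
      by_contra h2
      exact (Finset.mem_compl.1 hy) ((hR y).2 h2)
    · intro y hy
      exact Finset.mem_compl.2 ((hR y).1 hy)
    · intro y _
      exact hρρ y
    · intro y _
      exact hρρ y
    · intro y _
      exact (hu y).symm
  rw [← Finset.sum_add_sum_compl R u, h1]
  ring

/-- the sum of an odd function over a half system -/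
theorem Bridge_sum_half [DecidableEq Y] (ρ : Y → Y) (R : Finset Y) (hR : CMTP.HalfX ρ R) (hρρ : ∀ y, ρ (ρ y) = y) (Ψ : Finset Y)
    (hΨ : CMTP.HalfX ρ Ψ) (h : Y → ℝ) (hh : ∀ y, h (ρ y) = - h y) :
    ∑ r ∈ R, sg (decide (r ∈ Ψ)) * h r = ∑ y ∈ Ψ, h y := by
  have h1 := CMTP.half_sum ρ hρρ hR hΨ h hh
  have h2 : ∑ r ∈ R \ Ψ, h r = ∑ r ∈ R, if r ∈ Ψ then 0 else h r := by
    rw [Finset.sdiff_eq_filter, Finset.sum_filter]
    refine Finset.sum_congr rfl fun r _ => ?_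
    by_cases h : r ∈ Ψ
    · simp [h]
    · simp [h]
  have h3 : ∑ r ∈ R, sg (decide (r ∈ Ψ)) * h r =
      ∑ r ∈ R, h r - 2 * ∑ r ∈ R, if r ∈ Ψ then 0 else h r := by
    rw [Finset.mul_sum, ← Finset.sum_sub_distrib]
    refine Finset.sum_congr rfl fun r _ => ?_
    by_cases h : r ∈ Ψ
    · simp [sg, h]
    · simp [sg, h]
      ring
  rw [h3, ← h2]
  simp only [nsmul_eq_mul, Nat.cast_ofNat] at h1
  linarith

variable (Γ : Subgroup (Equiv.Perm Y))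

/-- the relation between isometries and permutations -/
def Bridge_rel (g : EuclideanSpace ℝ {y // y ∈ R} ≃ₗᵢ[ℝ] EuclideanSpace ℝ {y // y ∈ R})
    (γ : Equiv.Perm Y) : Prop :=
  ∀ (F : EuclideanSpace ℝ {y // y ∈ R}) (r : {y // y ∈ R}),
    g F r = Bridge_ext ρ R hR F ((γ⁻¹ : Equiv.Perm Y) r)

theorem Bridge_rel_all (hρρ : ∀ y, ρ (ρ y) = y)
    (g : EuclideanSpace ℝ {y // y ∈ R} ≃ₗᵢ[ℝ] EuclideanSpace ℝ {y // y ∈ R})
    (γ : Equiv.Perm Y) (hγ : ∀ y, ρ ((γ⁻¹ : Equiv.Perm Y) y) = (γ⁻¹ : Equiv.Perm Y) (ρ y))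
    (h : Bridge_rel ρ R hR g γ) (F : EuclideanSpace ℝ {y // y ∈ R}) (y : Y) :
    Bridge_ext ρ R hR (g F) y = Bridge_ext ρ R hR F ((γ⁻¹ : Equiv.Perm Y) y) := by
  refine Bridge_ext_eq ρ R hR (fun y => Bridge_ext ρ R hR F ((γ⁻¹ : Equiv.Perm Y) y)) ?_ _
    (fun r => h F r) y
  intro y
  show Bridge_ext ρ R hR F ((γ⁻¹ : Equiv.Perm Y) (ρ y)) = _
  rw [← hγ, Bridge_ext_odd ρ R hR hρρ]

/-- the isometry of a permutation -/
theorem Bridge_exists (hρρ : ∀ y, ρ (ρ y) = y) (γ : Equiv.Perm Y)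
    (hγ : ∀ y, ρ ((γ⁻¹ : Equiv.Perm Y) y) = (γ⁻¹ : Equiv.Perm Y) (ρ y)) :
    ∃ g : EuclideanSpace ℝ {y // y ∈ R} ≃ₗᵢ[ℝ] EuclideanSpace ℝ {y // y ∈ R},
      Bridge_rel ρ R hR g γ := by
  let L : EuclideanSpace ℝ {y // y ∈ R} →ₗ[ℝ] EuclideanSpace ℝ {y // y ∈ R} :=
    { toFun := fun F => WithLp.toLp 2 fun r => Bridge_ext ρ R hR F ((γ⁻¹ : Equiv.Perm Y) r)
      map_add' := by
        intro F F'
        ext r
        exact Bridge_ext_add ρ R hR F F' _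
      map_smul' := by
        intro c F
        ext r
        exact Bridge_ext_smul ρ R hR c F _ }
  have hL : ∀ F, ‖L F‖ = ‖F‖ := by
    intro F
    have h0 : ∀ F : EuclideanSpace ℝ {y // y ∈ R}, ‖F‖ ^ 2 =
        1 / 2 * ∑ y, (Bridge_ext ρ R hR F y) ^ 2 := by
      intro F
      rw [Bridge_sum_even ρ R hR hρρ (fun y => (Bridge_ext ρ R hR F y) ^ 2) (fun y => by
        show (Bridge_ext ρ R hR F (ρ y)) ^ 2 = _
        rw [Bridge_ext_odd ρ R hR hρρ, neg_sq]), EuclideanSpace.real_norm_sq_eq,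
        ← Finset.sum_coe_sort R]
      have h1 : ∀ r : {y // y ∈ R}, (Bridge_ext ρ R hR F r) ^ 2 = (F r) ^ 2 := by
        intro r
        rw [Bridge_ext_mem]
      rw [Finset.sum_congr rfl fun r _ => h1 r]
      ring
    have h2 : ∀ y, Bridge_ext ρ R hR (L F) y =
        Bridge_ext ρ R hR F ((γ⁻¹ : Equiv.Perm Y) y) := by
      intro y
      refine Bridge_ext_eq ρ R hR (fun y => Bridge_ext ρ R hR F ((γ⁻¹ : Equiv.Perm Y) y)) ?_ _
        (fun r => rfl) y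
      intro y
      show Bridge_ext ρ R hR F ((γ⁻¹ : Equiv.Perm Y) (ρ y)) = _
      rw [← hγ, Bridge_ext_odd ρ R hR hρρ]
    have h3 : ‖L F‖ ^ 2 = ‖F‖ ^ 2 := by
      rw [h0, h0]
      congr 1
      rw [Finset.sum_congr rfl fun y _ => by rw [h2 y]]
      exact Fintype.sum_equiv (γ⁻¹ : Equiv.Perm Y) _ _ fun y => rfl
    exact (pow_left_inj₀ (norm_nonneg _) (norm_nonneg _) two_ne_zero).1 h3
  let L' : EuclideanSpace ℝ {y // y ∈ R} →ₗᵢ[ℝ] EuclideanSpace ℝ {y // y ∈ R} :=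
    { toLinearMap := L, norm_map' := hL }
  refine ⟨L'.toLinearIsometryEquiv rfl, ?_⟩
  intro F r
  rfl

theorem Bridge_ext_bv [DecidableEq {y // y ∈ R}] (i : {y // y ∈ R}) (y : Y) :
    Bridge_ext ρ R hR (bv i : EuclideanSpace ℝ {y // y ∈ R}) y =
    (open Classical in if y = i then 1 else if ρ y = i then -1 else 0) := by
  by_cases hy : y ∈ R
  · rw [Bridge_ext, dif_pos hy]
    by_cases h2 : y = i
    · have h3 : (⟨y, hy⟩ : {y // y ∈ R}) = i := Subtype.ext h2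
      rw [if_pos h2, h3, bv]
      simp
    · have h3 : (⟨y, hy⟩ : {y // y ∈ R}) ≠ i := fun h4 => h2 (congrArg Subtype.val h4)
      have h4 : ρ y ≠ i := by
        intro h5
        have := i.2
        rw [← h5] at this
        exact (hR y).1 hy this
      rw [if_neg h2, if_neg h4, bv]
      simp [h3]
  · rw [Bridge_ext, dif_neg hy]
    have h2 : y ≠ i := by
      intro h3
      exact hy (h3 ▸ i.2)
    rw [if_neg h2]
    by_cases h4 : ρ y = i
    · rw [if_pos h4, bv]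
      simp [h4]
    · rw [if_neg h4, bv]
      have h5 : ∀ hh : ρ y ∈ R, (⟨ρ y, hh⟩ : {y // y ∈ R}) ≠ i :=
        fun hh h6 => h4 (congrArg Subtype.val h6)
      simp [h5]

theorem Bridge_rel_bv_pos [DecidableEq {y // y ∈ R}]
    (g : EuclideanSpace ℝ {y // y ∈ R} ≃ₗᵢ[ℝ] EuclideanSpace ℝ {y // y ∈ R})
    (γ : Equiv.Perm Y) (h : Bridge_rel ρ R hR g γ) (i j : {y // y ∈ R}) (hij : γ i = j)
    (hρρ : ∀ y, ρ (ρ y) = y) (hγ : ∀ y, ρ (γ y) = γ (ρ y)) :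
    g (bv i) = bv j := by
  ext r
  rw [h, Bridge_ext_bv]
  by_cases hr : r = j
  · rw [if_pos, bv, hr]
    · simp
    · rw [hr, ← hij]
      simp
  · have h2 : (γ⁻¹ : Equiv.Perm Y) r ≠ i := by
      intro h3
      rw [Equiv.Perm.inv_eq_iff_eq] at h3
      exact hr (Subtype.ext (h3.trans hij))
    have h3 : ρ ((γ⁻¹ : Equiv.Perm Y) r) ≠ i := by
      intro h4
      have h5 : (γ⁻¹ : Equiv.Perm Y) r = ρ i := by rw [← h4, hρρ]
      rw [Equiv.Perm.inv_eq_iff_eq, ← hγ, hij] at h5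
      have h6 := r.2
      rw [h5] at h6
      exact (hR j).1 j.2 h6
    rw [if_neg h2, if_neg h3, bv]
    simp [hr]

theorem Bridge_rel_bv_neg [DecidableEq {y // y ∈ R}]
    (g : EuclideanSpace ℝ {y // y ∈ R} ≃ₗᵢ[ℝ] EuclideanSpace ℝ {y // y ∈ R})
    (γ : Equiv.Perm Y) (h : Bridge_rel ρ R hR g γ) (i j : {y // y ∈ R}) (hij : γ i = ρ j)
    (hρρ : ∀ y, ρ (ρ y) = y) (hγ : ∀ y, ρ (γ y) = γ (ρ y)) :
    g (bv i) = - bv j := by
  ext r
  rw [h, Bridge_ext_bv]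
  have hj : (γ⁻¹ : Equiv.Perm Y) (j : Y) = ρ i := by
    rw [Equiv.Perm.inv_eq_iff_eq, ← hγ, hij, hρρ]
  by_cases hr : r = j
  · have h2 : (γ⁻¹ : Equiv.Perm Y) r ≠ i := by
      rw [hr, hj]
      intro h3
      have h4 := i.2
      exact (hR i).1 h4 (by rw [h3]; exact h4)
    have h3 : ρ ((γ⁻¹ : Equiv.Perm Y) r) = i := by
      rw [hr, hj, hρρ]
    rw [if_neg h2, if_pos h3, bv, hr]
    simp
  · have h2 : (γ⁻¹ : Equiv.Perm Y) r ≠ i := by
      intro h3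
      rw [Equiv.Perm.inv_eq_iff_eq, hij] at h3
      have h6 := r.2
      rw [h3] at h6
      exact (hR j).1 j.2 h6
    have h3 : ρ ((γ⁻¹ : Equiv.Perm Y) r) ≠ i := by
      intro h4
      have h5 : (γ⁻¹ : Equiv.Perm Y) r = ρ i := by rw [← h4, hρρ]
      rw [← hj] at h5
      exact hr (Subtype.ext ((γ⁻¹ : Equiv.Perm Y).injective h5))
    rw [if_neg h2, if_neg h3, bv]
    simp [hr]

end bridge_aux

theorem bridge (C : ℝ) (hA : ∀ (ι : Type) [Fintype ι] [DecidableEq ι] [Nonempty ι]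
      (G : Subgroup (EuclideanSpace ℝ ι ≃ₗᵢ[ℝ] EuclideanSpace ℝ ι)), Signed G → ∀ k : ℕ, 3 ≤ k →
      (Nat.card (Bad G k) : ℝ) ≤ C * (11 / 20) ^ k * 2 ^ (Fintype.card ι * k) /
        √(Fintype.card ι : ℝ))
    (Y : Type) [Fintype Y] [Nonempty Y] (ρ : Y → Y) (hρρ : ∀ y, ρ (ρ y) = y) (hρ1 : ∀ y, ρ y ≠ y)
    (Γ : Subgroup (Equiv.Perm Y)) (hρ : ∀ γ ∈ Γ, ∀ y, ρ (γ y) = γ (ρ y))
    (htr : ∀ x y : Y, ∃ γ ∈ Γ, γ x = y) (b : ℕ) (hb : Fintype.card Y = 2 * b) (k : ℕ)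
    (hk : 3 ≤ k) :
    (Nat.card (BadHalf ρ Γ k) : ℝ) ≤ C * (11 / 20) ^ k * 2 ^ (b * k) / √b := by
  classical
  obtain ⟨R, hR⟩ := Bridge_exists_half ρ hρρ hρ1
  have hcard : Fintype.card {y // y ∈ R} = b := by
    have h1 := CMTP.half_card_eq ρ hρρ hR
    rw [Fintype.card_coe]
    omega
  have hinv : ∀ γ ∈ Γ, ∀ y, ρ ((γ⁻¹ : Equiv.Perm Y) y) = (γ⁻¹ : Equiv.Perm Y) (ρ y) :=
    fun γ hγ => hρ _ (Γ.inv_mem hγ)
  have hmemR : ∀ y, y ∈ R ∨ ρ y ∈ R := by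
    intro y
    by_cases h : y ∈ R
    · exact Or.inl h
    · right
      by_contra h2
      exact h ((hR y).2 h2)
  have hne : Nonempty {y // y ∈ R} := by
    obtain ⟨y⟩ := (inferInstance : Nonempty Y)
    rcases hmemR y with h | h
    · exact ⟨⟨_, h⟩⟩
    · exact ⟨⟨_, h⟩⟩
  let G : Subgroup (EuclideanSpace ℝ {y // y ∈ R} ≃ₗᵢ[ℝ] EuclideanSpace ℝ {y // y ∈ R}) :=
    { carrier := {g | ∃ γ ∈ Γ, Bridge_rel ρ R hR g γ}
      one_mem' := by
        refine ⟨1, Γ.one_mem, ?_⟩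
        intro F r
        simp only [inv_one, Equiv.Perm.coe_one, id]
        rw [Bridge_ext_mem]
        rfl
      mul_mem' := by
        rintro g g' ⟨γ, hγ, h⟩ ⟨γ', hγ', h'⟩
        refine ⟨γ * γ', Γ.mul_mem hγ hγ', ?_⟩
        intro F r
        have h1 : (g * g') F = g (g' F) := rfl
        rw [h1, h, Bridge_rel_all ρ R hR hρρ g' γ' (hinv γ' hγ') h', mul_inv_rev]
        rfl
      inv_mem' := by
        rintro g ⟨γ, hγ, h⟩
        refine ⟨γ⁻¹, Γ.inv_mem hγ, ?_⟩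
        intro F r
        have h1 : g (g⁻¹ F) = F := g.apply_symm_apply F
        have h2 := Bridge_rel_all ρ R hR hρρ g γ (hinv γ hγ) h (g⁻¹ F) (γ r)
        rw [h1] at h2
        have h3 : (γ⁻¹ : Equiv.Perm Y) (γ r) = r := γ.symm_apply_apply r
        rw [h3, Bridge_ext_mem] at h2
        rw [inv_inv]
        exact h2.symm }
  have hGmem : ∀ g, g ∈ G ↔ ∃ γ ∈ Γ, Bridge_rel ρ R hR g γ := fun g => Iff.rfl
  have hG : Signed G := by
    refine ⟨?_, ?_, ?_⟩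
    · choose! φ hφ hφ' using fun (g : G) => (hGmem g.1).1 g.2
      refine Finite.of_injective φ ?_
      intro g g' hgg
      apply Subtype.ext
      ext F r
      rw [hφ' g, hφ' g', hgg]
    · rintro g ⟨γ, hγ, h⟩ i
      rcases hmemR (γ i) with h1 | h1
      · exact ⟨⟨γ i, h1⟩, Or.inl (Bridge_rel_bv_pos ρ R hR g γ h i ⟨γ i, h1⟩ rfl hρρ (hρ γ hγ))⟩
      · exact ⟨⟨ρ (γ i), h1⟩, Or.inr (Bridge_rel_bv_neg ρ R hR g γ h i ⟨ρ (γ i), h1⟩
          (hρρ _).symm hρρ (hρ γ hγ))⟩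
    · intro i j
      obtain ⟨γ, hγ, h⟩ := htr i j
      obtain ⟨g, hg⟩ := Bridge_exists ρ R hR hρρ γ (hinv γ hγ)
      exact ⟨g, ⟨γ, hγ, hg⟩, Or.inl (Bridge_rel_bv_pos ρ R hR g γ hg i j h hρρ (hρ γ hγ))⟩
  have hmain := hA {y // y ∈ R} G hG k hk
  rw [hcard] at hmain
  refine le_trans ?_ hmain
  -- the injection
  have hmap : ∀ Ψ ∈ BadHalf ρ Γ k,
      (fun (i : Fin k) (r : {y // y ∈ R}) => decide ((r : Y) ∈ Ψ i)) ∈ Bad G k := by
    rintro Ψ ⟨hΨ, f, hf0, hfo, hf⟩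
    refine ⟨WithLp.toLp 2 fun r => f r, ?_, ?_⟩
    · intro h0
      apply hf0
      have h1 : ∀ r ∈ R, f r = 0 := by
        intro r hr
        exact congrFun (congrArg (fun F : EuclideanSpace ℝ {y // y ∈ R} => (F : _ → ℝ)) h0) ⟨r, hr⟩
      funext y
      rcases hmemR y with h | h
      · exact h1 y h
      · have h2 := h1 _ h
        rw [hfo] at h2
        simpa using h2
    · rintro g ⟨γ, hγ, h⟩ i
      have h1 : ∀ r : {y // y ∈ R}, g (WithLp.toLp 2 fun r => f r) r =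
          f ((γ⁻¹ : Equiv.Perm Y) r) := by
        intro r
        rw [h]
        exact Bridge_ext_eq ρ R hR f hfo _ (fun r => rfl) _
      have h2 : ⟪g (WithLp.toLp 2 fun r => f r),
          (sv (fun r : {y // y ∈ R} => decide ((r : Y) ∈ Ψ i)) :
            EuclideanSpace ℝ {y // y ∈ R})⟫ =
          ∑ r : {y // y ∈ R}, sg (decide ((r : Y) ∈ Ψ i)) * f ((γ⁻¹ : Equiv.Perm Y) r) := by
        rw [PiLp.inner_apply]
        refine Finset.sum_congr rfl fun r _ => ?_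
        rw [h1]
        rfl
      rw [h2, Finset.sum_coe_sort R
        (fun r => sg (decide (r ∈ Ψ i)) * f ((γ⁻¹ : Equiv.Perm Y) r)),
        Bridge_sum_half ρ R hR hρρ (Ψ i) (hΨ i) (fun y => f ((γ⁻¹ : Equiv.Perm Y) y)) ?_]
      · exact hf _ (Γ.inv_mem hγ) i
      · intro y
        show f ((γ⁻¹ : Equiv.Perm Y) (ρ y)) = - f ((γ⁻¹ : Equiv.Perm Y) y)
        rw [← hinv γ hγ, hfo]
  have hle : Nat.card (BadHalf ρ Γ k) ≤ Nat.card (Bad G k) := by
    refine Nat.card_le_card_of_injective (fun Ψ : BadHalf ρ Γ k => (⟨_, hmap Ψ.1 Ψ.2⟩ : Bad G k)) ?_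
    intro Ψ Ψ' h
    have h1 := congrArg Subtype.val h
    apply Subtype.ext
    funext i
    ext y
    have h2 : ∀ r ∈ R, (r ∈ Ψ.1 i ↔ r ∈ Ψ'.1 i) := by
      intro r hr
      have h3 := congrFun (congrFun h1 i) ⟨r, hr⟩
      simpa using h3
    rcases hmemR y with h3 | h3
    · exact h2 y h3
    · rw [Ψ.2.1 i y, Ψ'.2.1 i y, h2 _ h3]
  exact_mod_cast hle

end Pool.Agent.CMV
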