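import Mathlib
import Pool.Agent.CMTP.PGrp

set_option autoImplicit false

/-!
# The number of half systems
-/

namespace Pool.Agent.CMV

open Finset
open Pool.Agent.CMTP (HalfX)

theorem exists_half {X : Type} [Fintype X] (ρ : X → X) (hρρ : ∀ x, ρ (ρ x) = x)
    (hρ1 : ∀ x, ρ x ≠ x) : ∃ R : Finset X, HalfX ρ R := by
  classical
  let f := Fintype.equivFin X
  refine ⟨Finset.univ.filter (fun x => f x < f (ρ x)), fun x => ?_⟩
  simp only [Finset.mem_filter, Finset.mem_univ, true_and]
  rw [hρρ, not_lt]
  have hne' : f x ≠ f (ρ x) := fun h => hρ1 x (f.injective h).symm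
  exact ⟨fun h => h.le, fun h => lt_of_le_of_ne h hne'⟩

theorem card_of_half {X : Type} [Fintype X] (ρ : X → X) (hρρ : ∀ x, ρ (ρ x) = x)
    (R : Finset X) (hR : HalfX ρ R) : Fintype.card X = 2 * R.card := by
  classical
  have h1 : Rᶜ.card = R.card := by
    refine (Finset.card_bij (fun x _ => ρ x) ?_ ?_ ?_).symm
    · intro x hx
      rw [Finset.mem_compl]
      exact (hR x).1 hx
    · intro x _ y _ h
      rw [← hρρ x, h, hρρ]
    · intro y hy
      rw [Finset.mem_compl] at hy
      refine ⟨ρ y, ?_, hρρ y⟩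
      rw [hR, hρρ]
      exact hy
  rw [Finset.card_compl] at h1
  have := Finset.card_le_univ R
  omega

theorem card_half {X : Type} [Fintype X] (ρ : X → X) (hρρ : ∀ x, ρ (ρ x) = x)
    (hρ1 : ∀ x, ρ x ≠ x) (g : ℕ) (hg : Fintype.card X = 2 * g) :
    Nat.card {Φ : Finset X // HalfX ρ Φ} = 2 ^ g := by
  classical
  obtain ⟨R, hR⟩ := exists_half ρ hρρ hρ1
  have hc := card_of_half ρ hρρ R hR
  have hg' : R.card = g := by omega
  let e : {Φ : Finset X // HalfX ρ Φ} ≃ {A : Finset X // A ∈ R.powerset} :=
    { toFun := fun Φ => ⟨Φ.1 ∩ R, Finset.mem_powerset.2 Finset.inter_subset_right⟩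
      invFun := fun A => ⟨Finset.univ.filter (fun x => (x ∈ R ∧ x ∈ A.1) ∨ (x ∉ R ∧ ρ x ∉ A.1)), by
        intro x
        simp only [Finset.mem_filter, Finset.mem_univ, true_and]
        have h1 := hR x
        rw [hρρ]
        tauto⟩
      left_inv := by
        intro Φ
        apply Subtype.ext
        ext x
        simp only [Finset.mem_filter, Finset.mem_univ, true_and, Finset.mem_inter]
        have h1 := Φ.2 x
        have h2 := hR x
        tauto
      right_inv := by
        intro A
        apply Subtype.ext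
        ext x
        simp only [Finset.mem_filter, Finset.mem_univ, true_and, Finset.mem_inter]
        have h1 := Finset.mem_powerset.1 A.2
        have h2 : x ∈ A.1 → x ∈ R := fun h => h1 h
        tauto }
  rw [Nat.card_congr e, Nat.card_eq_fintype_card, Fintype.card_coe, Finset.card_powerset, hg']

end Pool.Agent.CMV
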