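import Mathlib
import Pool.Agent.CMV.Defs
import Pool.Agent.CMV.DefsB
import Pool.Agent.CMTP.Field

set_option autoImplicit false

/-!
# The orders of the groups of permutations of the embeddings
-/

namespace Pool.Agent.CMV

open Finset Module
open scoped BigOperators

/-- ring automorphisms are algebra automorphisms -/
noncomputable def toGal : (CMT.QBar ≃+* CMT.QBar) →* Gal(CMT.QBar/ℚ) where
  toFun τ := AlgEquiv.ofRingEquiv (f := τ) (fun r => by simp)
  map_one' := rfl
  map_mul' := fun _ _ => rfl

theorem toGal_apply (τ : CMT.QBar ≃+* CMT.QBar) (x : CMT.QBar) : toGal τ x = τ x := rfl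

theorem toGal_surjective : Function.Surjective toGal := fun σ => ⟨σ.toRingEquiv, rfl⟩

theorem mem_ker_toPerm (K : Type) [Field K] [NumberField K] (τ : CMT.QBar ≃+* CMT.QBar) :
    τ ∈ (CMTP.toPerm K).ker ↔ ∀ (φ : K →+* CMT.QBar) (x : K), τ (φ x) = φ x := by
  rw [MonoidHom.mem_ker]
  constructor
  · intro h φ x
    have h1 := congrArg (fun e : Equiv.Perm (K →+* CMT.QBar) => e φ x) h
    exact h1
  · intro h
    ext φ x
    exact h φ x

theorem mem_normalClosure_iff (K : Type) [Field K] [NumberField K]
    (τ : CMT.QBar ≃+* CMT.QBar) :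
    (∀ (φ : K →+* CMT.QBar) (x : K), τ (φ x) = φ x) ↔
      ∀ x ∈ IntermediateField.normalClosure ℚ K (CMT.QBar), τ x = x := by
  constructor
  · intro h
    have h1 : IntermediateField.normalClosure ℚ K (CMT.QBar) ≤
        IntermediateField.fixedField (Subgroup.zpowers (toGal τ)) := by
      unfold IntermediateField.normalClosure
      refine iSup_le fun f => ?_
      rintro _ ⟨x, rfl⟩
      rw [IntermediateField.mem_fixedField_iff]
      intro σ hσ
      obtain ⟨k, rfl⟩ := Subgroup.mem_zpowers_iff.1 hσ
      have h2 : toGal τ (f x) = f x := h (f : K →+* CMT.QBar) x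
      have h3 : toGal τ ∈ MulAction.stabilizer Gal(CMT.QBar/ℚ) (f x) := h2
      have h4 := Subgroup.zpow_mem _ h3 k
      exact h4
    intro x hx
    have h5 := h1 hx
    rw [IntermediateField.mem_fixedField_iff] at h5
    exact h5 (toGal τ) (Subgroup.mem_zpowers _)
  · intro h φ x
    let f : K →ₐ[ℚ] CMT.QBar := φ.toRatAlgHom
    have h1 : φ x ∈ IntermediateField.normalClosure ℚ K (CMT.QBar) := by
      unfold IntermediateField.normalClosure
      exact (le_iSup (fun f : K →ₐ[ℚ] CMT.QBar => f.fieldRange) f) ⟨x, rfl⟩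
    exact h _ h1

theorem normal_QBar : Normal ℚ CMT.QBar := by
  have h1 : Algebra.IsAlgebraic ℚ CMT.QBar := CMTP.isAlgebraic_QBar ℚ
  have h2 : IsAlgClosure ℚ CMT.QBar := ⟨inferInstance, h1⟩
  exact IsAlgClosure.normal ℚ CMT.QBar

theorem card_range_general (F K Q : Type) [Field F] [Field K] [Field Q] [Algebra F K]
    [Algebra F Q] [Normal F Q] [FiniteDimensional F K] [CharZero F] {G P : Type} [Group G]
    [Group P] (f : G →* P) (t : G →* Gal(Q/F)) (ht : Function.Surjective t)
    (h : ∀ g, f g = 1 ↔ ∀ x ∈ IntermediateField.normalClosure F K Q, t g x = x) :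
    Nat.card f.range = finrank F (IntermediateField.normalClosure F K Q) := by
  have hg : IsGalois F (IntermediateField.normalClosure F K Q) := ⟨⟩
  rw [← IsGalois.card_aut_eq_finrank]
  let g : G →* Gal((IntermediateField.normalClosure F K Q)/F) :=
    (AlgEquiv.restrictNormalHom (IntermediateField.normalClosure F K Q)).comp t
  have hsurj : Function.Surjective g :=
    (AlgEquiv.restrictNormalHom_surjective (F := F) (K₁ := (IntermediateField.normalClosure F K Q))
      Q).comp ht
  have hker : f.ker = g.ker := by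
    ext τ
    rw [MonoidHom.mem_ker, h, MonoidHom.mem_ker]
    exact (AlgEquiv.restrictNormal_eq_one_iff
      (IntermediateField.normalClosure F K Q) (t τ)).symm
  have h1 := Subgroup.index_ker f
  have h2 := Subgroup.index_ker g
  rw [MonoidHom.range_eq_top.2 hsurj, ← hker] at h2
  rw [← h1, h2]
  exact Nat.card_congr Subgroup.topEquiv.toEquiv

theorem card_HG (K : Type) [Field K] [NumberField K] :
    Nat.card (CMTP.HG K) = finrank ℚ (IntermediateField.normalClosure ℚ K (CMT.QBar)) := by
  have h0 : Normal ℚ CMT.QBar := normal_QBar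
  unfold CMTP.HG
  refine card_range_general ℚ K CMT.QBar (CMTP.toPerm K) toGal toGal_surjective fun τ => ?_
  have h1 := mem_ker_toPerm K τ
  rw [MonoidHom.mem_ker] at h1
  rw [h1, mem_normalClosure_iff]
  rfl

/-- embeddings with the same restriction to the real subfield -/
theorem eq_or_cc (K : Type) [Field K] [NumberField K] [NumberField.IsCMField K]
    (φ ψ : K →+* CMT.QBar)
    (h : ∀ x : NumberField.maximalRealSubfield K, ψ x = φ x) : ψ = φ ∨ ψ = CMT.cc φ := by
  have hreal : ∀ y : K, NumberField.IsCMField.complexConj K y = y → ψ y = φ y := by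
    intro y hy
    rw [NumberField.IsCMField.complexConj_eq_self_iff] at hy
    exact h ⟨y, hy⟩
  have key : ∀ x : K, ψ x = φ x ∨ ψ x = φ (NumberField.IsCMField.complexConj K x) := by
    intro x
    have h1 := hreal (x + NumberField.IsCMField.complexConj K x) (by
      rw [map_add, NumberField.IsCMField.complexConj_apply_apply, add_comm])
    have h2 := hreal (x * NumberField.IsCMField.complexConj K x) (by
      rw [map_mul, NumberField.IsCMField.complexConj_apply_apply, mul_comm])
    rw [map_add, map_add] at h1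
    rw [map_mul, map_mul] at h2
    have h3 : (ψ x - φ x) * (ψ x - φ (NumberField.IsCMField.complexConj K x)) = 0 := by
      have h4 : ψ (NumberField.IsCMField.complexConj K x) =
          φ x + φ (NumberField.IsCMField.complexConj K x) - ψ x := by
        rw [← h1]; ring
      rw [h4] at h2
      linear_combination (-1 : CMT.QBar) * h2
    rcases mul_eq_zero.1 h3 with h4 | h4
    · left; exact sub_eq_zero.1 h4
    · right; exact sub_eq_zero.1 h4
  by_contra hc
  push Not at hc
  obtain ⟨hc1, hc2⟩ := hc
  obtain ⟨x, hx⟩ : ∃ x, ψ x ≠ φ x := by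
    by_contra hh
    push Not at hh
    exact hc1 (RingHom.ext hh)
  obtain ⟨y, hy⟩ : ∃ y, ψ y ≠ φ (NumberField.IsCMField.complexConj K y) := by
    by_contra hh
    push Not at hh
    exact hc2 (RingHom.ext hh)
  have hx' := (key x).resolve_left hx
  have hy' := (key y).resolve_right hy
  rcases key (x + y) with h1 | h1
  · rw [map_add, map_add, hy'] at h1
    exact hx (add_right_cancel h1)
  · rw [map_add, map_add, map_add, hx'] at h1
    exact hy (add_left_cancel h1)

theorem exists_extend (K : Type) [Field K] [NumberField K] (K' : Subfield K)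
    (ψ : K' →+* CMT.QBar) : ∃ φ : K →+* CMT.QBar, ∀ x : K', φ x = ψ x := by
  let _ : Algebra K' CMT.QBar := ψ.toAlgebra
  have : Algebra.IsAlgebraic K' K := by
    have : Algebra.IsAlgebraic ℚ K := inferInstance
    exact Algebra.IsAlgebraic.tower_top (K := ℚ) K'
  let φ : K →ₐ[K'] CMT.QBar := IsAlgClosed.lift
  exact ⟨φ.toRingHom, fun x => φ.commutes x⟩

theorem card_N (K : Type) [Field K] [NumberField K] [NumberField.IsCMField K]
    (N : Subgroup (Equiv.Perm (K →+* CMT.QBar)))
    (hN : ∀ n, n ∈ N ↔ n ∈ CMTP.HG K ∧ ∀ φ, n φ = φ ∨ n φ = CMT.cc φ) :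
    Nat.card N * finrank ℚ (IntermediateField.normalClosure ℚ
        (NumberField.maximalRealSubfield K) CMT.QBar) =
      finrank ℚ (IntermediateField.normalClosure ℚ K CMT.QBar) := by
  rw [← card_HG, ← card_HG]
  have hle : (CMTP.toPerm K).ker ≤ (CMTP.toPerm (NumberField.maximalRealSubfield K)).ker := by
    intro τ hτ
    rw [mem_ker_toPerm] at hτ ⊢
    intro ψ x
    obtain ⟨φ, hφ⟩ := exists_extend K (NumberField.maximalRealSubfield K) ψ
    rw [← hφ x]
    exact hτ φ x
  have h1 := Subgroup.relIndex_mul_index hle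
  rw [Subgroup.relIndex_ker, Subgroup.index_ker, Subgroup.index_ker] at h1
  unfold CMTP.HG
  rw [← h1]
  congr 1
  have h2 : N = ((CMTP.toPerm (NumberField.maximalRealSubfield K)).ker).map (CMTP.toPerm K) := by
    ext n
    rw [hN, Subgroup.mem_map]
    constructor
    · rintro ⟨⟨τ, rfl⟩, h⟩
      refine ⟨τ, ?_, rfl⟩
      rw [mem_ker_toPerm]
      intro ψ x
      obtain ⟨φ, hφ⟩ := exists_extend K (NumberField.maximalRealSubfield K) ψ
      rw [← hφ x]
      rcases h φ with h | h
      · have h3 := congrArg (fun f : K →+* CMT.QBar => f x) h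
        exact h3
      · have h3 := congrArg (fun f : K →+* CMT.QBar => f x) h
        have h4 : CMT.cc φ (x : K) = φ (x : K) := by
          show φ (NumberField.IsCMField.complexConj K (x : K)) = φ (x : K)
          rw [NumberField.IsCMField.complexConj_apply_eq_self]
        exact h3.trans h4
    · rintro ⟨τ, hτ, rfl⟩
      rw [mem_ker_toPerm] at hτ
      refine ⟨⟨τ, rfl⟩, fun φ => ?_⟩
      apply eq_or_cc
      intro x
      have h3 := hτ (φ.comp (NumberField.maximalRealSubfield K).subtype) x
      exact h3
  rw [h2]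

end Pool.Agent.CMV
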