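import Mathlib
import Pool.Agent.CMV.Analytic
import Pool.Agent.CMV.CardHalf
import Pool.Agent.CMV.Bridge
import Pool.Agent.CMV.Blocks
import Pool.Agent.CMV.Fields
import Pool.Agent.CMTP.Field

set_option autoImplicit false

/-!
# CM fields with `[L : L₀] ≥ 8`: almost all CM types are non-degenerate
-/

namespace Pool.Agent.CMV

open Finset Module NumberField
open scoped BigOperators
open Pool.Agent.CMT (QBar IsCMType cc cc_cc TateByDivisors)
open Pool.Agent.CMTP (HG NDeg HalfX hg_cc cc_ne transitive NotInduced tateByDivisors_of_ndeg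
  notInduced_of_ndeg)

theorem mul_pow_le_one (k : ℕ) (hk : 3 ≤ k) : (k : ℝ) * (121 / 200) ^ k ≤ 1 := by
  induction k, hk using Nat.le_induction with
  | base => norm_num
  | succ n hn ih =>
    have hn' : (3 : ℝ) ≤ n := by exact_mod_cast hn
    have h1 : ((n + 1 : ℕ) : ℝ) * (121 / 200) ≤ n := by
      push_cast
      linarith
    calc ((n + 1 : ℕ) : ℝ) * (121 / 200) ^ (n + 1) =
        (((n + 1 : ℕ) : ℝ) * (121 / 200)) * (121 / 200) ^ n := by ring
      _ ≤ n * (121 / 200) ^ n := by gcongr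
      _ ≤ 1 := ih

/-- the numerical estimate of the last step -/
theorem last_step (C ν k b P : ℝ) (n : ℕ) (hC : 0 < C) (hk : k = n) (hn : 3 ≤ n) (hb : 0 < b)
    (hP : 0 ≤ P) (hν : 0 ≤ ν) (hνk : ν ≤ 2 ^ n) :
    C * (11 / 20) ^ n * P / √b * √(2 * (b * k) * ν) ≤ 2 * C * P := by
  have h1 : √(2 * (b * k) * ν) = √b * √(2 * k * ν) := by
    rw [← Real.sqrt_mul hb.le]
    congr 1
    ring
  have h2 : (11 / 20 : ℝ) ^ n * √(2 * k * ν) ≤ 2 := by
    have h3 : (11 / 20 : ℝ) ^ n = √(((11 / 20 : ℝ) ^ n) ^ 2) := (Real.sqrt_sq (by positivity)).symm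
    rw [h3, ← Real.sqrt_mul (by positivity)]
    rw [Real.sqrt_le_left (by norm_num)]
    have h4 := mul_pow_le_one n hn
    have hk0 : 0 ≤ k := by rw [hk]; positivity
    calc ((11 / 20 : ℝ) ^ n) ^ 2 * (2 * k * ν) ≤ ((11 / 20 : ℝ) ^ n) ^ 2 * (2 * k * 2 ^ n) := by
          gcongr
      _ = 2 * (k * (((11 / 20 : ℝ) ^ 2) ^ n * 2 ^ n)) := by
          rw [← pow_mul, ← pow_mul, mul_comm 2 n]
          ring
      _ = 2 * ((n : ℝ) * (121 / 200) ^ n) := by
          rw [← mul_pow, hk]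
          norm_num
      _ ≤ 2 ^ 2 := by linarith
  have hsb : 0 < √b := Real.sqrt_pos.2 hb
  rw [h1]
  calc C * (11 / 20) ^ n * P / √b * (√b * √(2 * k * ν)) =
      C * P * ((11 / 20 : ℝ) ^ n * √(2 * k * ν)) := by
        field_simp
    _ ≤ C * P * 2 := by
        refine mul_le_mul_of_nonneg_left h2 ?_
        positivity
    _ = 2 * C * P := by ring

/-- the group of the permutations which preserve all pairs of conjugate embeddings -/
noncomputable def NG (K : Type) [Field K] [NumberField K] [IsCMField K] :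
    Subgroup (Equiv.Perm (K →+* QBar)) where
  carrier := {n | n ∈ HG K ∧ ∀ φ, n φ = φ ∨ n φ = cc φ}
  mul_mem' := by
    rintro a b ⟨ha, ha'⟩ ⟨hb, hb'⟩
    refine ⟨(HG K).mul_mem ha hb, fun φ => ?_⟩
    rw [Equiv.Perm.mul_apply]
    rcases hb' φ with h | h
    · rw [h]
      exact ha' φ
    · rw [h, ← hg_cc a ha]
      rcases ha' φ with h1 | h1
      · right
        rw [h1]
      · left
        rw [h1, cc_cc]
  one_mem' := ⟨(HG K).one_mem, fun φ => Or.inl rfl⟩
  inv_mem' := by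
    rintro a ⟨ha, ha'⟩
    refine ⟨(HG K).inv_mem ha, fun φ => ?_⟩
    rcases ha' φ with h | h
    · left
      rw [Equiv.Perm.inv_eq_iff_eq, h]
    · right
      rw [Equiv.Perm.inv_eq_iff_eq, ← hg_cc a ha, h, cc_cc]

theorem few_degenerate : ∃ C : ℝ, 0 < C ∧ ∀ (K : Type) [Field K] [NumberField K] [IsCMField K],
    8 * finrank ℚ (IntermediateField.normalClosure ℚ (maximalRealSubfield K) QBar) ≤
      finrank ℚ (IntermediateField.normalClosure ℚ K QBar) →
    (Nat.card {Φ : Finset (K →+* QBar) // IsCMType K Φ ∧ ¬ NDeg (HG K) cc Φ} : ℝ) *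
      √((finrank ℚ K : ℝ) * finrank ℚ (IntermediateField.normalClosure ℚ K QBar)) ≤
    C * √(finrank ℚ (IntermediateField.normalClosure ℚ (maximalRealSubfield K) QBar) : ℝ) *
      Nat.card {Φ : Finset (K →+* QBar) // IsCMType K Φ} := by
  classical
  obtain ⟨C, hC, hA⟩ := card_bad_le
  refine ⟨2 * C, by positivity, ?_⟩
  intro K _ _ _ h8
  have : Nonempty (K →+* QBar) := ⟨((IsAlgClosed.lift : K →ₐ[ℚ] QBar) : K →+* QBar)⟩
  obtain ⟨Y, _, _, ρ', Γ, b, k, hρρ, hρ1, hρ, htr, hY, hX, hN1, hN2, hcard⟩ :=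
    block_reduction (HG K) (transitive K) cc cc_cc cc_ne hg_cc (NG K) (fun n => Iff.rfl)
  have hNN := card_N K (NG K) (fun n => Iff.rfl)
  set L0 : ℕ := finrank ℚ (IntermediateField.normalClosure ℚ (maximalRealSubfield K) QBar)
  set L : ℕ := finrank ℚ (IntermediateField.normalClosure ℚ K QBar)
  have hL0 : 0 < L0 := Module.finrank_pos
  have hν : 8 ≤ Nat.card (NG K) := by
    rw [← hNN] at h8
    exact Nat.le_of_mul_le_mul_right h8 hL0
  have hk := hN2 hν
  have hb : 0 < b := by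
    have : 0 < Fintype.card Y := Fintype.card_pos
    omega
  have h1 := bridge C hA Y ρ' hρρ hρ1 Γ hρ htr b hY k hk
  have hKX : Fintype.card (K →+* QBar) = finrank ℚ K := NumberField.Embeddings.card K QBar
  have hCM : Nat.card {Φ : Finset (K →+* QBar) // IsCMType K Φ} = 2 ^ (b * k) :=
    card_half cc cc_cc cc_ne (b * k) hX.symm
  rw [hCM]
  have hb' : (0 : ℝ) < b := by exact_mod_cast hb
  have h2 : (Nat.card {Φ : Finset (K →+* QBar) // IsCMType K Φ ∧ ¬ NDeg (HG K) cc Φ} : ℝ) ≤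
      C * (11 / 20) ^ k * 2 ^ (b * k) / √b := by
    refine le_trans ?_ h1
    exact_mod_cast hcard
  have h3 : √((finrank ℚ K : ℝ) * L) = √(2 * ((b : ℝ) * k) * Nat.card (NG K)) * √(L0 : ℝ) := by
    rw [← Real.sqrt_mul (by positivity), ← hKX, ← hX, ← hNN]
    congr 1
    push_cast
    ring
  rw [h3]
  have h4 := last_step C (Nat.card (NG K)) k b (2 ^ (b * k)) k hC rfl hk hb' (by positivity)
    (by positivity) (by exact_mod_cast hN1)
  calc (Nat.card {Φ : Finset (K →+* QBar) // IsCMType K Φ ∧ ¬ NDeg (HG K) cc Φ} : ℝ) *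
      (√(2 * ((b : ℝ) * k) * Nat.card (NG K)) * √(L0 : ℝ))
      ≤ (C * (11 / 20) ^ k * 2 ^ (b * k) / √b) *
        (√(2 * ((b : ℝ) * k) * Nat.card (NG K)) * √(L0 : ℝ)) :=
        mul_le_mul_of_nonneg_right h2 (by positivity)
    _ = (C * (11 / 20) ^ k * 2 ^ (b * k) / √b * √(2 * ((b : ℝ) * k) * Nat.card (NG K))) *
        √(L0 : ℝ) := by ring
    _ ≤ (2 * C * 2 ^ (b * k)) * √(L0 : ℝ) := mul_le_mul_of_nonneg_right h4 (Real.sqrt_nonneg _)
    _ = 2 * C * √(L0 : ℝ) * ((2 ^ (b * k) : ℕ) : ℝ) := by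
        push_cast
        ring

end Pool.Agent.CMV
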