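import Mathlib
import Pool.Agent.FFT.Targets

set_option autoImplicit false

/-!
# Ordinary Weil numbers and their types: definitions
-/

namespace Pool.Agent.CMV

open NumberField Module
open Pool.Agent.CMT (QBar IsCMType)
open Pool.Agent.FFT (IsWeil)

/-- the degree of the Galois closure of `K` -/
noncomputable def galDeg (K : Type) [Field K] [NumberField K] : ℕ :=
  finrank ℚ (IntermediateField.normalClosure ℚ K QBar)

/-- ordinary Weil `q`-numbers in the CM field `K`, where `q` is a power of `p`: in every embedding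
into the algebraic closure of the `p`-adic numbers the slope is `0` or `1` -/
def IsOrdinary (p : ℕ) [Fact p.Prime] {K : Type} [Field K] [NumberField K] [IsCMField K] (q : ℕ)
    (π : K) : Prop :=
  (∃ a : ℕ, 1 ≤ a ∧ q = p ^ a) ∧ IsWeil q π ∧
    ∀ ψ : K →+* PadicAlgCl p, ‖ψ π‖ = 1 ∨ ‖ψ π‖ = ‖(q : PadicAlgCl p)‖

/-- `Φ` is the type of `π` with respect to the embedding `ι` of the algebraic numbers: the set of
the embeddings `φ` of `K` for which `ι (φ π)` is not a unit -/
def HasType {p : ℕ} [Fact p.Prime] {K : Type} [Field K] [NumberField K] (ι : QBar →+* PadicAlgCl p)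
    (π : K) (Φ : Finset (K →+* QBar)) : Prop :=
  ∀ φ, φ ∈ Φ ↔ ‖ι (φ π)‖ < 1

/-- the prime `p` splits completely in `K`: all the embeddings of `K` into the algebraic closure of
the `p`-adic numbers have values in the `p`-adic numbers -/
def SplitsCompletely (p : ℕ) [Fact p.Prime] (K : Type) [Field K] : Prop :=
  ∀ (ψ : K →+* PadicAlgCl p) (x : K), ∃ y : ℚ_[p], ψ x = algebraMap ℚ_[p] (PadicAlgCl p) y

end Pool.Agent.CMV
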