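import Mathlib
import Pool.Agent.CMV.OrdDefs

set_option autoImplicit false

/-!
# Classes of ordinary Weil numbers: definitions
-/

namespace Pool.Agent.CMV

open NumberField Module
open Pool.Agent.FFT (TateByDivisors)

/-- the ordinary Weil numbers in `K`: pairs `(q, π)`, where `q` is a power of `p` and `π` is an
ordinary Weil `q`-number in `K` -/
abbrev OrdinaryNumber (p : ℕ) [Fact p.Prime] (K : Type) [Field K] [NumberField K] [IsCMField K] :
    Type :=
  {x : ℕ × K // IsOrdinary p x.1 x.2}

/-- two ordinary Weil numbers are equivalent if they have a common power: the abelian varieties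
with multiplication by `K` attached to them become isogenous, with their multiplication by `K`, over
a finite extension of the finite field -/
def commonPower (p : ℕ) [Fact p.Prime] (K : Type) [Field K] [NumberField K] [IsCMField K] :
    Setoid (OrdinaryNumber p K) where
  r x y := ∃ m m' : ℕ, 0 < m ∧ 0 < m' ∧ x.1.2 ^ m = y.1.2 ^ m'
  iseqv :=
    { refl := fun _ => ⟨1, 1, one_pos, one_pos, rfl⟩
      symm := fun ⟨m, m', hm, hm', h⟩ => ⟨m', m, hm', hm, h.symm⟩
      trans := fun {x y z} ⟨m, m', hm, hm', h⟩ ⟨k, k', hk, hk', h'⟩ =>
        ⟨m * k, k' * m', Nat.mul_pos hm hk, Nat.mul_pos hk' hm', by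
          rw [pow_mul, h, ← pow_mul, Nat.mul_comm m' k, pow_mul, h', ← pow_mul]⟩ }

/-- the classes of ordinary Weil numbers in `K`: the isogeny classes of ordinary abelian varieties
of dimension `[K : ℚ] / 2` with multiplication by `K` over the algebraic closure of the field with
`p` elements -/
def OrdinaryClass (p : ℕ) [Fact p.Prime] (K : Type) [Field K] [NumberField K] [IsCMField K] :
    Type :=
  Quotient (commonPower p K)

/-- the class `c` is bad: it contains a Weil number for which not all the Tate classes on the powers
of the abelian variety are generated by divisor classes -/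
def OrdinaryClass.IsBad {p : ℕ} [Fact p.Prime] {K : Type} [Field K] [NumberField K] [IsCMField K]
    (c : OrdinaryClass p K) : Prop :=
  ∃ x : OrdinaryNumber p K, Quotient.mk (commonPower p K) x = c ∧
    ¬ TateByDivisors x.1.1 (fun _ : Unit => x.1.2)

end Pool.Agent.CMV
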