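import Mathlib
import Pool.Agent.CMV.OrdDefs

set_option autoImplicit false

/-!
# Every half system is the type of an ordinary Weil number
-/

namespace Pool.Agent.CMV

open NumberField Module
open Pool.Agent.CMT (QBar IsCMType)
open Pool.Agent.FFT (IsWeil)

namespace EX_

theorem norm_le (p : ℕ) [Fact p.Prime] (x : PadicAlgCl p) (hx : IsIntegral ℤ x) : ‖x‖ ≤ 1 := by
  have h1 : IsIntegral (Valued.v (R := PadicAlgCl p)).integer x := hx.tower_top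
  have h2 := (Valuation.integer.integers (Valued.v (R := PadicAlgCl p))).mem_of_integral h1
  rw [Valuation.mem_integer_iff, PadicAlgCl.valuation_def] at h2
  exact_mod_cast h2

theorem norm_le' (p : ℕ) [Fact p.Prime] {K : Type} [Field K] [NumberField K]
    (ψ : K →+* PadicAlgCl p) (x : 𝓞 K) : ‖ψ x‖ ≤ 1 :=
  norm_le p _ ((RingOfIntegers.isIntegral_coe x).map (ψ.toIntAlgHom))

theorem norm_unit (p : ℕ) [Fact p.Prime] {K : Type} [Field K] [NumberField K]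
    (ψ : K →+* PadicAlgCl p) (u : (𝓞 K)ˣ) : ‖ψ (u : 𝓞 K)‖ = 1 := by
  have h1 := norm_le' p ψ (u : 𝓞 K)
  have h2 := norm_le' p ψ ((u⁻¹ : (𝓞 K)ˣ) : 𝓞 K)
  have h3 : ‖ψ (u : 𝓞 K)‖ * ‖ψ ((u⁻¹ : (𝓞 K)ˣ) : 𝓞 K)‖ = 1 := by
    rw [← norm_mul, ← map_mul, ← map_mul, Units.mul_inv, map_one, map_one, norm_one]
  have h4 := norm_nonneg (ψ (u : 𝓞 K))
  nlinarith

/-- the prime ideal of an embedding -/
def PP (p : ℕ) [Fact p.Prime] {K : Type} [Field K] [NumberField K] (ψ : K →+* PadicAlgCl p) :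
    Ideal (𝓞 K) where
  carrier := {x | ‖ψ x‖ < 1}
  add_mem' := by
    intro a b ha hb
    simp only [Set.mem_ofPred_eq, map_add] at *
    exact (PadicAlgCl.isNonarchimedean p _ _).trans_lt (max_lt ha hb)
  zero_mem' := by simp
  smul_mem' := by
    intro c x hx
    simp only [Set.mem_ofPred_eq, smul_eq_mul, map_mul, norm_mul] at *
    have h1 := norm_le' p ψ c
    have h2 := norm_nonneg (ψ x)
    nlinarith

theorem mem_PP (p : ℕ) [Fact p.Prime] {K : Type} [Field K] [NumberField K]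
    (ψ : K →+* PadicAlgCl p) (x : 𝓞 K) : x ∈ PP p ψ ↔ ‖ψ x‖ < 1 := Iff.rfl

theorem norm_p (p : ℕ) [hp : Fact p.Prime] : ‖(p : PadicAlgCl p)‖ < 1 := by
  have h1 : (p : PadicAlgCl p) = algebraMap ℚ_[p] (PadicAlgCl p) (p : ℚ_[p]) := by simp
  rw [h1, PadicAlgCl.norm_extends]
  exact Padic.norm_p_lt_one

theorem p_mem (p : ℕ) [Fact p.Prime] {K : Type} [Field K] [NumberField K]
    (ψ : K →+* PadicAlgCl p) : (p : 𝓞 K) ∈ PP p ψ := by
  rw [mem_PP]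
  simpa using norm_p p

instance isPrime_PP (p : ℕ) [Fact p.Prime] {K : Type} [Field K] [NumberField K]
    (ψ : K →+* PadicAlgCl p) : (PP p ψ).IsPrime where
  ne_top' := by
    intro h
    have : (1 : 𝓞 K) ∈ PP p ψ := h ▸ Submodule.mem_top
    rw [mem_PP] at this
    simp at this
  mem_or_mem' := by
    intro x y hxy
    rw [mem_PP, mem_PP]
    rw [mem_PP] at hxy
    by_contra h
    push Not at h
    have e : ‖ψ ((x * y : 𝓞 K) : K)‖ = ‖ψ x‖ * ‖ψ y‖ := by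
      rw [← norm_mul, ← map_mul, ← map_mul]
    rw [e] at hxy
    nlinarith [h.1, h.2]

theorem PP_ne_bot (p : ℕ) [Fact p.Prime] {K : Type} [Field K] [NumberField K]
    (ψ : K →+* PadicAlgCl p) : PP p ψ ≠ ⊥ := by
  intro h
  have h1 := p_mem p ψ
  rw [h, Ideal.mem_bot] at h1
  exact (Fact.out : p.Prime).ne_zero (by exact_mod_cast h1)

theorem le_absNorm (p : ℕ) [hp : Fact p.Prime] {K : Type} [Field K] [NumberField K]
    (ψ : K →+* PadicAlgCl p) : p ≤ Ideal.absNorm (PP p ψ) := by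
  apply Nat.le_of_dvd
  · apply Nat.pos_of_ne_zero
    intro h
    exact PP_ne_bot p ψ (Ideal.absNorm_eq_zero_iff.mp h)
  · have h1 := Ideal.absNorm_mem (PP p ψ)
    by_contra hnd
    have hc : Nat.Coprime p (Ideal.absNorm (PP p ψ)) :=
      (Nat.Prime.coprime_iff_not_dvd hp.out).mpr hnd
    have h2 : IsCoprime (p : ℤ) ((Ideal.absNorm (PP p ψ) : ℕ) : ℤ) :=
      Nat.isCoprime_iff_coprime.mpr hc
    obtain ⟨a, b, hab⟩ := h2
    have h3 : (1 : 𝓞 K) ∈ PP p ψ := by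
      have e : (1 : 𝓞 K) = (a : 𝓞 K) * (p : 𝓞 K) + (b : 𝓞 K) * ((Ideal.absNorm (PP p ψ) : ℕ) : 𝓞 K) := by
        have := congrArg (fun z : ℤ => (z : 𝓞 K)) hab
        push_cast at this
        exact this.symm
      rw [e]
      exact Ideal.add_mem _ (Ideal.mul_mem_left _ _ (p_mem p ψ)) (Ideal.mul_mem_left _ _ h1)
    exact (isPrime_PP p ψ).ne_top ((Ideal.eq_top_iff_one _).mpr h3)

open Classical in
theorem prod_PP (p : ℕ) [hp : Fact p.Prime] (K : Type) [Field K] [NumberField K]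
    (hd : ∀ ψ ψ' : K →+* PadicAlgCl p, ψ ≠ ψ' → ∃ x : 𝓞 K, ‖ψ x‖ < 1 ∧ ‖ψ' x‖ = 1) :
    ∏ ψ : K →+* PadicAlgCl p, PP p ψ = Ideal.span {(p : 𝓞 K)} := by
  have hinj : ∀ ψ ∈ (Finset.univ : Finset (K →+* PadicAlgCl p)), ∀ ψ' ∈ (Finset.univ : Finset (K →+* PadicAlgCl p)),
      PP p ψ = PP p ψ' → ψ = ψ' := by
    intro ψ _ ψ' _ h
    by_contra hne
    obtain ⟨x, h1, h2⟩ := hd ψ ψ' hne
    have : x ∈ PP p ψ' := h ▸ (mem_PP p ψ x).mpr h1
    rw [mem_PP] at this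
    linarith
  have hdvd : ∏ ψ : K →+* PadicAlgCl p, PP p ψ ∣ Ideal.span {(p : 𝓞 K)} := by
    rw [← Finset.prod_image (f := fun I : Ideal (𝓞 K) => I) hinj]
    apply Finset.prod_primes_dvd
    · intro I hI
      obtain ⟨ψ, _, rfl⟩ := Finset.mem_image.mp hI
      exact (Ideal.prime_iff_isPrime (PP_ne_bot p ψ)).mpr (isPrime_PP p ψ)
    · intro I hI
      obtain ⟨ψ, _, rfl⟩ := Finset.mem_image.mp hI
      rw [Ideal.dvd_span_singleton]
      exact p_mem p ψ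
  obtain ⟨J, hJ⟩ := hdvd
  have hN := congrArg Ideal.absNorm hJ
  rw [map_mul, map_prod, Ideal.absNorm_span_natCast] at hN
  have hd' : finrank ℤ (𝓞 K) = finrank ℚ K := RingOfIntegers.rank K
  have hge : p ^ finrank ℚ K ≤ ∏ ψ : K →+* PadicAlgCl p, Ideal.absNorm (PP p ψ) := by
    rw [← NumberField.Embeddings.card K (PadicAlgCl p), ← Finset.card_univ, ← Finset.prod_const]
    exact Finset.prod_le_prod' fun ψ _ => le_absNorm p ψ
  have hppos : 0 < p ^ finrank ℚ K := pow_pos hp.out.pos _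
  have hJ1 : Ideal.absNorm J = 1 := by
    rw [hd'] at hN
    have h0 : Ideal.absNorm J ≠ 0 := by
      intro h
      rw [h, mul_zero] at hN
      omega
    have h1 : p ^ finrank ℚ K * Ideal.absNorm J ≤ p ^ finrank ℚ K * 1 := by
      rw [mul_one]
      calc p ^ finrank ℚ K * Ideal.absNorm J
          ≤ (∏ ψ : K →+* PadicAlgCl p, Ideal.absNorm (PP p ψ)) * Ideal.absNorm J :=
            Nat.mul_le_mul_right _ hge
        _ = p ^ finrank ℚ K := hN.symm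
    have := Nat.le_of_mul_le_mul_left h1 hppos
    omega
  rw [Ideal.absNorm_eq_one_iff] at hJ1
  rw [hJ, hJ1, Ideal.mul_top]

/-- complex conjugation on the ring of integers -/
noncomputable def ee (K : Type) [Field K] [NumberField K] [IsCMField K] : 𝓞 K ≃+* 𝓞 K :=
  RingOfIntegers.mapRingEquiv (IsCMField.complexConj K).toRingEquiv

theorem coe_ee (K : Type) [Field K] [NumberField K] [IsCMField K] (x : 𝓞 K) :
    ((ee K x : 𝓞 K) : K) = IsCMField.complexConj K x := rfl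

theorem ee_ee (K : Type) [Field K] [NumberField K] [IsCMField K] (x : 𝓞 K) :
    ee K (ee K x) = x := by
  apply RingOfIntegers.ext
  rw [coe_ee, coe_ee, IsCMField.complexConj_apply_apply]

theorem map_PP (p : ℕ) [Fact p.Prime] {K : Type} [Field K] [NumberField K] [IsCMField K]
    (ψ : K →+* PadicAlgCl p) :
    Ideal.map (ee K : 𝓞 K →+* 𝓞 K) (PP p ψ) = PP p (ψ.comp (IsCMField.complexConj K : K →+* K)) := by
  rw [Ideal.map_comap_of_equiv]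
  ext x
  rw [Ideal.mem_comap, mem_PP, mem_PP]
  have h1 : (ee K).symm x = ee K x := by
    rw [RingEquiv.symm_apply_eq, ee_ee]
  rw [h1]
  rfl

end EX_

open EX_ in
open Classical in
theorem exists_ordinary (p : ℕ) [Fact p.Prime] (K : Type) [Field K] [NumberField K] [IsCMField K]
    (hd : ∀ ψ ψ' : K →+* PadicAlgCl p, ψ ≠ ψ' → ∃ x : 𝓞 K, ‖ψ x‖ < 1 ∧ ‖ψ' x‖ = 1)
    (T : Set (K →+* PadicAlgCl p))
    (hT : ∀ ψ, ψ ∈ T ↔ ψ.comp (IsCMField.complexConj K : K →+* K) ∉ T) :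
    ∃ (a q : ℕ) (π : K), 1 ≤ a ∧ q = p ^ a ∧ IsWeil q π ∧
      (∀ ψ ∈ T, ‖ψ π‖ = ‖(q : PadicAlgCl p)‖) ∧ ∀ ψ, ψ ∉ T → ‖ψ π‖ = 1 := by
  have hp : p.Prime := Fact.out
  set A : Ideal (𝓞 K) := ∏ ψ ∈ Finset.univ.filter (fun ψ : K →+* PadicAlgCl p => ψ ∈ T), PP p ψ
    with hA
  set B : Ideal (𝓞 K) := ∏ ψ ∈ Finset.univ.filter (fun ψ : K →+* PadicAlgCl p => ψ ∉ T), PP p ψ
    with hB
  have hAB : A * B = Ideal.span {(p : 𝓞 K)} := by
    rw [← prod_PP p K hd, hA, hB, Finset.prod_filter_mul_prod_filter_not]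
  have hcc : ∀ ψ : K →+* PadicAlgCl p, (ψ.comp (IsCMField.complexConj K : K →+* K)).comp
      (IsCMField.complexConj K : K →+* K) = ψ := by
    intro ψ
    ext x
    simp
  have hmap : Ideal.map (ee K : 𝓞 K →+* 𝓞 K) A = B := by
    have h1 : Ideal.map (ee K : 𝓞 K →+* 𝓞 K) A = ∏ ψ ∈ Finset.univ.filter
        (fun ψ : K →+* PadicAlgCl p => ψ ∈ T), Ideal.map (ee K : 𝓞 K →+* 𝓞 K) (PP p ψ) := by
      rw [hA]
      exact map_prod (Ideal.mapHom (ee K : 𝓞 K →+* 𝓞 K)) _ _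
    rw [h1, hB]
    refine Finset.prod_bij (fun ψ _ => ψ.comp (IsCMField.complexConj K : K →+* K)) ?_ ?_ ?_ ?_
    · intro ψ hψ
      rw [Finset.mem_filter] at hψ ⊢
      exact ⟨Finset.mem_univ _, (hT ψ).mp hψ.2⟩
    · intro ψ _ ψ' _ h
      rw [← hcc ψ, ← hcc ψ', h]
    · intro ψ hψ
      refine ⟨ψ.comp (IsCMField.complexConj K : K →+* K), ?_, hcc ψ⟩
      rw [Finset.mem_filter] at hψ ⊢
      refine ⟨Finset.mem_univ _, ?_⟩
      rw [hT, hcc]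
      exact hψ.2
    · intro ψ _
      exact map_PP p ψ
  have hA0 : A ≠ ⊥ := by
    intro h
    rw [h, Ideal.bot_mul] at hAB
    have : (p : 𝓞 K) = 0 := Ideal.span_singleton_eq_bot.mp hAB.symm
    exact hp.ne_zero (by exact_mod_cast this)
  obtain ⟨h, hh, α, hα⟩ : ∃ (h : ℕ), 1 ≤ h ∧ ∃ α : 𝓞 K, A ^ h = Ideal.span {α} := by
    refine ⟨Fintype.card (ClassGroup (𝓞 K)), Fintype.card_pos, ?_⟩
    have h1 : ClassGroup.mk0 ⟨A, mem_nonZeroDivisors_iff_ne_zero.mpr hA0⟩ ^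
        Fintype.card (ClassGroup (𝓞 K)) = 1 := pow_card_eq_one
    rw [← map_pow, ClassGroup.mk0_eq_one_iff] at h1
    obtain ⟨α, hα⟩ := h1.principal
    exact ⟨α, by simpa using hα⟩
  have hcα : B ^ h = Ideal.span {ee K α} := by
    rw [← hmap, ← Ideal.map_pow, hα, Ideal.map_span, Set.image_singleton, RingHom.coe_coe]
  have hprod : Ideal.span {α * ee K α} = Ideal.span {(p : 𝓞 K) ^ h} := by
    rw [← Ideal.span_singleton_mul_span_singleton, ← hα, ← hcα, ← mul_pow, hAB,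
      Ideal.span_singleton_pow]
  obtain ⟨u, hu⟩ := Ideal.span_singleton_eq_span_singleton.mp hprod
  -- norms of `α`
  have hα1 : ∀ ψ, ψ ∉ T → ‖ψ (α : K)‖ = 1 := by
    intro ψ hψ
    by_contra hne
    have hlt : ‖ψ (α : K)‖ < 1 := lt_of_le_of_ne (norm_le' p ψ α) hne
    have h1 : A ^ h ≤ PP p ψ := by
      rw [hα, Ideal.span_singleton_le_iff_mem]
      exact hlt
    have h2 : A ≤ PP p ψ := Ideal.IsPrime.le_of_pow_le h1
    rw [hA, Ideal.IsPrime.prod_le (isPrime_PP p ψ)] at h2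
    obtain ⟨φ, hφ, hle⟩ := h2
    rw [Finset.mem_filter] at hφ
    have hne' : φ ≠ ψ := by
      rintro rfl
      exact hψ hφ.2
    obtain ⟨x, hx1, hx2⟩ := hd φ ψ hne'
    have := hle ((mem_PP p φ x).mpr hx1)
    rw [mem_PP] at this
    linarith
  have hcα1 : ∀ ψ, ψ ∈ T → ‖ψ ((ee K α : 𝓞 K) : K)‖ = 1 := by
    intro ψ hψ
    have h1 := hα1 (ψ.comp (IsCMField.complexConj K : K →+* K)) ((hT ψ).mp hψ)
    rw [RingHom.comp_apply, RingHom.coe_coe] at h1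
    rw [coe_ee]
    exact h1
  have hu' : ∀ ψ : K →+* PadicAlgCl p, ‖ψ (α : K)‖ * ‖ψ ((ee K α : 𝓞 K) : K)‖
      = ‖(p : PadicAlgCl p)‖ ^ h := by
    intro ψ
    have h1 : ‖ψ ((α * ee K α * (u : 𝓞 K) : 𝓞 K) : K)‖ = ‖ψ (((p : 𝓞 K) ^ h : 𝓞 K) : K)‖ := by
      rw [hu]
    have h2 : ‖ψ ((α * ee K α * (u : 𝓞 K) : 𝓞 K) : K)‖ =
        ‖ψ (α : K)‖ * ‖ψ ((ee K α : 𝓞 K) : K)‖ * ‖ψ ((u : 𝓞 K) : K)‖ := by
      rw [← norm_mul, ← norm_mul, ← map_mul, ← map_mul, ← map_mul, ← map_mul]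
    have h3 : ψ (((p : 𝓞 K) ^ h : 𝓞 K) : K) = (p : PadicAlgCl p) ^ h := by
      have e : (((p : 𝓞 K) ^ h : 𝓞 K) : K) = (p : K) ^ h := by
        push_cast
        rfl
      rw [e, map_pow, map_natCast]
    rw [h2, h3, norm_unit, mul_one, norm_pow] at h1
    exact h1
  have hα2 : ∀ ψ, ψ ∈ T → ‖ψ (α : K)‖ = ‖(p : PadicAlgCl p)‖ ^ h := by
    intro ψ hψ
    rw [← hu' ψ, hcα1 ψ hψ, mul_one]
  have hq : (((p ^ (2 * h) : ℕ)) : PadicAlgCl p) = (p : PadicAlgCl p) ^ (2 * h) := by push_cast; rfl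
  have hπ : ∀ ψ : K →+* PadicAlgCl p, ‖ψ ((α ^ 2 * (u : 𝓞 K) : 𝓞 K) : K)‖ = ‖ψ (α : K)‖ ^ 2 := by
    intro ψ
    have h2 : ‖ψ ((α ^ 2 * (u : 𝓞 K) : 𝓞 K) : K)‖ =
        ‖ψ (α : K)‖ ^ 2 * ‖ψ ((u : 𝓞 K) : K)‖ := by
      rw [← norm_pow, ← norm_mul, ← map_pow, ← map_mul, ← map_pow, ← map_mul]
    rw [h2, norm_unit, mul_one]
  refine ⟨2 * h, p ^ (2 * h), ((α ^ 2 * (u : 𝓞 K) : 𝓞 K) : K), by omega, rfl, ⟨?_, ?_⟩, ?_, ?_⟩
  · exact RingOfIntegers.isIntegral_coe _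
  · have h1 : ee K (α * ee K α * u) = (p : 𝓞 K) ^ h := by
      rw [hu, map_pow, map_natCast]
    rw [map_mul, map_mul, ee_ee] at h1
    have h2 : (α ^ 2 * (u : 𝓞 K)) * ee K (α ^ 2 * (u : 𝓞 K)) = ((p ^ (2 * h) : ℕ) : 𝓞 K) := by
      rw [map_mul, map_pow]
      calc α ^ 2 * (u : 𝓞 K) * (ee K α ^ 2 * ee K (u : 𝓞 K))
          = (α * ee K α * u) * (ee K α * α * ee K (u : 𝓞 K)) := by ring
        _ = (p : 𝓞 K) ^ h * (p : 𝓞 K) ^ h := by rw [hu, h1]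
        _ = _ := by push_cast; ring
    rw [← coe_ee, ← map_mul, h2]
    simp
  · intro ψ hψ
    rw [hπ ψ, hα2 ψ hψ, hq, norm_pow]
    ring
  · intro ψ hψ
    rw [hπ ψ, hα1 ψ hψ, one_pow]

end Pool.Agent.CMV
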