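import Mathlib
import Pool.Agent.CMV.OrdDefs

set_option autoImplicit false

/-!
# Distinct embeddings into the `p`-adic numbers give distinct primes
-/

namespace Pool.Agent.CMV

open NumberField Module Polynomial
open Pool.Agent.CMT (QBar IsCMType)
open Pool.Agent.FFT (IsWeil)

namespace OrdSplit_

/-- algebraic integers have norm at most one -/
theorem norm_le_one {l : ℕ} [Fact l.Prime] (x : PadicAlgCl l)
    (hx : IsIntegral ℤ x) : ‖x‖ ≤ 1 := by
  obtain ⟨p, hp, hpx⟩ := hx
  by_contra hc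
  push Not at hc
  have h1 : x ^ p.natDegree = -∑ i ∈ Finset.range p.natDegree,
      ((p.coeff i : ℤ) : PadicAlgCl l) * x ^ i := by
    have h2 : eval₂ (algebraMap ℤ (PadicAlgCl l)) x p = 0 := hpx
    rw [eval₂_eq_sum_range, Finset.sum_range_succ, hp.coeff_natDegree, map_one, one_mul] at h2
    exact eq_neg_of_add_eq_zero_right h2
  have hn : 0 < p.natDegree := by
    rw [Nat.pos_iff_ne_zero]
    intro h0
    rw [h0] at h1
    simp at h1
  have h2 : ‖x ^ p.natDegree‖ ≤ ‖x‖ ^ (p.natDegree - 1) := by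
    rw [h1, norm_neg]
    refine IsUltrametricDist.norm_sum_le_of_forall_le_of_nonneg (by positivity) fun i hi => ?_
    rw [norm_mul, norm_pow]
    calc ‖((p.coeff i : ℤ) : PadicAlgCl l)‖ * ‖x‖ ^ i ≤ 1 * ‖x‖ ^ i :=
          mul_le_mul_of_nonneg_right (IsUltrametricDist.norm_intCast_le_one _ _) (by positivity)
      _ ≤ ‖x‖ ^ (p.natDegree - 1) := by
          rw [one_mul]
          exact pow_le_pow_right₀ hc.le (by have := Finset.mem_range.1 hi; omega)
  rw [norm_pow] at h2
  have h3 : ‖x‖ ^ (p.natDegree - 1) < ‖x‖ ^ p.natDegree := pow_lt_pow_right₀ hc (by omega)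
  linarith

/-- comparability in the localisation of a Dedekind domain -/
theorem cond {R : Type*} [CommRing R] [IsDedekindDomain R] (P : Ideal R)
    [P.IsPrime] (hP : P ≠ ⊥) (a b : R) :
    ∃ u s : R, s ∉ P ∧ (a * u = b * s ∨ b * u = a * s) := by
  have : IsDiscreteValuationRing (Localization.AtPrime P) :=
    IsLocalization.AtPrime.isDiscreteValuationRing_of_dedekind_domain R hP _
  obtain ⟨c, hc⟩ := ValuationRing.cond (algebraMap R (Localization.AtPrime P) a)
    (algebraMap R (Localization.AtPrime P) b)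
  obtain ⟨⟨u, s⟩, hus⟩ := IsLocalization.surj P.primeCompl c
  have hinj : Function.Injective (algebraMap R (Localization.AtPrime P)) :=
    IsLocalization.injective _ P.primeCompl_le_nonZeroDivisors
  have hus' : c * algebraMap R (Localization.AtPrime P) (s : R)
      = algebraMap R (Localization.AtPrime P) u := hus
  refine ⟨u, s, s.2, ?_⟩
  rcases hc with hc | hc
  · left
    apply hinj
    rw [map_mul, map_mul, ← hus', ← hc]
    ring
  · right
    apply hinj
    rw [map_mul, map_mul, ← hus', ← hc]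
    ring

end OrdSplit_

open OrdSplit_ in
theorem split_distinct (p : ℕ) [Fact p.Prime] (K : Type) [Field K] [NumberField K]
    (hs : SplitsCompletely p K) (ψ ψ' : K →+* PadicAlgCl p) (h : ψ ≠ ψ') :
    ∃ x : 𝓞 K, ‖ψ x‖ < 1 ∧ ‖ψ' x‖ = 1 := by
  by_contra hcon
  push Not at hcon
  have hle : ∀ (j : K →+* PadicAlgCl p) (z : 𝓞 K), ‖j (z : K)‖ ≤ 1 := fun j z =>
    norm_le_one _ ((RingOfIntegers.isIntegral_coe z).map j.toIntAlgHom)
  have hlt : ∀ z : 𝓞 K, ‖ψ z‖ < 1 → ‖ψ' z‖ < 1 := fun z hz =>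
    lt_of_le_of_ne (hle ψ' z) (hcon z hz)
  have hp : (p : ℝ)⁻¹ < 1 := by
    have : (1 : ℝ) < p := by exact_mod_cast (Fact.out : p.Prime).one_lt
    exact inv_lt_one_of_one_lt₀ this
  have hnp : ‖(p : PadicAlgCl p)‖ = (p : ℝ)⁻¹ := by
    rw [← map_natCast (algebraMap ℚ_[p] (PadicAlgCl p)), norm_algebraMap']
    exact Padic.norm_p
  -- the prime ideals
  obtain ⟨P, hPd⟩ : ∃ P : (K →+* PadicAlgCl p) → Ideal (𝓞 K),
      ∀ j (z : 𝓞 K), z ∈ P j ↔ ‖j (z : K)‖ < 1 := by
    refine ⟨fun j =>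
      { carrier := {z : 𝓞 K | ‖j (z : K)‖ < 1}
        add_mem' := ?_
        zero_mem' := ?_
        smul_mem' := ?_ }, fun j z => Iff.rfl⟩
    · intro a b ha hb
      show ‖j ((a + b : 𝓞 K) : K)‖ < 1
      push_cast
      rw [map_add]
      exact (IsUltrametricDist.norm_add_le_max _ _).trans_lt (max_lt ha hb)
    · show ‖j ((0 : 𝓞 K) : K)‖ < 1
      simp
    · intro c z hz
      show ‖j ((c * z : 𝓞 K) : K)‖ < 1
      push_cast
      rw [map_mul, norm_mul]
      exact mul_lt_one_of_nonneg_of_lt_one_right (hle j c) (norm_nonneg _) hz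
  have hone : ∀ j (z : 𝓞 K), z ∉ P j → ‖j (z : K)‖ = 1 := fun j z hz =>
    le_antisymm (hle j z) (not_lt.1 fun h => hz ((hPd j z).2 h))
  have hprime : ∀ j, (P j).IsPrime := by
    intro j
    refine ⟨?_, ?_⟩
    · intro h
      have h2 : (1 : 𝓞 K) ∈ P j := by
        rw [h]
        trivial
      have h3 := (hPd j 1).1 h2
      simp at h3
    · intro x y hxy
      by_contra hc
      push Not at hc
      have h2 := (hPd j (x * y)).1 hxy
      have h3 : ‖j ((x * y : 𝓞 K) : K)‖ = 1 := by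
        push_cast
        rw [map_mul, norm_mul, hone j x hc.1, hone j y hc.2, one_mul]
      linarith
  have hbot : ∀ j, P j ≠ ⊥ := by
    intro j h
    have h1 : (p : 𝓞 K) ∈ P j := by
      rw [hPd]
      have : j ((p : 𝓞 K) : K) = (p : PadicAlgCl p) := by simp
      rw [this, hnp]
      exact hp
    rw [h, Ideal.mem_bot] at h1
    exact (Nat.cast_ne_zero.2 (Fact.out : p.Prime).ne_zero) h1
  have hPP : P ψ = P ψ' := by
    have := (hprime ψ).isMaximal (hbot ψ)
    refine this.eq_of_le (hprime ψ').ne_top ?_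
    intro z hz
    rw [hPd] at hz ⊢
    exact hlt z hz
  -- the absolute values
  obtain ⟨v, hv⟩ : ∃ v : (K →+* PadicAlgCl p) → AbsoluteValue K ℝ,
      ∀ j x, v j x = ‖j x‖ :=
    ⟨fun j => (NormedField.toAbsoluteValue (PadicAlgCl p)).comp j.injective, fun j x => rfl⟩
  have hnt : (v ψ).IsNontrivial := by
    refine ⟨(p : K), Nat.cast_ne_zero.2 (Fact.out : p.Prime).ne_zero, ?_⟩
    rw [hv, map_natCast, hnp]
    exact hp.ne
  have heq : (v ψ).IsEquiv (v ψ') := by
    refine AbsoluteValue.isEquiv_of_lt_one_imp hnt ?_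
    intro x hx
    rw [hv] at hx ⊢
    obtain ⟨a, b, hb, rfl⟩ := IsFractionRing.div_surjective (A := 𝓞 K) x
    have hb0 : (b : K) ≠ 0 := by
      have := nonZeroDivisors.ne_zero hb
      exact_mod_cast this
    have := hprime ψ
    obtain ⟨u, s, hsP, hus⟩ := cond (P ψ) (hbot ψ) a b
    have hs0 : (s : K) ≠ 0 := by
      intro h0
      have : s = 0 := by exact_mod_cast h0
      rw [this] at hsP
      exact hsP (Ideal.zero_mem _)
    have e1 : ‖ψ (s : K)‖ = 1 := hone ψ s hsP
    have e2 : ‖ψ' (s : K)‖ = 1 := hone ψ' s (hPP ▸ hsP)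
    rcases hus with hus | hus
    · exfalso
      have h1 : (a : K) * u = b * s := by exact_mod_cast congrArg (fun z : 𝓞 K => (z : K)) hus
      have hu0 : (u : K) ≠ 0 := by
        intro h0
        rw [h0, mul_zero] at h1
        exact (mul_ne_zero hb0 hs0) h1.symm
      have h2 : ψ ((a : K) / b) * ψ u = ψ s := by
        rw [← map_mul]
        congr 1
        rw [div_mul_eq_mul_div, h1, mul_comm (b : K) s, mul_div_assoc, div_self hb0, mul_one]
      have h3 : ‖ψ ((a : K) / b)‖ * ‖ψ u‖ = 1 := by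
        rw [← norm_mul, h2, e1]
      have h4 := hle ψ u
      have h5 : ‖ψ ((a : K) / b)‖ < 1 := hx
      have h6 : ‖ψ ((a : K) / b)‖ * ‖ψ u‖ < 1 :=
        mul_lt_one_of_nonneg_of_lt_one_left (norm_nonneg _) h5 h4
      linarith
    · have h1 : (b : K) * u = a * s := by exact_mod_cast congrArg (fun z : 𝓞 K => (z : K)) hus
      have h2 : ∀ j : K →+* PadicAlgCl p, j ((a : K) / b) * j s = j u := by
        intro j
        rw [← map_mul]
        congr 1
        rw [div_mul_eq_mul_div, ← h1, mul_comm (b : K) u, mul_div_assoc, div_self hb0, mul_one]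
      have h3 : ‖ψ ((a : K) / b)‖ = ‖ψ u‖ := by
        rw [← h2 ψ, norm_mul, e1, mul_one]
      have h4 : ‖ψ' ((a : K) / b)‖ = ‖ψ' u‖ := by
        rw [← h2 ψ', norm_mul, e2, mul_one]
      have h5 : ‖ψ ((a : K) / b)‖ < 1 := hx
      show ‖ψ' ((a : K) / b)‖ < 1
      rw [h4]
      rw [h3] at h5
      exact hlt u h5
  -- conclusion
  apply h
  ext x
  obtain ⟨y, hy⟩ := hs ψ x
  rw [hy]
  have hbound : ∀ n : ℕ, ‖ψ' x - algebraMap ℚ_[p] (PadicAlgCl p) y‖ ≤ ((p : ℝ)⁻¹) ^ n := by
    intro n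
    have hpn : 0 < ((p : ℝ)⁻¹) ^ n :=
      pow_pos (inv_pos.2 (by exact_mod_cast (Fact.out : p.Prime).pos)) n
    obtain ⟨r, hr⟩ := Padic.rat_dense p y hpn
    have e0 : ‖algebraMap ℚ_[p] (PadicAlgCl p) y - (r : PadicAlgCl p)‖ < ((p : ℝ)⁻¹) ^ n := by
      have : algebraMap ℚ_[p] (PadicAlgCl p) y - (r : PadicAlgCl p)
          = algebraMap ℚ_[p] (PadicAlgCl p) (y - r) := by
        rw [map_sub, map_ratCast]
      rw [this, norm_algebraMap']
      exact hr
    have e1 : v ψ (x - (r : K)) ≤ v ψ ((p : K) ^ n) := by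
      rw [hv, hv, map_sub, map_ratCast, hy, map_pow, map_natCast, norm_pow, hnp]
      exact e0.le
    have e2 := (heq _ _).1 e1
    rw [hv, hv, map_sub, map_ratCast, map_pow, map_natCast, norm_pow, hnp] at e2
    have e3 : ψ' x - algebraMap ℚ_[p] (PadicAlgCl p) y
        = (ψ' x - (r : PadicAlgCl p)) + -(algebraMap ℚ_[p] (PadicAlgCl p) y - (r : PadicAlgCl p)) := by
      ring
    rw [e3]
    refine (IsUltrametricDist.norm_add_le_max _ _).trans (max_le e2 ?_)
    rw [norm_neg]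
    exact e0.le
  have hlim : Filter.Tendsto (fun n : ℕ => ((p : ℝ)⁻¹) ^ n) Filter.atTop (nhds 0) :=
    tendsto_pow_atTop_nhds_zero_of_lt_one (by positivity) hp
  have h0 : ‖ψ' x - algebraMap ℚ_[p] (PadicAlgCl p) y‖ ≤ 0 :=
    ge_of_tendsto' hlim hbound
  have h1 := norm_le_zero_iff.1 h0
  exact (sub_eq_zero.1 h1).symm

end Pool.Agent.CMV
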