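import Mathlib
import Pool.Agent.CMV.OrdDefs

set_option autoImplicit false

/-!
# Ordinary Weil numbers of the same type have a common power
-/

namespace Pool.Agent.CMV

open NumberField Module Polynomial
open Pool.Agent.CMT (QBar IsCMType)
open Pool.Agent.FFT (IsWeil)

namespace OrdUnique_

/-- elements of norm at most one which become integral after multiplication by a power of `p` -/
def BB (p : ℕ) [Fact p.Prime] : Subring (PadicAlgCl p) where
  carrier := {x | ‖x‖ ≤ 1 ∧ ∃ n : ℕ, IsIntegral ℤ ((p : PadicAlgCl p) ^ n * x)}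
  mul_mem' := by
    rintro x y ⟨hx, n, hn⟩ ⟨hy, m, hm⟩
    refine ⟨?_, n + m, ?_⟩
    · rw [norm_mul]
      exact mul_le_one₀ hx (norm_nonneg _) hy
    · have : (p : PadicAlgCl p) ^ (n + m) * (x * y) =
          ((p : PadicAlgCl p) ^ n * x) * ((p : PadicAlgCl p) ^ m * y) := by ring
      rw [this]
      exact hn.mul hm
  one_mem' := ⟨by simp, 0, by simpa using isIntegral_one⟩
  add_mem' := by
    rintro x y ⟨hx, n, hn⟩ ⟨hy, m, hm⟩
    refine ⟨?_, n + m, ?_⟩
    · exact (PadicAlgCl.isNonarchimedean p x y).trans (max_le hx hy)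
    · have : (p : PadicAlgCl p) ^ (n + m) * (x + y) =
          (p : PadicAlgCl p) ^ m * ((p : PadicAlgCl p) ^ n * x) +
          (p : PadicAlgCl p) ^ n * ((p : PadicAlgCl p) ^ m * y) := by ring
      rw [this]
      have hp : IsIntegral ℤ (p : PadicAlgCl p) := by
        have := isIntegral_algebraMap (R := ℤ) (A := PadicAlgCl p) (x := (p : ℤ))
        simpa using this
      exact ((hp.pow m).mul hn).add ((hp.pow n).mul hm)
  zero_mem' := ⟨by simp, 0, by simpa using isIntegral_zero⟩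
  neg_mem' := by
    rintro x ⟨hx, n, hn⟩
    refine ⟨by rwa [norm_neg], n, ?_⟩
    have : (p : PadicAlgCl p) ^ n * (-x) = -((p : PadicAlgCl p) ^ n * x) := by ring
    rw [this]
    exact hn.neg

lemma rat_mem_BB {p : ℕ} [Fact p.Prime] {r : ℚ}
    (h : algebraMap ℚ (PadicAlgCl p) r ∈ BB p) : ∃ m : ℤ, (m : ℚ) = r := by
  obtain ⟨h1, n, h2⟩ := h
  have e1 : (p : PadicAlgCl p) ^ n * algebraMap ℚ (PadicAlgCl p) r =
      algebraMap ℚ (PadicAlgCl p) ((p : ℚ) ^ n * r) := by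
    rw [map_mul, map_pow, map_natCast]
  rw [e1, isIntegral_algebraMap_iff (algebraMap ℚ (PadicAlgCl p)).injective] at h2
  obtain ⟨m, hm⟩ := IsIntegrallyClosed.isIntegral_iff.1 h2
  have hm' : (m : ℚ) = (p : ℚ) ^ n * r := by simpa using hm
  have hp0 : (p : ℚ) ≠ 0 := by
    have := (Fact.out : p.Prime).ne_zero
    exact_mod_cast this
  have e2 : algebraMap ℚ (PadicAlgCl p) r = algebraMap ℚ_[p] (PadicAlgCl p) ((r : ℚ) : ℚ_[p]) := by
    rw [eq_ratCast, map_ratCast]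
  have h3 : ‖((r : ℚ) : ℚ_[p])‖ ≤ 1 := by
    rw [e2] at h1
    rwa [← PadicAlgCl.norm_extends]
  have h4 : ‖((m : ℤ) : ℚ_[p])‖ ≤ (p : ℝ) ^ (-n : ℤ) := by
    have : ((m : ℤ) : ℚ_[p]) = (p : ℚ_[p]) ^ n * ((r : ℚ) : ℚ_[p]) := by
      have := congrArg (fun x : ℚ => (x : ℚ_[p])) hm'
      push_cast at this
      exact this
    rw [this, norm_mul, norm_pow, Padic.norm_p, zpow_neg, zpow_natCast, inv_pow]
    exact mul_le_of_le_one_right (by positivity) h3
  rw [Padic.norm_int_le_pow_iff_dvd] at h4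
  obtain ⟨s, hs⟩ := h4
  refine ⟨s, ?_⟩
  rw [hs] at hm'
  push_cast at hm'
  exact mul_left_cancel₀ (pow_ne_zero n hp0) hm'

lemma integral_of_roots {p : ℕ} [Fact p.Prime] {K : Type} [Field K] [NumberField K] (z : K)
    (h : ∀ ψ : K →+* PadicAlgCl p, ψ z ∈ BB p) : IsIntegral ℤ z := by
  have hint : IsIntegral ℚ z := Algebra.IsIntegral.isIntegral z
  set f := minpoly ℚ z with hf
  have hmon : f.Monic := minpoly.monic hint
  set g := f.map (algebraMap ℚ (PadicAlgCl p)) with hg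
  have hgm : g.Monic := hmon.map _
  have hprod := (IsAlgClosed.splits g).eq_prod_roots_of_monic hgm
  have hroot : ∀ r ∈ g.roots, r ∈ BB p := by
    intro r hr
    have hr' : r ∈ (minpoly ℚ z).rootSet (PadicAlgCl p) := by
      rw [mem_rootSet]
      refine ⟨minpoly.ne_zero hint, ?_⟩
      have := isRoot_of_mem_roots hr
      rw [IsRoot.def, hg, eval_map_algebraMap] at this
      exact this
    rw [← Algebra.IsAlgebraic.range_eval_eq_rootSet_minpoly] at hr'
    obtain ⟨ψ, hψ⟩ := hr'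
    have := h (ψ : K →+* PadicAlgCl p)
    simp only at hψ
    rw [← hψ]
    exact this
  have hlift : g ∈ lifts (BB p).subtype := by
    rw [hprod]
    refine multiset_prod_mem _ ?_
    intro q hq
    rw [Multiset.mem_map] at hq
    obtain ⟨r, hr, rfl⟩ := hq
    have : (X - C r : (PadicAlgCl p)[X]) = X + C ((BB p).subtype ⟨-r, neg_mem (hroot r hr)⟩) := by
      simp [sub_eq_add_neg]
    rw [this]
    exact add_mem (X_mem_lifts _) (C_mem_lifts _ _)
  have hcoef : ∀ i, ∃ m : ℤ, (m : ℚ) = f.coeff i := by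
    intro i
    apply rat_mem_BB (p := p)
    rw [lifts_iff_coeff_lifts] at hlift
    obtain ⟨b, hb⟩ := hlift i
    rw [hg, coeff_map] at hb
    rw [← hb]
    exact b.2
  have hlift2 : f ∈ lifts (algebraMap ℤ ℚ) := by
    rw [lifts_iff_coeff_lifts]
    intro i
    obtain ⟨m, hm⟩ := hcoef i
    exact ⟨m, by simpa using hm⟩
  obtain ⟨F, hF, -, hFm⟩ := lifts_and_degree_eq_and_monic hlift2 hmon
  refine ⟨F, hFm, ?_⟩
  have h1 : aeval z f = 0 := minpoly.aeval ℚ z
  rw [← hF, aeval_map_algebraMap] at h1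
  exact h1

end OrdUnique_

open OrdUnique_

theorem unique_ordinary (p : ℕ) [Fact p.Prime] (K : Type) [Field K] [NumberField K] [IsCMField K]
    (a a' q q' : ℕ) (ha : 1 ≤ a) (ha' : 1 ≤ a') (hq : q = p ^ a) (hq' : q' = p ^ a') (π π' : K)
    (hπ : IsWeil q π) (hπ' : IsWeil q' π')
    (ho : ∀ ψ : K →+* PadicAlgCl p, ‖ψ π‖ = 1 ∨ ‖ψ π‖ = ‖(q : PadicAlgCl p)‖)
    (ho' : ∀ ψ : K →+* PadicAlgCl p, ‖ψ π'‖ = 1 ∨ ‖ψ π'‖ = ‖(q' : PadicAlgCl p)‖)
    (h : ∀ ψ : K →+* PadicAlgCl p, ‖ψ π‖ = 1 ↔ ‖ψ π'‖ = 1) :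
    ∃ m m' : ℕ, 0 < m ∧ 0 < m' ∧ π ^ m = π' ^ m' := by
  have hp : p.Prime := Fact.out
  have hp0 : (p : K) ≠ 0 := by exact_mod_cast hp.ne_zero
  set c := IsCMField.complexConj K with hc
  set x := π ^ a' with hx
  set y := π' ^ a with hy
  have hxc : x * c x = (p : K) ^ (a * a') := by
    rw [hx, map_pow, ← mul_pow, hπ.2, hq]
    push_cast
    rw [← pow_mul]
  have hyc : y * c y = (p : K) ^ (a * a') := by
    rw [hy, map_pow, ← mul_pow, hπ'.2, hq']
    push_cast
    rw [← pow_mul, mul_comm a' a]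
  have hQ0 : (p : K) ^ (a * a') ≠ 0 := pow_ne_zero _ hp0
  have hy0 : y ≠ 0 := by
    intro h0
    rw [h0, zero_mul] at hyc
    exact hQ0 hyc.symm
  have hx0 : x ≠ 0 := by
    intro h0
    rw [h0, zero_mul] at hxc
    exact hQ0 hxc.symm
  -- norms at `p`
  have hnorm : ∀ ψ : K →+* PadicAlgCl p, ‖ψ (x / y)‖ = 1 := by
    intro ψ
    have e1 : ‖ψ x‖ = ‖ψ y‖ := by
      rw [hx, hy, map_pow, map_pow, norm_pow, norm_pow]
      by_cases h1 : ‖ψ π‖ = 1
      · rw [h1, (h ψ).1 h1, one_pow, one_pow]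
      · have h2 : ‖ψ π'‖ ≠ 1 := fun h3 => h1 ((h ψ).2 h3)
        rw [(ho ψ).resolve_left h1, (ho' ψ).resolve_left h2, hq, hq']
        push_cast
        rw [norm_pow, norm_pow, ← pow_mul, ← pow_mul, mul_comm a' a]
    have e2 : ‖ψ y‖ ≠ 0 := by
      rw [norm_ne_zero_iff]
      exact (map_ne_zero ψ).2 hy0
    rw [map_div₀, norm_div, e1, div_self e2]
  have hπint : IsIntegral ℤ x := hπ.1.pow a'
  have hcy : IsIntegral ℤ (c y) := by
    have : IsIntegral ℤ y := hπ'.1.pow a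
    exact this.map (c : K →+* K).toIntAlgHom
  have hz : (p : K) ^ (a * a') * (x / y) = x * c y := by
    rw [← hyc]
    field_simp
  have hzint : IsIntegral ℤ (x / y) := by
    apply integral_of_roots (p := p)
    intro ψ
    refine ⟨(hnorm ψ).le, a * a', ?_⟩
    have : (p : PadicAlgCl p) ^ (a * a') * ψ (x / y) = ψ (x * c y) := by
      rw [← hz, map_mul, map_pow, map_natCast]
    rw [this]
    exact (hπint.mul hcy).map ψ.toIntAlgHom
  have habs : ∀ φ : K →+* ℂ, ‖φ (x / y)‖ = 1 := by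
    intro φ
    have key : ∀ w : K, w * c w = (p : K) ^ (a * a') → ‖φ w‖ ^ 2 = (p : ℝ) ^ (a * a') := by
      intro w hw
      have h1 := congrArg φ hw
      rw [map_mul, hc, IsCMField.complexEmbedding_complexConj, map_pow, map_natCast] at h1
      have h2 := congrArg norm h1
      rw [norm_mul, RCLike.norm_conj, norm_pow, Complex.norm_natCast] at h2
      rw [pow_two]
      exact h2
    have e1 := key x hxc
    have e2 := key y hyc
    have e3 : ‖φ x‖ = ‖φ y‖ := by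
      have : ‖φ x‖ ^ 2 = ‖φ y‖ ^ 2 := e1.trans e2.symm
      exact (sq_eq_sq₀ (norm_nonneg _) (norm_nonneg _)).1 this
    have e4 : ‖φ y‖ ≠ 0 := by
      rw [norm_ne_zero_iff]
      exact (map_ne_zero φ).2 hy0
    rw [map_div₀, norm_div, e3, div_self e4]
  obtain ⟨N, hN, hzN⟩ := NumberField.Embeddings.pow_eq_one_of_norm_eq_one K ℂ hzint habs
  refine ⟨a' * N, a * N, Nat.mul_pos ha' hN, Nat.mul_pos ha hN, ?_⟩
  rw [div_pow, div_eq_one_iff_eq (pow_ne_zero _ hy0)] at hzN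
  rw [pow_mul, pow_mul]
  exact hzN

end Pool.Agent.CMV
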