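import Mathlib
import Pool.Agent.CMV.Final
import Pool.Agent.CMV.OrdClass
import Pool.Agent.CMV.OrdSplit
import Pool.Agent.CMV.OrdExist
import Pool.Agent.CMV.OrdUnique
import Pool.Agent.FFT.ORD
import Pool.Agent.FFT.NORM
import Pool.Agent.FFT.FINF
import Pool.Agent.FFT.MATCH

set_option autoImplicit false

/-!
# Ordinary Weil numbers: assembly
-/

namespace Pool.Agent.CMV

open NumberField Module
open Pool.Agent.CMT (QBar IsCMType cc cc_cc)
open Pool.Agent.CMTP (HG NDeg cc_ne)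
open Pool.Agent.FFT (IsWeil TateByDivisors p_ORD p_NORM p_FINF p_MATCH)

theorem comp_inj {p : ℕ} [Fact p.Prime] {K : Type} [Field K] (ι : QBar →+* PadicAlgCl p) :
    Function.Injective (fun φ : K →+* QBar => ι.comp φ) := by
  intro φ φ' h
  ext x
  exact ι.injective (RingHom.congr_fun h x)

theorem comp_surj {p : ℕ} [Fact p.Prime] {K : Type} [Field K] [NumberField K]
    (ι : QBar →+* PadicAlgCl p) (ψ : K →+* PadicAlgCl p) : ∃ φ : K →+* QBar, ι.comp φ = ψ := by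
  classical
  have h : Function.Bijective (fun φ : K →+* QBar => ι.comp φ) := by
    rw [Fintype.bijective_iff_injective_and_card]
    refine ⟨comp_inj ι, ?_⟩
    rw [NumberField.Embeddings.card, NumberField.Embeddings.card]
  exact h.2 ψ

theorem norm_q_lt (p : ℕ) [Fact p.Prime] (a q : ℕ) (ha : 1 ≤ a) (hq : q = p ^ a) :
    ‖(q : PadicAlgCl p)‖ < 1 := Pool.Agent.FFT.NORM_.norm_q_lt p a q ha hq

theorem hasType_exists (p : ℕ) [Fact p.Prime] (K : Type) [Field K] [NumberField K] [IsCMField K]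
    (ι : QBar →+* PadicAlgCl p) (q : ℕ) (π : K) (h : IsOrdinary p q π) :
    ∃ Φ : Finset (K →+* QBar), IsCMType K Φ ∧ HasType ι π Φ := by
  classical
  obtain ⟨⟨a, ha, hq⟩, hW, ho⟩ := h
  refine ⟨Finset.univ.filter (fun φ => ‖ι (φ π)‖ < 1), ?_, ?_⟩
  · exact (p_ORD p_NORM (p_FINF p_MATCH) p a q ha hq K π hW ho ι
      (Finset.univ.filter (fun φ => ‖ι (φ π)‖ < 1)) (by simp)).1
  · intro φ
    simp

theorem type_of_ordinary (p : ℕ) [Fact p.Prime] (K : Type) [Field K] [NumberField K] [IsCMField K]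
    (ι : QBar →+* PadicAlgCl p) (hs : SplitsCompletely p K) (Φ : Finset (K →+* QBar))
    (hΦ : IsCMType K Φ) : ∃ (q : ℕ) (π : K), IsOrdinary p q π ∧ HasType ι π Φ := by
  classical
  have hmem : ∀ φ : K →+* QBar, ι.comp φ ∈ {ψ | ∃ φ ∈ Φ, ι.comp φ = ψ} ↔ φ ∈ Φ := by
    intro φ
    constructor
    · rintro ⟨φ', h1, h2⟩
      rw [← comp_inj ι h2]
      exact h1
    · intro h
      exact ⟨φ, h, rfl⟩
  obtain ⟨a, q, π, ha, hq, hW, h1, h2⟩ := exists_ordinary p K
    (split_distinct p K hs) {ψ | ∃ φ ∈ Φ, ι.comp φ = ψ} (by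
      intro ψ
      obtain ⟨φ, rfl⟩ := comp_surj ι ψ
      rw [hmem, RingHom.comp_assoc, hmem]
      exact hΦ φ)
  refine ⟨q, π, ⟨⟨a, ha, hq⟩, hW, ?_⟩, ?_⟩
  · intro ψ
    by_cases h : ψ ∈ {ψ | ∃ φ ∈ Φ, ι.comp φ = ψ}
    · exact Or.inr (h1 ψ h)
    · exact Or.inl (h2 ψ h)
  · intro φ
    rw [← hmem φ]
    constructor
    · intro h
      have e := h1 _ h
      have e' : ‖ι (φ π)‖ = ‖(q : PadicAlgCl p)‖ := e
      rw [e']
      exact norm_q_lt p a q ha hq
    · intro h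
      by_contra h'
      have e := h2 _ h'
      have e' : ‖ι (φ π)‖ = 1 := e
      rw [e'] at h
      exact lt_irrefl _ h

theorem same_type (p : ℕ) [Fact p.Prime] (K : Type) [Field K] [NumberField K] [IsCMField K]
    (ι : QBar →+* PadicAlgCl p) (q q' : ℕ) (π π' : K) (Φ : Finset (K →+* QBar))
    (h : IsOrdinary p q π) (h' : IsOrdinary p q' π') (t : HasType ι π Φ) (t' : HasType ι π' Φ) :
    ∃ m m' : ℕ, 0 < m ∧ 0 < m' ∧ π ^ m = π' ^ m' := by
  obtain ⟨⟨a, ha, hq⟩, hW, ho⟩ := h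
  obtain ⟨⟨a', ha', hq'⟩, hW', ho'⟩ := h'
  refine unique_ordinary p K a a' q q' ha ha' hq hq' π π' hW hW' ho ho' ?_
  intro ψ
  obtain ⟨φ, rfl⟩ := comp_surj ι ψ
  have e1 : ‖(ι.comp φ) π‖ = 1 ↔ ¬ ‖ι (φ π)‖ < 1 := by
    constructor
    · intro h1 h2
      have h3 : ‖ι (φ π)‖ = 1 := h1
      rw [h3] at h2
      exact lt_irrefl _ h2
    · intro h1
      rcases ho (ι.comp φ) with h2 | h2
      · exact h2
      · exfalso
        apply h1
        have h3 : ‖ι (φ π)‖ = ‖(q : PadicAlgCl p)‖ := h2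
        rw [h3]
        exact norm_q_lt p a q ha hq
  have e2 : ‖(ι.comp φ) π'‖ = 1 ↔ ¬ ‖ι (φ π')‖ < 1 := by
    constructor
    · intro h1 h2
      have h3 : ‖ι (φ π')‖ = 1 := h1
      rw [h3] at h2
      exact lt_irrefl _ h2
    · intro h1
      rcases ho' (ι.comp φ) with h2 | h2
      · exact h2
      · exfalso
        apply h1
        have h3 : ‖ι (φ π')‖ = ‖(q' : PadicAlgCl p)‖ := h2
        rw [h3]
        exact norm_q_lt p a' q' ha' hq'
  rw [e1, e2, ← t φ, ← t' φ]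

/-- equivalent Weil numbers have the same type -/
theorem type_of_equiv {p : ℕ} [Fact p.Prime] {K : Type} [Field K] [NumberField K]
    (ι : QBar →+* PadicAlgCl p) (π π' : K) (Φ Φ' : Finset (K →+* QBar)) (m m' : ℕ) (hm : 0 < m)
    (hm' : 0 < m') (h : π ^ m = π' ^ m') (t : HasType ι π Φ) (t' : HasType ι π' Φ') : Φ = Φ' := by
  ext φ
  rw [t φ, t' φ]
  have e : ‖ι (φ π)‖ ^ m = ‖ι (φ π')‖ ^ m' := by
    rw [← norm_pow, ← norm_pow, ← map_pow, ← map_pow, ← map_pow, ← map_pow, h]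
  rw [← pow_lt_one_iff_of_nonneg (norm_nonneg _) hm.ne', e,
    pow_lt_one_iff_of_nonneg (norm_nonneg _) hm'.ne']

theorem card_types (K : Type) [Field K] [NumberField K] [IsCMField K] :
    Nat.card {Φ : Finset (K →+* QBar) // IsCMType K Φ} = 2 ^ (finrank ℚ K / 2) := by
  have hKX : Fintype.card (K →+* QBar) = finrank ℚ K := NumberField.Embeddings.card K QBar
  obtain ⟨R, hR⟩ := exists_half (cc (K := K)) cc_cc cc_ne
  have h1 := card_of_half cc cc_cc R hR
  refine card_half cc cc_cc cc_ne (finrank ℚ K / 2) ?_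
  omega

section
variable (p : ℕ) [Fact p.Prime] (K : Type) [Field K] [NumberField K] [IsCMField K]

theorem exists_typ (ι : QBar →+* PadicAlgCl p) :
    ∃ typ : OrdinaryNumber p K → {Φ : Finset (K →+* QBar) // IsCMType K Φ},
      ∀ x, HasType ι x.1.2 (typ x).1 := by
  have h : ∀ x : OrdinaryNumber p K, ∃ Φ : {Φ : Finset (K →+* QBar) // IsCMType K Φ},
      HasType ι x.1.2 Φ.1 := by
    intro x
    obtain ⟨Φ, h1, h2⟩ := hasType_exists p K ι x.1.1 x.1.2 x.2
    exact ⟨⟨Φ, h1⟩, h2⟩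
  choose typ htyp using h
  exact ⟨typ, htyp⟩

theorem exists_iota : Nonempty (QBar →+* PadicAlgCl p) := by
  have h1 : Algebra.IsAlgebraic ℚ QBar := Pool.Agent.CMTP.isAlgebraic_QBar ℚ
  exact ⟨((IsAlgClosed.lift : QBar →ₐ[ℚ] PadicAlgCl p) : QBar →+* PadicAlgCl p)⟩

theorem inj_aux (ι : QBar →+* PadicAlgCl p)
    (typ : OrdinaryNumber p K → {Φ : Finset (K →+* QBar) // IsCMType K Φ})
    (ht : ∀ x, HasType ι x.1.2 (typ x).1) (x y : OrdinaryNumber p K) (h : typ x = typ y) :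
    Quotient.mk (commonPower p K) x = Quotient.mk (commonPower p K) y := by
  refine Quotient.sound ?_
  have h1 := ht x
  rw [h] at h1
  exact same_type p K ι x.1.1 y.1.1 x.1.2 y.1.2 (typ y).1 x.2 y.2 h1 (ht y)

theorem finite_class : Finite (OrdinaryClass p K) := by
  obtain ⟨ι⟩ := exists_iota p
  obtain ⟨typ, ht⟩ := exists_typ p K ι
  refine Finite.of_injective (fun c : OrdinaryClass p K => typ (Quotient.out c)) ?_
  intro c c' h
  have := inj_aux p K ι typ ht _ _ h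
  rw [Quotient.out_eq, Quotient.out_eq] at this
  exact this

theorem card_class (hs : SplitsCompletely p K) :
    Nat.card (OrdinaryClass p K) = 2 ^ (finrank ℚ K / 2) := by
  obtain ⟨ι⟩ := exists_iota p
  obtain ⟨typ, ht⟩ := exists_typ p K ι
  rw [← card_types K]
  refine Nat.card_eq_of_bijective (fun c : OrdinaryClass p K => typ (Quotient.out c)) ⟨?_, ?_⟩
  · intro c c' h
    have := inj_aux p K ι typ ht _ _ h
    rw [Quotient.out_eq, Quotient.out_eq] at this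
    exact this
  · intro Φ
    obtain ⟨q, π, h1, h2⟩ := type_of_ordinary p K ι hs Φ.1 Φ.2
    refine ⟨Quotient.mk (commonPower p K) ⟨(q, π), h1⟩, ?_⟩
    have h3 : (commonPower p K).r (Quotient.out (Quotient.mk (commonPower p K)
        (⟨(q, π), h1⟩ : OrdinaryNumber p K))) ⟨(q, π), h1⟩ := Quotient.mk_out _
    obtain ⟨m, m', hm, hm', h4⟩ := h3
    exact Subtype.ext (type_of_equiv ι _ _ _ _ m m' hm hm' h4 (ht _) h2)

theorem card_bad (C : ℝ)
    (h : (Nat.card {Φ : Finset (K →+* QBar) // IsCMType K Φ ∧ ¬ NDeg (HG K) cc Φ} : ℝ) *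
      √((finrank ℚ K : ℝ) * galDeg K) ≤ C) :
    (Nat.card {c : OrdinaryClass p K // c.IsBad} : ℝ) *
      √((finrank ℚ K : ℝ) * galDeg K) ≤ C := by
  classical
  refine le_trans (mul_le_mul_of_nonneg_right ?_ (Real.sqrt_nonneg _)) h
  obtain ⟨ι⟩ := exists_iota p
  obtain ⟨typ, ht⟩ := exists_typ p K ι
  have h0 : ∀ c : {c : OrdinaryClass p K // c.IsBad}, ∃ x : OrdinaryNumber p K,
      Quotient.mk (commonPower p K) x = c.1 ∧ ¬ TateByDivisors x.1.1 (fun _ : Unit => x.1.2) :=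
    fun c => c.2
  choose f hf1 hf2 using h0
  have h1 : Nat.card {c : OrdinaryClass p K // c.IsBad} ≤
      Nat.card {Φ : Finset (K →+* QBar) // IsCMType K Φ ∧ ¬ NDeg (HG K) cc Φ} := by
    refine Nat.card_le_card_of_injective (fun c => ⟨(typ (f c)).1, ?_⟩) ?_
    · obtain ⟨⟨a, ha, hq⟩, hW, ho⟩ := (f c).2
      have h2 := p_ORD p_NORM (p_FINF p_MATCH) p a _ ha hq K _ hW ho ι _ (ht (f c))
      exact ⟨h2.1, fun hnd => hf2 c (h2.2 hnd)⟩
    · intro c c' hcc
      have h3 : (typ (f c)).1 = (typ (f c')).1 := congrArg (fun x : {Φ : Finset (K →+* QBar) //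
        IsCMType K Φ ∧ ¬ NDeg (HG K) cc Φ} => x.1) hcc
      have h4 := inj_aux p K ι typ ht _ _ (Subtype.ext h3)
      rw [hf1, hf1] at h4
      exact Subtype.ext h4
  exact_mod_cast h1

end

end Pool.Agent.CMV
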