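import Mathlib
import Pool.Agent.CMV.OrdDefs

set_option autoImplicit false
set_option linter.unusedVariables false

namespace Pool.Agent.CMV.OrdTargets

open NumberField Module
open Pool.Agent.CMT (QBar IsCMType)
open Pool.Agent.FFT (IsWeil)

/-! CMO-SPL -/
theorem split_distinct (p : ℕ) [Fact p.Prime] (K : Type) [Field K] [NumberField K]
    (hs : SplitsCompletely p K) (ψ ψ' : K →+* PadicAlgCl p) (h : ψ ≠ ψ') :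
    ∃ x : 𝓞 K, ‖ψ x‖ < 1 ∧ ‖ψ' x‖ = 1 := by
  sorry

/-! CMO-EX -/
theorem exists_ordinary (p : ℕ) [Fact p.Prime] (K : Type) [Field K] [NumberField K] [IsCMField K]
    (hd : ∀ ψ ψ' : K →+* PadicAlgCl p, ψ ≠ ψ' → ∃ x : 𝓞 K, ‖ψ x‖ < 1 ∧ ‖ψ' x‖ = 1)
    (T : Set (K →+* PadicAlgCl p))
    (hT : ∀ ψ, ψ ∈ T ↔ ψ.comp (IsCMField.complexConj K : K →+* K) ∉ T) :
    ∃ (a q : ℕ) (π : K), 1 ≤ a ∧ q = p ^ a ∧ IsWeil q π ∧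
      (∀ ψ ∈ T, ‖ψ π‖ = ‖(q : PadicAlgCl p)‖) ∧ ∀ ψ, ψ ∉ T → ‖ψ π‖ = 1 := by
  sorry

/-! CMO-UN -/
theorem unique_ordinary (p : ℕ) [Fact p.Prime] (K : Type) [Field K] [NumberField K] [IsCMField K]
    (a a' q q' : ℕ) (ha : 1 ≤ a) (ha' : 1 ≤ a') (hq : q = p ^ a) (hq' : q' = p ^ a') (π π' : K)
    (hπ : IsWeil q π) (hπ' : IsWeil q' π')
    (ho : ∀ ψ : K →+* PadicAlgCl p, ‖ψ π‖ = 1 ∨ ‖ψ π‖ = ‖(q : PadicAlgCl p)‖)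
    (ho' : ∀ ψ : K →+* PadicAlgCl p, ‖ψ π'‖ = 1 ∨ ‖ψ π'‖ = ‖(q' : PadicAlgCl p)‖)
    (h : ∀ ψ : K →+* PadicAlgCl p, ‖ψ π‖ = 1 ↔ ‖ψ π'‖ = 1) :
    ∃ m m' : ℕ, 0 < m ∧ 0 < m' ∧ π ^ m = π' ^ m' := by
  sorry

end Pool.Agent.CMV.OrdTargets
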