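import Mathlib
import Pool.Agent.CMV.Defs
import Pool.Agent.CMV.DefsB
import Pool.Agent.CMTP.Field

set_option autoImplicit false
set_option linter.unusedVariables false

/-!
# Exact statements for the jobs CMV-* (not imported by any hand-in)
-/

namespace Pool.Agent.CMV.Targets

open Finset Module
open scoped BigOperators RealInnerProductSpace
open Pool.Agent.CMV

/-! ### CMV-GC -/
theorem gauss_cos (W : Type) [NormedAddCommGroup W] [InnerProductSpace ℝ W]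
    [FiniteDimensional ℝ W] [MeasurableSpace W] [BorelSpace W] (w : W) :
    (2 * Real.pi) ^ (-(finrank ℝ W : ℝ) / 2) *
      ∫ g : W, Real.exp (-‖g‖ ^ 2 / 2) * Real.cos ⟪g, w⟫ = Real.exp (-‖w‖ ^ 2 / 2) := by
  sorry

/-! ### CMV-GP -/
theorem gauss_prod_cos (W : Type) [NormedAddCommGroup W] [InnerProductSpace ℝ W]
    [FiniteDimensional ℝ W] [MeasurableSpace W] [BorelSpace W] (s q : ℕ) (u : Fin s → W) (t : ℝ) :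
    (2 * Real.pi) ^ (-(finrank ℝ W : ℝ) / 2) *
      ∫ g : W, Real.exp (-‖g‖ ^ 2 / 2) * ∏ j, Real.cos (t * ⟪g, u j⟫) ^ (2 * q) ≤
    cq q ^ s * ∑ m ∈ Fintype.piFinset (fun _ : Fin s => Finset.Icc (-(q : ℤ)) q),
      Real.exp (-2 * t ^ 2 * ‖∑ j, (m j : ℝ) • u j‖ ^ 2) := by
  sorry

/-! ### CMV-SC -/
theorem sum_cos {ι : Type} [Fintype ι] [DecidableEq ι] (y : ι → ℝ) :
    ∑ a : ι → Bool, Real.cos (∑ i, sg (a i) * y i) =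
      2 ^ Fintype.card ι * ∏ i, Real.cos (y i) := by
  sorry

/-! ### CMV-AG -/
theorem amgm {ι : Type} [Fintype ι] [DecidableEq ι]
    (G : Subgroup (EuclideanSpace ℝ ι ≃ₗᵢ[ℝ] EuclideanSpace ℝ ι)) [Fintype G] (hG : Signed G)
    (w : EuclideanSpace ℝ ι) (s q : ℕ) (x : Fin s → ι) (hq : 2 * q * s ≤ Fintype.card ι) (t : ℝ) :
    |∏ i, Real.cos (t * w i)| ≤ (1 / (Fintype.card G : ℝ)) *
      ∑ γ : G, ∏ j, Real.cos (t * ((γ : EuclideanSpace ℝ ι ≃ₗᵢ[ℝ] EuclideanSpace ℝ ι) w) (x j)) ^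
        (2 * q) := by
  sorry

/-! ### CMV-T1 -/
theorem theta_one (β θ : ℝ) (hβ : 0 < β) (M : Finset ℤ) :
    ∑ m ∈ M, Real.exp (-β * ((m : ℝ) + θ) ^ 2) ≤ 1 + √(Real.pi / β) := by
  sorry

/-! ### CMV-TH -/
theorem theta {W : Type} [NormedAddCommGroup W] [InnerProductSpace ℝ W] [FiniteDimensional ℝ W]
    (h1 : ∀ (β θ : ℝ), 0 < β → ∀ M : Finset ℤ,
      ∑ m ∈ M, Real.exp (-β * ((m : ℝ) + θ) ^ 2) ≤ 1 + √(Real.pi / β))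
    (s : ℕ) (u : Fin s → W) (σ : Fin s → ℝ) (hσ : ∀ j, 0 < σ j)
    (hu : ∀ j, ∀ w ∈ Submodule.span ℝ (u '' {i | i < j}), σ j ≤ ‖u j - w‖)
    (α : ℝ) (hα : 0 < α) (M : Finset ℤ) (p : W) :
    ∑ m ∈ Fintype.piFinset (fun _ : Fin s => M), Real.exp (-α * ‖p + ∑ j, (m j : ℝ) • u j‖ ^ 2) ≤
      ∏ j, (1 + √(Real.pi / α) / σ j) := by
  sorry

/-! ### CMV-GR -/
theorem greedy {ι : Type} [Fintype ι] [DecidableEq ι] (W : Submodule ℝ (EuclideanSpace ℝ ι))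
    (s : ℕ) (hs : finrank ℝ W = s) :
    ∃ x : Fin s → ι, ∀ j : Fin s,
      ∀ w ∈ Submodule.span ℝ ((fun i => W.starProjection (bv (x i))) '' {i | i < j}),
        ((s : ℝ) - j) / Fintype.card ι ≤ ‖W.starProjection (bv (x j)) - w‖ ^ 2 := by
  sorry

/-! ### CMV-CB -/
theorem cq_le_half (q : ℕ) (hq : 1 ≤ q) : cq q ≤ 1 / 2 := by
  sorry

theorem cq_sq_le (q : ℕ) : cq q ^ 2 * (2 * q + 1) ≤ 1 := by
  sorry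

theorem cq_pos (q : ℕ) : 0 < cq q := by
  sorry

theorem prod_bound (s : ℕ) :
    ∏ j : Fin s, (1 + √(Real.pi / 20000) * √((s : ℝ) / ((s : ℝ) - j))) ≤
      Real.exp (26 / 1000 * s) := by
  sorry

/-! ### CMV-SB -/
theorem small_ball {ι : Type} [Fintype ι] [DecidableEq ι]
    (G : Subgroup (EuclideanSpace ℝ ι ≃ₗᵢ[ℝ] EuclideanSpace ℝ ι)) (hG : Signed G)
    (W : Submodule ℝ (EuclideanSpace ℝ ι)) (hW : Stable G W) (s : ℕ) (hs : finrank ℝ W = s)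
    (hs1 : 1 ≤ s) (q : ℕ) (hq : 1 ≤ q) (hqs : 2 * q * s ≤ Fintype.card ι) :
    (Nat.card {a : ι → Bool // ‖W.starProjection (sv a)‖ ^ 2 ≤
      (s : ℝ) ^ 2 / (10 ^ 6 * Fintype.card ι)} : ℝ) ≤
    2 ^ Fintype.card ι * (21 / 20 * cq q) ^ s := by
  sorry

/-! ### CMV-OD -/
theorem odlyzko {ι : Type} [Fintype ι] [DecidableEq ι] (W : Submodule ℝ (EuclideanSpace ℝ ι))
    (s : ℕ) (hs : finrank ℝ W = s) :
    (Nat.card {a : ι → Bool // ∀ w ∈ W, ⟪w, sv a⟫ = 0} : ℝ) ≤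
      2 ^ Fintype.card ι * (1 / 2) ^ s := by
  sorry

/-! ### CMV-NET -/
theorem net (E : Type) [NormedAddCommGroup E] [NormedSpace ℝ E] [FiniteDimensional ℝ E]
    (f : ℕ) (hf : finrank ℝ E = f) (hf1 : 1 ≤ f) (η : ℝ) (hη : 0 < η) (hη1 : η ≤ 1) :
    ∃ N : Finset E, (∀ T ∈ N, ‖T‖ = 1) ∧ (∀ T, ‖T‖ = 1 → ∃ T' ∈ N, ‖T - T'‖ ≤ η) ∧
      (N.card : ℝ) ≤ 2 * f * (1 + 2 / η) ^ (f - 1) := by
  sorry

/-! ### CMV-SCH -/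
theorem schur_norm {ι : Type} [Fintype ι] [DecidableEq ι]
    (G : Subgroup (EuclideanSpace ℝ ι ≃ₗᵢ[ℝ] EuclideanSpace ℝ ι))
    (W : Submodule ℝ (EuclideanSpace ℝ ι)) (hW : Mini G W)
    (T : W →L[ℝ] EuclideanSpace ℝ ι) (hT : T ∈ EqI G W ⊤) (w : W) : ‖T w‖ = ‖T‖ * ‖w‖ := by
  sorry

theorem finrank_EqI_le {ι : Type} [Fintype ι] [DecidableEq ι]
    (G : Subgroup (EuclideanSpace ℝ ι ≃ₗᵢ[ℝ] EuclideanSpace ℝ ι)) (hG : Signed G) [Nonempty ι]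
    (W : Submodule ℝ (EuclideanSpace ℝ ι)) (hW : Mini G W) :
    finrank ℝ (EqI G W ⊤) ≤ finrank ℝ W := by
  sorry

/-! ### CMV-FR -/
theorem finrank_EqI_four {ι : Type} [Fintype ι] [DecidableEq ι]
    (G : Subgroup (EuclideanSpace ℝ ι ≃ₗᵢ[ℝ] EuclideanSpace ℝ ι))
    (W W' : Submodule ℝ (EuclideanSpace ℝ ι)) (hW : Mini G W) (hW' : Mini G W') :
    finrank ℝ (EqI G W W') ≤ 4 := by
  sorry

/-! ### CMV-FAM -/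
theorem family {ι : Type} [Fintype ι] [DecidableEq ι]
    (G : Subgroup (EuclideanSpace ℝ ι ≃ₗᵢ[ℝ] EuclideanSpace ℝ ι))
    (hschur : ∀ (W : Submodule ℝ (EuclideanSpace ℝ ι)), Mini G W →
      ∀ T : W →L[ℝ] EuclideanSpace ℝ ι, T ∈ EqI G W ⊤ → ∀ w : W, ‖T w‖ = ‖T‖ * ‖w‖)
    (hfour : ∀ (W W' : Submodule ℝ (EuclideanSpace ℝ ι)), Mini G W → Mini G W' →
      finrank ℝ (EqI G W W') ≤ 4) :
    ∃ S : Finset (Submodule ℝ (EuclideanSpace ℝ ι)), (∀ W ∈ S, Mini G W) ∧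
      (∑ W ∈ S, finrank ℝ W ≤ Fintype.card ι) ∧
      (∀ V, Mini G V → ∃ W ∈ S, ∃ T ∈ EqI G W ⊤, ‖T‖ = 1 ∧
        ∀ v, v ∈ V ↔ ∃ w : W, T w = v) ∧
      ∀ W ∈ S, finrank ℝ (EqI G W ⊤) * finrank ℝ W ≤ 4 * Fintype.card ι := by
  sorry

/-! ### CMV-UB -/
theorem union_bound {ι : Type} [Fintype ι] [DecidableEq ι]
    (G : Subgroup (EuclideanSpace ℝ ι ≃ₗᵢ[ℝ] EuclideanSpace ℝ ι)) (k : ℕ)
    (hschur : ∀ (W : Submodule ℝ (EuclideanSpace ℝ ι)), Mini G W →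
      ∀ T : W →L[ℝ] EuclideanSpace ℝ ι, T ∈ EqI G W ⊤ → ∀ w : W, ‖T w‖ = ‖T‖ * ‖w‖)
    (hnet : ∀ (E : Type) [NormedAddCommGroup E] [NormedSpace ℝ E] [FiniteDimensional ℝ E]
      (f : ℕ), finrank ℝ E = f → 1 ≤ f → ∀ (η : ℝ), 0 < η → η ≤ 1 →
      ∃ N : Finset E, (∀ T ∈ N, ‖T‖ = 1) ∧ (∀ T, ‖T‖ = 1 → ∃ T' ∈ N, ‖T - T'‖ ≤ η) ∧
        (N.card : ℝ) ≤ 2 * f * (1 + 2 / η) ^ (f - 1))
    (hball : ∀ (W : Submodule ℝ (EuclideanSpace ℝ ι)), Stable G W → ∀ s : ℕ, finrank ℝ W = s →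
      1 ≤ s → ∀ q : ℕ, 1 ≤ q → 2 * q * s ≤ Fintype.card ι →
      (Nat.card {a : ι → Bool // ‖W.starProjection (sv a)‖ ^ 2 ≤
        (s : ℝ) ^ 2 / (10 ^ 6 * Fintype.card ι)} : ℝ) ≤
      2 ^ Fintype.card ι * (21 / 20 * cq q) ^ s)
    (hod : ∀ (W : Submodule ℝ (EuclideanSpace ℝ ι)) (s : ℕ), finrank ℝ W = s →
      (Nat.card {a : ι → Bool // ∀ w ∈ W, ⟪w, sv a⟫ = 0} : ℝ) ≤
        2 ^ Fintype.card ι * (1 / 2) ^ s)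
    (S : Finset (Submodule ℝ (EuclideanSpace ℝ ι))) (hS : ∀ W ∈ S, Mini G W)
    (hS2 : ∀ V, Mini G V → ∃ W ∈ S, ∃ T ∈ EqI G W ⊤, ‖T‖ = 1 ∧ ∀ v, v ∈ V ↔ ∃ w : W, T w = v) :
    (Nat.card (Bad G k) : ℝ) ≤ 2 ^ (Fintype.card ι * k) *
      ∑ W ∈ S, wt (Fintype.card ι) (finrank ℝ W) (finrank ℝ (EqI G W ⊤)) k := by
  sorry

/-! ### CMV-NUM -/
theorem numeric (h1 : ∀ q : ℕ, 1 ≤ q → cq q ≤ 1 / 2) (h2 : ∀ q : ℕ, cq q ^ 2 * (2 * q + 1) ≤ 1)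
    (h3 : ∀ q : ℕ, 0 < cq q) :
    ∃ C : ℝ, 0 < C ∧ ∀ b s f : ℕ, 1 ≤ s → s ≤ b → f ≤ s → f * s ≤ 4 * b →
      wt b s f 3 ≤ C * s / (b * √b) := by
  sorry

theorem wt_step (h1 : ∀ q : ℕ, 1 ≤ q → cq q ≤ 1 / 2) (h3 : ∀ q : ℕ, 0 < cq q) (b s f k : ℕ)
    (hs : 1 ≤ s) (hk : 3 ≤ k) : wt b s f k ≤ wt b s f 3 * (11 / 20) ^ (k - 3) := by
  sorry

/-! ### CMV-BR -/
theorem bridge (C : ℝ) (hA : ∀ (ι : Type) [Fintype ι] [DecidableEq ι] [Nonempty ι]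
      (G : Subgroup (EuclideanSpace ℝ ι ≃ₗᵢ[ℝ] EuclideanSpace ℝ ι)), Signed G → ∀ k : ℕ, 3 ≤ k →
      (Nat.card (Bad G k) : ℝ) ≤ C * (11 / 20) ^ k * 2 ^ (Fintype.card ι * k) /
        √(Fintype.card ι : ℝ))
    (Y : Type) [Fintype Y] [Nonempty Y] (ρ : Y → Y) (hρρ : ∀ y, ρ (ρ y) = y) (hρ1 : ∀ y, ρ y ≠ y)
    (Γ : Subgroup (Equiv.Perm Y)) (hρ : ∀ γ ∈ Γ, ∀ y, ρ (γ y) = γ (ρ y))
    (htr : ∀ x y : Y, ∃ γ ∈ Γ, γ x = y) (b : ℕ) (hb : Fintype.card Y = 2 * b) (k : ℕ)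
    (hk : 3 ≤ k) :
    (Nat.card (BadHalf ρ Γ k) : ℝ) ≤ C * (11 / 20) ^ k * 2 ^ (b * k) / √b := by
  sorry

/-! ### CMV-BLK -/
theorem block_reduction {X : Type} [Fintype X] [Nonempty X] (H : Subgroup (Equiv.Perm X))
    (htr : ∀ x y : X, ∃ h ∈ H, h x = y) (ρ : X → X) (hρρ : ∀ x, ρ (ρ x) = x)
    (hρ1 : ∀ x, ρ x ≠ x) (hρ : ∀ h ∈ H, ∀ x, ρ (h x) = h (ρ x))
    (N : Subgroup (Equiv.Perm X)) (hN : ∀ n, n ∈ N ↔ n ∈ H ∧ ∀ x, n x = x ∨ n x = ρ x) :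
    ∃ (Y : Type) (_ : Fintype Y) (_ : Nonempty Y) (ρ' : Y → Y) (Γ : Subgroup (Equiv.Perm Y))
      (b k : ℕ), (∀ y, ρ' (ρ' y) = y) ∧ (∀ y, ρ' y ≠ y) ∧
      (∀ γ ∈ Γ, ∀ y, ρ' (γ y) = γ (ρ' y)) ∧ (∀ x y : Y, ∃ γ ∈ Γ, γ x = y) ∧
      Fintype.card Y = 2 * b ∧ 2 * (b * k) = Fintype.card X ∧ Nat.card N ≤ 2 ^ k ∧
      (8 ≤ Nat.card N → 3 ≤ k) ∧
      Nat.card {Φ : Finset X // CMTP.HalfX ρ Φ ∧ ¬ CMTP.NDeg H ρ Φ} ≤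
        Nat.card (BadHalf ρ' Γ k) := by
  sorry

/-! ### CMV-CNT -/
theorem card_half {X : Type} [Fintype X] (ρ : X → X) (hρρ : ∀ x, ρ (ρ x) = x)
    (hρ1 : ∀ x, ρ x ≠ x) (g : ℕ) (hg : Fintype.card X = 2 * g) :
    Nat.card {Φ : Finset X // CMTP.HalfX ρ Φ} = 2 ^ g := by
  sorry

/-! ### CMV-FLD -/
theorem card_HG (K : Type) [Field K] [NumberField K] :
    Nat.card (CMTP.HG K) = finrank ℚ (IntermediateField.normalClosure ℚ K (CMT.QBar)) := by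
  sorry

theorem card_N (K : Type) [Field K] [NumberField K] [NumberField.IsCMField K]
    (N : Subgroup (Equiv.Perm (K →+* CMT.QBar)))
    (hN : ∀ n, n ∈ N ↔ n ∈ CMTP.HG K ∧ ∀ φ, n φ = φ ∨ n φ = CMT.cc φ) :
    Nat.card N * finrank ℚ (IntermediateField.normalClosure ℚ
        (NumberField.maximalRealSubfield K) CMT.QBar) =
      finrank ℚ (IntermediateField.normalClosure ℚ K CMT.QBar) := by
  sorry

end Pool.Agent.CMV.Targets
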